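import Pool.Agent.TH421.OS.A6

/-!
# The product formula
-/

set_option autoImplicit false

namespace Pool.Agent.TH421.OS

open Finset Nat

theorem hp (k m : ℕ) : (∏ l ∈ range m, ((k : ℚ) + 1 / 2 + l)) * 4 ^ m * ((k + m)! : ℚ) * ((2 * k)! : ℚ)
    = ((2 * k + 2 * m)! : ℚ) * (k ! : ℚ) := by
  induction m with
  | zero => simp; ring
  | succ m ih =>
    rw [prod_range_succ, show k + (m + 1) = (k + m) + 1 by ring,
      show 2 * k + 2 * (m + 1) = (2 * k + 2 * m) + 1 + 1 by ring, Nat.factorial_succ,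
      Nat.factorial_succ (2 * k + 2 * m + 1), Nat.factorial_succ (2 * k + 2 * m)]
    push_cast
    linear_combination ((2 * k + 2 * m + 1 + 1 : ℚ) * (2 * k + 2 * m + 1)) * ih

theorem prod_fac (n m : ℕ) : (∏ l ∈ range m, ((n : ℚ) + 1 + l)) * (n ! : ℚ) = ((n + m)! : ℚ) := by
  induction m with
  | zero => simp
  | succ m ih =>
    rw [prod_range_succ, show n + (m + 1) = (n + m) + 1 by ring, Nat.factorial_succ]
    push_cast
    rw [← ih]
    ring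

theorem fac_pos' (n : ℕ) : (0 : ℚ) < (n ! : ℚ) := by exact_mod_cast Nat.factorial_pos n

theorem bet_closed (n : ℕ) : bet n * ((2 * n + 1)! : ℚ) * 4 ^ (2 * n) * ((3 * n + 2)! : ℚ)
    * ((2 * n + 4)! : ℚ) = ((6 * n + 4)! : ℚ) * ((n + 2)! : ℚ) := by
  induction n with
  | zero => simp [bet, Nat.factorial]; norm_num
  | succ n ih =>
    rw [bet, show 2 * (n + 1) + 1 = (2 * n + 1) + 1 + 1 by ring,
      show 3 * (n + 1) + 2 = (3 * n + 2) + 1 + 1 + 1 by ring,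
      show 2 * (n + 1) + 4 = (2 * n + 4) + 1 + 1 by ring,
      show 6 * (n + 1) + 4 = (6 * n + 4) + 1 + 1 + 1 + 1 + 1 + 1 by ring,
      show n + 1 + 2 = (n + 2) + 1 by ring, show 2 * (n + 1) = 2 * n + 2 by ring, pow_add]
    simp only [Nat.factorial_succ (2 * n + 1), Nat.factorial_succ (2 * n + 1 + 1),
      Nat.factorial_succ (3 * n + 2), Nat.factorial_succ (3 * n + 2 + 1),
      Nat.factorial_succ (3 * n + 2 + 1 + 1), Nat.factorial_succ (2 * n + 4),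
      Nat.factorial_succ (2 * n + 4 + 1), Nat.factorial_succ (6 * n + 4),
      Nat.factorial_succ (6 * n + 4 + 1), Nat.factorial_succ (6 * n + 4 + 1 + 1),
      Nat.factorial_succ (6 * n + 4 + 1 + 1 + 1), Nat.factorial_succ (6 * n + 4 + 1 + 1 + 1 + 1),
      Nat.factorial_succ (6 * n + 4 + 1 + 1 + 1 + 1 + 1), Nat.factorial_succ (n + 2)]
    push_cast
    have hr : ((3 / 2) * (3 * (n : ℚ) + 7 / 2) * (3 * n + 5 / 2) / ((2 * n + 2) * (n + 5 / 2)))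
        * ((2 * n + 1 + 1 + 1) * (2 * n + 1 + 1) * 4 ^ 2 * (3 * n + 2 + 1 + 1 + 1)
        * (3 * n + 2 + 1 + 1) * (3 * n + 2 + 1) * (2 * n + 4 + 1 + 1) * (2 * n + 4 + 1))
        = (6 * (n : ℚ) + 4 + 1 + 1 + 1 + 1 + 1 + 1)
      * (6 * (n : ℚ) + 4 + 1 + 1 + 1 + 1 + 1) * (6 * (n : ℚ) + 4 + 1 + 1 + 1 + 1)
      * (6 * (n : ℚ) + 4 + 1 + 1 + 1) * (6 * (n : ℚ) + 4 + 1 + 1) * (6 * (n : ℚ) + 4 + 1)
      * ((n : ℚ) + 2 + 1) := by
      have h1 : (2 : ℚ) * n + 2 ≠ 0 := by positivity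
      have h2 : (n : ℚ) + 5 / 2 ≠ 0 := by positivity
      field_simp
      ring
    linear_combination (bet n * ((2 * n + 1)! : ℚ) * 4 ^ (2 * n) * ((3 * n + 2)! : ℚ)
      * ((2 * n + 4)! : ℚ)) * hr + ((6 * (n : ℚ) + 4 + 1 + 1 + 1 + 1 + 1 + 1)
      * (6 * (n : ℚ) + 4 + 1 + 1 + 1 + 1 + 1) * (6 * (n : ℚ) + 4 + 1 + 1 + 1 + 1)
      * (6 * (n : ℚ) + 4 + 1 + 1 + 1) * (6 * (n : ℚ) + 4 + 1 + 1) * (6 * (n : ℚ) + 4 + 1)
      * ((n : ℚ) + 2 + 1)) * ih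

theorem valn_closed (n : ℕ) : valn n * (4 ^ n * ((3 * n + 2)! : ℚ) * ((4 * n + 4)! : ℚ))
    = ((6 * n + 4)! : ℚ) * (n ! : ℚ) * (2 * n + 2) := by
  have h1 := bet_closed n
  have h2 : rp n n * 4 ^ n * ((2 * n + 2)! : ℚ) * ((2 * n + 4)! : ℚ)
      = ((4 * n + 4)! : ℚ) * ((n + 2)! : ℚ) := by
    have h := hp (n + 2) n
    rw [show n + 2 + n = 2 * n + 2 by ring, show 2 * (n + 2) + 2 * n = 4 * n + 4 by ring,
      show 2 * (n + 2) = 2 * n + 4 by ring] at h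
    rw [← h, rp]
    congr 3
    refine prod_congr rfl fun l _ => ?_
    push_cast; ring
  have h3 : ∏ l ∈ range n, ((n : ℚ) - l) = (n ! : ℚ) := by
    rw [← prod_range_reflect]
    have h := prod_fac 0 n
    rw [zero_add, Nat.factorial_zero] at h
    rw [← h, Nat.cast_one, mul_one]
    refine prod_congr rfl fun l hl => ?_
    have := mem_range.1 hl
    rw [Nat.cast_sub (by omega), Nat.cast_sub (by omega)]
    push_cast; ring
  have hrp : rp (n : ℚ) n ≠ 0 := (rp_pos _ (by positivity) n).ne'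
  have h4 : ((2 * n + 2)! : ℚ) = (2 * n + 2) * ((2 * n + 1)! : ℚ) := by
    rw [Nat.factorial_succ]; push_cast; ring
  rw [valn, h3]
  rw [div_mul_eq_mul_div, div_eq_iff hrp]
  have hne : ((2 * n + 1)! : ℚ) * 4 ^ n * ((2 * n + 4)! : ℚ) * ((n + 2)! : ℚ) ≠ 0 := by
    have := fac_pos' (2 * n + 1)
    have := fac_pos' (2 * n + 4)
    have := fac_pos' (n + 2)
    positivity
  apply mul_right_cancel₀ hne
  rw [h4] at h2
  have h5 : (4 : ℚ) ^ (2 * n) = 4 ^ n * 4 ^ n := by rw [two_mul, pow_add]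
  rw [h5] at h1
  linear_combination ((n ! : ℚ) * ((4 * n + 4)! : ℚ) * ((n + 2)! : ℚ)) * h1
    - (((6 * n + 4)! : ℚ) * (n ! : ℚ) * ((n + 2)! : ℚ)) * h2

theorem elln_closed (n : ℕ) : elln n * (4 ^ n * ((2 * n + 1)! : ℚ) * ((3 * n + 2)! : ℚ))
    = ((4 * n + 2)! : ℚ) * (n ! : ℚ) := by
  have h1 := hp (n + 1) n
  rw [show n + 1 + n = 2 * n + 1 by ring, show 2 * (n + 1) + 2 * n = 4 * n + 2 by ring,
      show 2 * (n + 1) = 2 * n + 2 by ring] at h1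
  have h2 := prod_fac (2 * n + 2) n
  rw [show 2 * n + 2 + n = 3 * n + 2 by ring] at h2
  have e1 : ∏ l ∈ range n, (((n + 1 : ℕ) : ℚ) + 1 / 2 + l) = ∏ l ∈ range n, ((n : ℚ) + 3 / 2 + l) := by
    refine prod_congr rfl fun l _ => ?_
    push_cast; ring
  have e2 : ∏ l ∈ range n, (((2 * n + 2 : ℕ) : ℚ) + 1 + l) = ∏ l ∈ range n, (2 * (n : ℚ) + 3 + l) := by
    refine prod_congr rfl fun l _ => ?_
    push_cast; ring
  rw [e1] at h1
  rw [e2] at h2
  have hne : ((n : ℚ) + 1) * ∏ l ∈ range n, (2 * (n : ℚ) + 3 + l) ≠ 0 := by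
    refine mul_ne_zero (by positivity) ?_
    rw [prod_ne_zero_iff]
    intro l _
    positivity
  have h4 : ((n + 1)! : ℚ) = (n + 1) * (n ! : ℚ) := by
    rw [Nat.factorial_succ]; push_cast; ring
  rw [elln, div_mul_eq_mul_div, div_eq_iff hne]
  have hne2 : ((2 * n + 2)! : ℚ) ≠ 0 := (fac_pos' _).ne'
  apply mul_right_cancel₀ hne2
  rw [h4] at h1
  linear_combination ((3 * n + 2)! : ℚ) * h1
    - (((4 * n + 2)! : ℚ) * (n ! : ℚ) * (n + 1)) * h2

theorem elln_pos (n : ℕ) : 0 < elln n := by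
  rw [elln]
  apply _root_.div_pos
  · apply prod_pos
    intro l _
    positivity
  · apply mul_pos (by positivity)
    apply prod_pos
    intro l _
    positivity

/-- product of the denominators -/
def PD (n : ℕ) : ℚ := ∏ i ∈ Icc 1 n, ((2 * n + 2 * i + 1)! : ℚ)

theorem PD_succ (n : ℕ) : PD (n + 1) * ((2 * n + 3)! : ℚ)
    = PD n * ((4 * n + 3)! : ℚ) * ((4 * n + 5)! : ℚ) := by
  have e : ∀ (m : ℕ) (f : ℕ → ℚ), ∏ i ∈ Icc 1 m, f i = ∏ i ∈ range m, f (i + 1) := by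
    intro m f
    rw [Finset.range_eq_Ico, Finset.prod_Ico_add' f 0 m 1]
    rfl
  rw [PD, PD, e, e, prod_range_succ]
  have h1 : (∏ i ∈ range n, ((2 * (n + 1) + 2 * (i + 1) + 1)! : ℚ)) * ((2 * n + 3)! : ℚ)
      = (∏ i ∈ range n, ((2 * n + 2 * (i + 1) + 1)! : ℚ)) * ((4 * n + 3)! : ℚ) := by
    have h2 := prod_range_succ (fun i => ((2 * n + 2 * (i + 1) + 1)! : ℚ)) n
    have h3 := prod_range_succ' (fun i => ((2 * n + 2 * (i + 1) + 1)! : ℚ)) n
    rw [h2] at h3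
    have e1 : 2 * n + 2 * (n + 1) + 1 = 4 * n + 3 := by ring
    have e2 : 2 * n + 2 * (0 + 1) + 1 = 2 * n + 3 := by ring
    rw [e1, e2] at h3
    rw [h3]
    congr 1
    refine prod_congr rfl fun i _ => ?_
    congr 2
    ring
  have e3 : 2 * (n + 1) + 2 * (n + 1) + 1 = 4 * n + 5 := by ring
  rw [e3]
  linear_combination ((4 * n + 5)! : ℚ) * h1

/-- product of the numerators -/
def PN (n : ℕ) : ℚ := ∏ i ∈ Icc 1 n, ((6 * i - 2)! : ℚ)

theorem PN_succ (n : ℕ) : PN (n + 1) = PN n * ((6 * n + 4)! : ℚ) := by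
  rw [PN, Finset.prod_Icc_succ_top (by omega), PN]
  congr 2

theorem Qn_succ (n : ℕ) : elln (n + 1) * Qn (n + 1) = valn n * Qn n := by
  rw [Qn_rec]
  have h1 := Pn_rec n
  have h2 := Qn_rec n
  have h3 := (elln_pos n).ne'
  apply mul_left_cancel₀ h3
  rw [h1, ← h2]
  ring

theorem Qn_zero : Qn 0 = 1 := by
  have h := Qn_rec 0
  have h1 : elln 0 = 1 := by simp [elln]
  have h2 : Pn 0 = 1 := by simp [Pn, Pool.Agent.Helper929.pf]
  rw [h1, h2, one_mul] at h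
  exact h

theorem Qn_closed (n : ℕ) : 2 * Qn n * (((2 * n + 1)! : ℚ) * PD n)
    = 2 ^ n * ((3 * n + 2)! : ℚ) * PN n := by
  induction n with
  | zero => rw [Qn_zero]; simp [PD, PN, Nat.factorial]
  | succ n ih =>
    have h1 := Qn_succ n
    have h2 := valn_closed n
    have h3 := elln_closed (n + 1)
    have h4 := PD_succ n
    rw [PN_succ]
    rw [show 2 * (n + 1) + 1 = 2 * n + 3 by ring, show 3 * (n + 1) + 2 = 3 * n + 5 by ring,
      show 4 * (n + 1) + 2 = 4 * n + 6 by ring] at h3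
    rw [show 2 * (n + 1) + 1 = 2 * n + 3 by ring, show 3 * (n + 1) + 2 = 3 * n + 5 by ring]
    have f1 : ((2 * n + 3)! : ℚ) = (2 * n + 3) * (2 * n + 2) * ((2 * n + 1)! : ℚ) := by
      rw [show 2 * n + 3 = 2 * n + 1 + 1 + 1 by ring, Nat.factorial_succ, Nat.factorial_succ]
      push_cast; ring
    have f2 : ((4 * n + 6)! : ℚ) = (4 * n + 6) * ((4 * n + 5)! : ℚ) := by
      rw [show 4 * n + 6 = 4 * n + 5 + 1 by ring, Nat.factorial_succ]
      push_cast; ring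
    have f3 : ((4 * n + 4)! : ℚ) = (4 * n + 4) * ((4 * n + 3)! : ℚ) := by
      rw [show 4 * n + 4 = 4 * n + 3 + 1 by ring, Nat.factorial_succ]
      push_cast; ring
    have f4 : ((n + 1)! : ℚ) = (n + 1) * (n ! : ℚ) := by
      rw [Nat.factorial_succ]; push_cast; ring
    have hX : elln (n + 1) * (4 ^ (n + 1) * ((2 * n + 3)! : ℚ) * ((3 * n + 5)! : ℚ)) ≠ 0 := by
      have := elln_pos (n + 1)
      have := fac_pos' (2 * n + 3)
      have := fac_pos' (3 * n + 5)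
      positivity
    have hY : (4 : ℚ) ^ n * ((3 * n + 2)! : ℚ) * ((4 * n + 4)! : ℚ) ≠ 0 := by
      have := fac_pos' (3 * n + 2)
      have := fac_pos' (4 * n + 4)
      positivity
    apply mul_right_cancel₀ hY
    apply mul_right_cancel₀ hX
    calc 2 * Qn (n + 1) * (((2 * n + 3)! : ℚ) * PD (n + 1))
          * (4 ^ n * ((3 * n + 2)! : ℚ) * ((4 * n + 4)! : ℚ))
          * (elln (n + 1) * (4 ^ (n + 1) * ((2 * n + 3)! : ℚ) * ((3 * n + 5)! : ℚ)))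
        = 2 * (elln (n + 1) * Qn (n + 1)) * (4 ^ (n + 1) * ((2 * n + 3)! : ℚ) * ((3 * n + 5)! : ℚ))
          * (PD (n + 1) * ((2 * n + 3)! : ℚ))
          * (4 ^ n * ((3 * n + 2)! : ℚ) * ((4 * n + 4)! : ℚ)) := by ring
      _ = 2 * (valn n * Qn n) * (4 ^ (n + 1) * ((2 * n + 3)! : ℚ) * ((3 * n + 5)! : ℚ))
          * (PD n * ((4 * n + 3)! : ℚ) * ((4 * n + 5)! : ℚ))
          * (4 ^ n * ((3 * n + 2)! : ℚ) * ((4 * n + 4)! : ℚ)) := by rw [h1, h4]
      _ = (2 * Qn n * (((2 * n + 1)! : ℚ) * PD n))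
          * (valn n * (4 ^ n * ((3 * n + 2)! : ℚ) * ((4 * n + 4)! : ℚ)))
          * ((2 * n + 3) * (2 * n + 2) * (4 ^ (n + 1) * ((3 * n + 5)! : ℚ)
            * ((4 * n + 3)! : ℚ) * ((4 * n + 5)! : ℚ))) := by rw [f1]; ring
      _ = (2 ^ n * ((3 * n + 2)! : ℚ) * PN n) * (((6 * n + 4)! : ℚ) * (n ! : ℚ) * (2 * n + 2))
          * ((2 * n + 3) * (2 * n + 2) * (4 ^ (n + 1) * ((3 * n + 5)! : ℚ)
            * ((4 * n + 3)! : ℚ) * ((4 * n + 5)! : ℚ))) := by rw [ih, h2]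
      _ = 2 ^ (n + 1) * ((3 * n + 5)! : ℚ) * (PN n * ((6 * n + 4)! : ℚ))
          * (4 ^ n * ((3 * n + 2)! : ℚ) * ((4 * n + 4)! : ℚ))
          * (((4 * n + 6)! : ℚ) * ((n + 1)! : ℚ)) := by
        rw [f2, f3, f4, pow_succ, pow_succ]; ring
      _ = _ := by rw [← h3]

/-- the product formula, in the form of the frozen statement -/
theorem Qn_formula (n : ℕ) (hn : 1 ≤ n) : Qn n
    = (2 : ℚ) ^ (n - 1) * ((Nat.factorial (3 * n + 2) : ℕ) : ℚ)
            / ((Nat.factorial (2 * n + 1) : ℕ) : ℚ)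
          * ∏ i ∈ Finset.Icc 1 n,
              (((Nat.factorial (6 * i - 2) : ℕ) : ℚ)
                / ((Nat.factorial (2 * n + 2 * i + 1) : ℕ) : ℚ)) := by
  have h := Qn_closed n
  rw [Finset.prod_div_distrib]
  change Qn n = 2 ^ (n - 1) * ((3 * n + 2)! : ℚ) / ((2 * n + 1)! : ℚ) * (PN n / PD n)
  have h1 : ((2 * n + 1)! : ℚ) ≠ 0 := (fac_pos' _).ne'
  have h2 : PD n ≠ 0 := by
    rw [PD, prod_ne_zero_iff]
    intro i _
    exact (fac_pos' _).ne'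
  obtain ⟨m, rfl⟩ : ∃ m, n = m + 1 := ⟨n - 1, by omega⟩
  rw [Nat.add_sub_cancel]
  rw [pow_succ] at h
  field_simp
  linear_combination h / 2

end Pool.Agent.TH421.OS
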