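import Pool.Agent.TH421.OS.Gen

/-!
# Power series on a ray
-/

set_option autoImplicit false

namespace Pool.Agent.TH421.OS

open PowerSeries Finset

/-- series along a ray -/
noncomputable def Phi (f : ℕ → ℕ → ℚ) (u w : ℚ) : ℚ⟦X⟧ :=
  PowerSeries.mk fun m => ∑ p ∈ antidiagonal m, f p.1 p.2 * u ^ p.1 * w ^ p.2

/-- shift in the first index -/
def sh1 (f : ℕ → ℕ → ℚ) : ℕ → ℕ → ℚ
  | 0, _ => 0
  | a + 1, b => f a b

/-- shift in the second index -/
def sh2 (f : ℕ → ℕ → ℚ) : ℕ → ℕ → ℚ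
  | _, 0 => 0
  | a, b + 1 => f a b

theorem Phi_sh1 (f : ℕ → ℕ → ℚ) (u w : ℚ) : Phi (sh1 f) u w = C u * X * Phi f u w := by
  ext m
  cases m with
  | zero =>
    rw [mul_assoc, coeff_C_mul, coeff_zero_X_mul, Phi, coeff_mk]
    simp [sh1]
  | succ m =>
    rw [mul_assoc, coeff_C_mul, coeff_succ_X_mul, Phi, Phi, coeff_mk, coeff_mk,
      Finset.Nat.sum_antidiagonal_succ, mul_sum]
    simp only [sh1, zero_mul, zero_add]
    refine sum_congr rfl fun p _ => ?_
    ring

theorem Phi_sh2 (f : ℕ → ℕ → ℚ) (u w : ℚ) : Phi (sh2 f) u w = C w * X * Phi f u w := by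
  ext m
  cases m with
  | zero =>
    rw [mul_assoc, coeff_C_mul, coeff_zero_X_mul, Phi, coeff_mk]
    simp [sh2]
  | succ m =>
    rw [mul_assoc, coeff_C_mul, coeff_succ_X_mul, Phi, Phi, coeff_mk, coeff_mk,
      Finset.Nat.sum_antidiagonal_succ', mul_sum]
    simp only [sh2, zero_mul]
    rw [zero_add]
    refine sum_congr rfl fun p _ => ?_
    ring

theorem Phi_add (f g : ℕ → ℕ → ℚ) (u w : ℚ) :
    Phi (fun a b => f a b + g a b) u w = Phi f u w + Phi g u w := by
  ext m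
  simp only [Phi, coeff_mk, map_add, add_mul, sum_add_distrib]

theorem Phi_sub (f g : ℕ → ℕ → ℚ) (u w : ℚ) :
    Phi (fun a b => f a b - g a b) u w = Phi f u w - Phi g u w := by
  ext m
  simp only [Phi, coeff_mk, map_sub, sub_mul, sum_sub_distrib]

/-- delta -/
def dlt : ℕ → ℕ → ℚ
  | 0, 0 => 1
  | _, _ => 0

theorem Phi_dlt (u w : ℚ) : Phi dlt u w = 1 := by
  ext m
  rw [Phi, coeff_mk, coeff_one]
  cases m with
  | zero => simp [dlt]
  | succ m =>
    rw [if_neg (by omega)]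
    refine sum_eq_zero fun p hp => ?_
    have hp := HasAntidiagonal.mem_antidiagonal.1 hp
    have : dlt p.1 p.2 = 0 := by
      rcases p with ⟨a, b⟩
      cases a with
      | zero =>
        cases b with
        | zero => simp at hp
        | succ b => rfl
      | succ a => rfl
    rw [this]; ring

theorem full' (a b : ℕ) : c a b - sh1 c a b - sh2 c a b - sh1 (sh2 c) a b
    + sh1 (sh1 (sh2 c)) a b + sh1 (sh2 (sh2 c)) a b = sh2 dlt a b - sh1 dlt a b := by
  have h := full a b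
  have e1 : s 0 0 a b = c a b := by simp [s]
  have e2 : s 1 0 a b = sh1 c a b := by cases a <;> simp [s, sh1]
  have e3 : s 0 1 a b = sh2 c a b := by cases b <;> simp [s, sh2]
  have e4 : s 1 1 a b = sh1 (sh2 c) a b := by cases a <;> cases b <;> simp [s, sh1, sh2]
  have e5 : s 2 1 a b = sh1 (sh1 (sh2 c)) a b := by
    rcases a with _ | _ | a <;> cases b <;> simp [s, sh1, sh2]
  have e6 : s 1 2 a b = sh1 (sh2 (sh2 c)) a b := by
    rcases b with _ | _ | b <;> cases a <;> simp [s, sh1, sh2]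
  have e7 : (if a = 0 ∧ b = 1 then (1 : ℚ) else 0) = sh2 dlt a b := by
    rcases b with _ | _ | b <;> cases a <;> simp [sh2, dlt]
  have e8 : (if a = 1 ∧ b = 0 then (1 : ℚ) else 0) = sh1 dlt a b := by
    rcases a with _ | _ | a <;> cases b <;> simp [sh1, dlt]
  rw [e1, e2, e3, e4, e5, e6, e7, e8] at h
  exact h

theorem Phi_c (u w : ℚ) :
    Phi c u w * ((1 - (C u * X) * (C w * X)) * (1 - (C u * X) - (C w * X)))
      = C w * X - C u * X := by
  have h : Phi (fun a b => c a b - sh1 c a b - sh2 c a b - sh1 (sh2 c) a b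
      + sh1 (sh1 (sh2 c)) a b + sh1 (sh2 (sh2 c)) a b) u w
      = Phi (fun a b => sh2 dlt a b - sh1 dlt a b) u w := by
    congr 1
    funext a b
    exact full' a b
  rw [Phi_add (fun a b => c a b - sh1 c a b - sh2 c a b - sh1 (sh2 c) a b
      + sh1 (sh1 (sh2 c)) a b) (fun a b => sh1 (sh2 (sh2 c)) a b),
    Phi_add (fun a b => c a b - sh1 c a b - sh2 c a b - sh1 (sh2 c) a b)
      (fun a b => sh1 (sh1 (sh2 c)) a b),
    Phi_sub (fun a b => c a b - sh1 c a b - sh2 c a b) (fun a b => sh1 (sh2 c) a b),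
    Phi_sub (fun a b => c a b - sh1 c a b) (fun a b => sh2 c a b),
    Phi_sub (fun a b => c a b) (fun a b => sh1 c a b),
    Phi_sub (fun a b => sh2 dlt a b) (fun a b => sh1 dlt a b)] at h
  change Phi c u w - Phi (sh1 c) u w - Phi (sh2 c) u w - Phi (sh1 (sh2 c)) u w
    + Phi (sh1 (sh1 (sh2 c))) u w + Phi (sh1 (sh2 (sh2 c))) u w
    = Phi (sh2 dlt) u w - Phi (sh1 dlt) u w at h
  simp only [Phi_sh1, Phi_sh2, Phi_dlt] at h
  linear_combination h

/-- geometric series on a ray -/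
noncomputable def geo (u : ℚ) : ℚ⟦X⟧ := PowerSeries.mk fun m => (-1) ^ m * u ^ m

theorem geo_mul (u : ℚ) : geo u * (1 + C u * X) = 1 := by
  rw [mul_add, mul_one, mul_comm (geo u), mul_assoc]
  ext m
  rw [map_add, coeff_C_mul, coeff_one]
  cases m with
  | zero =>
    rw [coeff_zero_X_mul, geo, coeff_mk]
    simp
  | succ m =>
    rw [coeff_succ_X_mul, geo, coeff_mk, coeff_mk, if_neg (by omega)]
    ring

end Pool.Agent.TH421.OS
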