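import Pool.Agent.TH421.OS.Bord
import Pool.Agent.TH421.OS.Ser

/-!
# The homogeneous limit
-/

set_option autoImplicit false

namespace Pool.Agent.TH421.OS

open PowerSeries Finset Matrix Pool.Agent.Helper929

/-- Vandermonde matrix of the points `0, 1, 2, ...` -/
def Vm (N : ℕ) : Matrix (Fin N) (Fin N) ℚ := Matrix.vandermonde (fun i => ((i : ℕ) : ℚ))

theorem Vm_det (N : ℕ) : (Vm N).det ≠ 0 := by
  rw [Vm, Matrix.det_vandermonde_ne_zero_iff]
  intro i j h
  have : ((i : ℕ) : ℚ) = ((j : ℕ) : ℚ) := h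
  exact Fin.ext (by exact_mod_cast this)

/-- values of the inverse on powers -/
noncomputable def G (N : ℕ) (a : Fin N) (k : ℕ) : ℚ := ∑ i : Fin N, (Vm N)⁻¹ a i * ((i : ℕ) : ℚ) ^ k

theorem G_eq (N : ℕ) (a : Fin N) (k : ℕ) (hk : k < N) :
    G N a k = if (a : ℕ) = k then 1 else 0 := by
  have h : ((Vm N)⁻¹ * Vm N) a ⟨k, hk⟩ = (1 : Matrix (Fin N) (Fin N) ℚ) a ⟨k, hk⟩ := by
    rw [Matrix.nonsing_inv_mul _ (isUnit_iff_ne_zero.2 (Vm_det N))]
  rw [Matrix.mul_apply, Matrix.one_apply] at h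
  rw [G]
  simp only [Vm, Matrix.vandermonde_apply] at h
  rw [Vm, h]
  by_cases hc : (a : ℕ) = k
  · rw [if_pos hc, if_pos (Fin.ext hc)]
  · rw [if_neg hc, if_neg (fun h => hc (congrArg Fin.val h))]

/-- the matrix over power series -/
noncomputable def CA (N : ℕ) : Matrix (Fin N) (Fin N) ℚ⟦X⟧ :=
  Matrix.of fun i j => Phi c ((i : ℕ) : ℚ) ((j : ℕ) : ℚ)

/-- the inverse Vandermonde matrix over power series -/
noncomputable def PA (N : ℕ) : Matrix (Fin N) (Fin N) ℚ⟦X⟧ := (Vm N)⁻¹.map C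

theorem coeff_entry (N : ℕ) (a b : Fin N) (m : ℕ) :
    coeff m ((PA N * CA N * (PA N)ᵀ) a b)
      = ∑ p ∈ HasAntidiagonal.antidiagonal m, c p.1 p.2 * G N a p.1 * G N b p.2 := by
  rw [Matrix.mul_apply]
  simp_rw [Matrix.mul_apply, Matrix.transpose_apply]
  have h1 : ∀ i j : Fin N, coeff m (PA N a i * CA N i j * PA N b j)
      = ∑ p ∈ HasAntidiagonal.antidiagonal m, c p.1 p.2 * ((Vm N)⁻¹ a i * ((i : ℕ) : ℚ) ^ p.1)
        * ((Vm N)⁻¹ b j * ((j : ℕ) : ℚ) ^ p.2) := by
    intro i j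
    simp only [PA, CA, Matrix.map_apply, Matrix.of_apply]
    rw [mul_comm, coeff_C_mul, coeff_C_mul, Phi, coeff_mk, mul_sum, mul_sum]
    refine sum_congr rfl fun p _ => ?_
    ring
  simp_rw [Finset.sum_mul, map_sum, h1]
  have h2 : ∀ p : ℕ × ℕ, c p.1 p.2 * G N a p.1 * G N b p.2
      = ∑ j : Fin N, ∑ i : Fin N, c p.1 p.2 * ((Vm N)⁻¹ a i * ((i : ℕ) : ℚ) ^ p.1)
        * ((Vm N)⁻¹ b j * ((j : ℕ) : ℚ) ^ p.2) := by
    intro p
    simp_rw [G, Finset.mul_sum, Finset.sum_mul]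
  simp_rw [h2]
  rw [Finset.sum_comm]
  rw [Finset.sum_comm (s := HasAntidiagonal.antidiagonal m)]
  rw [Finset.sum_comm]
  refine sum_congr rfl fun j _ => ?_
  rw [Finset.sum_comm]

theorem coeff_X_pow_mul_self (n : ℕ) (B : ℚ⟦X⟧) : coeff n (X ^ n * B) = constantCoeff B := by
  have h := coeff_X_pow_mul B n 0
  rwa [zero_add, coeff_zero_eq_constantCoeff_apply] at h

theorem entry_dvd (N : ℕ) (a b : Fin N) : ∃ B : ℚ⟦X⟧,
    (PA N * CA N * (PA N)ᵀ) a b = X ^ ((a : ℕ) + (b : ℕ)) * B ∧ constantCoeff B = c a b := by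
  have h1 : (X : ℚ⟦X⟧) ^ ((a : ℕ) + (b : ℕ)) ∣ (PA N * CA N * (PA N)ᵀ) a b := by
    rw [PowerSeries.X_pow_dvd_iff]
    intro m hm
    rw [coeff_entry]
    refine sum_eq_zero fun p hp => ?_
    have hp := HasAntidiagonal.mem_antidiagonal.1 hp
    by_cases h : p.1 < a
    · rw [G_eq N a p.1 (by omega), if_neg (by omega)]
      ring
    · rw [G_eq N b p.2 (by omega), if_neg (by omega)]
      ring
  obtain ⟨B, hB⟩ := h1
  refine ⟨B, hB, ?_⟩
  have h2 := congrArg (coeff ((a : ℕ) + (b : ℕ))) hB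
  rw [coeff_entry, coeff_X_pow_mul_self] at h2
  rw [← h2, Finset.sum_eq_single ((a : ℕ), (b : ℕ))]
  · rw [G_eq N a a a.2, G_eq N b b b.2]
    simp
  · intro p hp hne
    have hp := HasAntidiagonal.mem_antidiagonal.1 hp
    by_cases h : p.1 < a
    · rw [G_eq N a p.1 (by omega), if_neg (by omega)]
      ring
    · by_cases h' : p.1 = a
      · exact absurd (Prod.ext h' (by simp only; omega)) hne
      · rw [G_eq N b p.2 (by omega), if_neg (by omega)]
        ring
  · intro h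
    exact absurd (by rw [HasAntidiagonal.mem_antidiagonal]) h

theorem border_dvd (N : ℕ) (a : Fin N) : ∃ B : ℚ⟦X⟧,
    ∑ i : Fin N, PA N a i * geo ((i : ℕ) : ℚ) = X ^ (a : ℕ) * B
      ∧ constantCoeff B = (-1) ^ (a : ℕ) := by
  have hc : ∀ m, coeff m (∑ i : Fin N, PA N a i * geo ((i : ℕ) : ℚ)) = (-1) ^ m * G N a m := by
    intro m
    rw [map_sum, G, mul_sum]
    refine sum_congr rfl fun i _ => ?_
    simp only [PA, Matrix.map_apply]
    rw [coeff_C_mul, geo, coeff_mk]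
    ring
  have h1 : (X : ℚ⟦X⟧) ^ (a : ℕ) ∣ ∑ i : Fin N, PA N a i * geo ((i : ℕ) : ℚ) := by
    rw [PowerSeries.X_pow_dvd_iff]
    intro m hm
    rw [hc, G_eq N a m (by omega), if_neg (by omega), mul_zero]
  obtain ⟨B, hB⟩ := h1
  refine ⟨B, hB, ?_⟩
  have h2 := congrArg (coeff (a : ℕ)) hB
  rw [hc, G_eq N a a a.2, if_pos rfl, mul_one, coeff_X_pow_mul_self] at h2
  exact h2.symm

theorem PP_vandermonde {R : Type*} [CommRing R] (n : ℕ) (x : Fin n → R) :
    PP fV n x = (Matrix.vandermonde x).det := by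
  rw [Matrix.det_vandermonde]
  induction n with
  | zero => simp [PP]
  | succ n ih =>
    rw [PP, Fin.prod_univ_succ, ih]
    congr 1
    · rw [Fin.prod_Ioi_zero]
      rfl
    · refine prod_congr rfl fun i _ => ?_
      rw [Fin.prod_Ioi_succ]

theorem PP_ray (N : ℕ) : PP fV N (fun i : Fin N => (C (((i : ℕ) : ℚ)) * X : ℚ⟦X⟧))
    = C (Vm N).det * ∏ a : Fin N, X ^ (a : ℕ) := by
  rw [PP_vandermonde]
  have h : Matrix.vandermonde (fun i : Fin N => (C (((i : ℕ) : ℚ)) * X : ℚ⟦X⟧))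
      = (Vm N).map (C : ℚ →+* ℚ⟦X⟧) * Matrix.diagonal (fun a : Fin N => (X : ℚ⟦X⟧) ^ (a : ℕ)) := by
    ext1 i j
    rw [Matrix.mul_diagonal, Matrix.vandermonde_apply, Matrix.map_apply, Vm,
      Matrix.vandermonde_apply, mul_pow, map_pow]
  rw [h, Matrix.det_mul, Matrix.det_diagonal]
  congr 1
  exact (RingHom.map_det (C : ℚ →+* ℚ⟦X⟧) (Vm N)).symm

/-- the field of fractions -/
abbrev FF := FractionRing ℚ⟦X⟧

instance : CharZero FF := by
  have : Algebra ℚ FF := ((algebraMap ℚ⟦X⟧ FF).comp (C : ℚ →+* ℚ⟦X⟧)).toAlgebra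
  exact algebraRat.charZero FF

/-- the parameters -/
noncomputable def xA (N : ℕ) (i : Fin N) : ℚ⟦X⟧ := C (((i : ℕ) : ℚ)) * X

/-- the parameters in the field of fractions -/
noncomputable def xF (N : ℕ) (i : Fin N) : FF := algebraMap ℚ⟦X⟧ FF (xA N i)

theorem inj_FF : Function.Injective (algebraMap ℚ⟦X⟧ FF) := IsFractionRing.injective _ _

theorem cc_xA (N : ℕ) (i : Fin N) : constantCoeff (xA N i) = 0 := by
  simp [xA]

theorem ne_FF (p : ℚ⟦X⟧) (h : constantCoeff p ≠ 0) : algebraMap ℚ⟦X⟧ FF p ≠ 0 := by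
  intro h0
  rw [← map_zero (algebraMap ℚ⟦X⟧ FF)] at h0
  have := inj_FF h0
  rw [this] at h
  simp at h

theorem gen_xF (N : ℕ) : Gen (xF N) where
  inj := by
    intro i j h
    have h1 := inj_FF h
    have h2 := congrArg (coeff 1) h1
    simp only [xA] at h2
    rw [coeff_C_mul, coeff_C_mul, coeff_one_X] at h2
    have : ((i : ℕ) : ℚ) = ((j : ℕ) : ℚ) := by simpa using h2
    exact Fin.ext (by exact_mod_cast this)
  h1 := by
    intro i j
    have := ne_FF (1 - xA N i * xA N j) (by simp [cc_xA])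
    simpa [xF] using this
  h2 := by
    intro i j
    have := ne_FF (1 - xA N i - xA N j) (by simp [cc_xA])
    simpa [xF] using this
  h3 := by
    intro i
    have := ne_FF (1 + xA N i) (by simp [cc_xA])
    simpa [xF] using this
  h4 := by
    intro i
    have h := ne_FF (1 + 1 - xA N i) (by
      rw [map_sub, map_add, map_one, cc_xA]
      norm_num)
    rw [map_sub, map_add, map_one] at h
    have e : (2 : FF) = 1 + 1 := by norm_num
    rw [e]
    exact h

theorem Cx_xF (N : ℕ) (i j : Fin N) :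
    algebraMap ℚ⟦X⟧ FF (CA N i j) = Cx (xF N i) (xF N j) := by
  have h := congrArg (algebraMap ℚ⟦X⟧ FF) (Phi_c ((i : ℕ) : ℚ) ((j : ℕ) : ℚ))
  have hg := gen_xF N
  rw [Cx, eq_div_iff (mul_ne_zero (hg.h1 i j) (hg.h2 i j))]
  simp only [map_mul, map_sub, map_one] at h
  simp only [xF, xA, CA, Matrix.of_apply, map_mul]
  exact h

theorem geo_xF (N : ℕ) (i : Fin N) :
    algebraMap ℚ⟦X⟧ FF (geo ((i : ℕ) : ℚ)) = 1 / (1 + xF N i) := by
  have h := congrArg (algebraMap ℚ⟦X⟧ FF) (geo_mul ((i : ℕ) : ℚ))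
  have hg := gen_xF N
  rw [eq_div_iff (hg.h3 i)]
  simp only [map_mul, map_add, map_one] at h
  simp only [xF, xA, map_mul]
  exact h

theorem MB_xF (N : ℕ) : MB (xF N)
    = (bord (CA N) (fun i => geo ((i : ℕ) : ℚ))).map (algebraMap ℚ⟦X⟧ FF) := by
  rw [bord_map]
  ext i j
  refine Fin.lastCases ?_ (fun i => ?_) i
  · refine Fin.lastCases ?_ (fun j => ?_) j
    · rw [MB_ll, bord_ll]
    · rw [MB_lc, bord_lc, geo_xF]
  · refine Fin.lastCases ?_ (fun j => ?_) j
    · rw [MB_cl, bord_cl, geo_xF]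
    · rw [MB_cc, bord_cc, Matrix.map_apply, Cx_xF]

theorem Z1_map {R S : Type*} [CommRing R] [CommRing S] (φ : R →+* S) (l : List R) :
    φ (Z1 l) = Z1 (l.map φ) := by
  rw [Z1, Z1, ← Polynomial.coeff_map, ← Polynomial.coe_mapRingHom, Z0_map]
  congr 1
  rw [List.map_map, List.map_map]
  congr 1
  · simp
  · apply List.map_congr_left
    intro a _
    simp

theorem PP_zero (n : ℕ) : PP fW n (fun _ => (0 : ℚ)) = 1 := by
  induction n with
  | zero => simp [PP]
  | succ n ih =>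
    rw [PP, ih]
    simp [fW]

theorem CA_skew (N : ℕ) (i j : Fin N) : CA N i j = - CA N j i := by
  apply inj_FF
  rw [map_neg, Cx_xF, Cx_xF]
  exact Cx_skew _ _

theorem entry_skew (N : ℕ) (a b : Fin N) :
    (PA N * CA N * (PA N)ᵀ) a b = - (PA N * CA N * (PA N)ᵀ) b a := by
  have h : (PA N * CA N * (PA N)ᵀ)ᵀ = - (PA N * CA N * (PA N)ᵀ) := by
    rw [Matrix.transpose_mul, Matrix.transpose_mul, Matrix.transpose_transpose]
    have : (CA N)ᵀ = - CA N := by
      ext1 i j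
      rw [Matrix.transpose_apply, Matrix.neg_apply, CA_skew]
    rw [this, Matrix.neg_mul, Matrix.mul_neg, Matrix.mul_assoc]
  have h2 := congrFun (congrFun h b) a
  rw [Matrix.transpose_apply, Matrix.neg_apply] at h2
  exact h2

theorem limit (m : ℕ) : Z1 (List.replicate (2 * m + 1) (0 : ℚ))
    = pf (2 * m + 2) (bord (Matrix.of fun i j : Fin (2 * m + 1) => c i j)
      (fun i => (-1) ^ (i : ℕ))) := by
  set N := 2 * m + 1 with hN
  have h0 := odd_formula m (xF N) (gen_xF N)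
  choose B hB1 hB2 using fun a b => entry_dvd N a b
  choose w hw1 hw2 using fun a => border_dvd N a
  set φ := algebraMap ℚ⟦X⟧ FF with hφ
  -- the Gram computation
  have hgram : φ (C (Vm N)⁻¹.det) * pf (N + 1) (MB (xF N))
      = φ (∏ a : Fin N, X ^ (a : ℕ)) * φ (pf (N + 1) (bord (Matrix.of B) w)) := by
    have h1 := pf_gram (MB (xF N)) (MB_skew _) (pad ((PA N).map φ))
    have h2 : pad ((PA N).map φ) * MB (xF N) * (pad ((PA N).map φ))ᵀ
        = pad (Matrix.diagonal (fun a : Fin N => φ (X ^ (a : ℕ))))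
          * (bord (Matrix.of B) w).map φ
          * (pad (Matrix.diagonal (fun a : Fin N => φ (X ^ (a : ℕ)))))ᵀ := by
      rw [MB_xF, bord_map, bord_map, pad_bord, pad_bord]
      congr 1
      · ext a b
        have h3 := congrArg φ (hB1 a b)
        rw [Matrix.diagonal_transpose, Matrix.mul_diagonal, Matrix.diagonal_mul, Matrix.map_apply,
          Matrix.of_apply]
        rw [map_mul, pow_add, map_mul] at h3
        have h4 : ((PA N).map φ * (CA N).map φ * ((PA N).map φ)ᵀ) a b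
            = φ ((PA N * CA N * (PA N)ᵀ) a b) := by
          rw [← Matrix.map_mul, ← Matrix.transpose_map, ← Matrix.map_mul, Matrix.map_apply]
        rw [h4, h3]
        ring
      · funext a
        have h3 := congrArg φ (hw1 a)
        rw [map_sum, map_mul] at h3
        have h5 : ∑ i : Fin N, Matrix.diagonal (fun a : Fin N => φ (X ^ (a : ℕ))) a i * φ (w i)
            = φ (X ^ (a : ℕ)) * φ (w a) := by
          rw [Finset.sum_eq_single a]
          · rw [Matrix.diagonal_apply_eq]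
          · intro i _ hi
            rw [Matrix.diagonal_apply_ne _ (Ne.symm hi), zero_mul]
          · intro h; exact absurd (Finset.mem_univ a) h
        rw [h5, ← h3]
        refine sum_congr rfl fun i _ => ?_
        rw [map_mul, Matrix.map_apply]
    have hsk : ∀ a b, B a b = - B b a := by
      intro a b
      have h3 := entry_skew N a b
      rw [hB1, hB1, add_comm (b : ℕ)] at h3
      have h4 : (X : ℚ⟦X⟧) ^ ((a : ℕ) + (b : ℕ)) * B a b
          = X ^ ((a : ℕ) + (b : ℕ)) * (- B b a) := by rw [h3]; ring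
      exact mul_left_cancel₀ (pow_ne_zero _ X_ne_zero) h4
    rw [h2, pf_gram _ (by
      intro i j
      rw [Matrix.map_apply, Matrix.map_apply, bord_skew (Matrix.of B) w hsk i j, map_neg])
      (pad (Matrix.diagonal (fun a : Fin N => φ (X ^ (a : ℕ))))), pad_det,
      pad_det, Matrix.det_diagonal, ← pf_map, ← map_prod] at h1
    rw [h1]
    congr 1
    rw [RingHom.map_det, RingHom.map_det]
    rfl
  have hV : PP fV (2 * m + 1) (xF N) = φ (C (Vm N).det * ∏ a : Fin N, X ^ (a : ℕ)) := by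
    rw [← PP_ray, PP_map φ fV fV (by intro a b; simp [fV])]
    rfl
  have hW : PP fW (2 * m + 1) (xF N) = φ (PP fW N (xA N)) := by
    rw [PP_map φ fW fW (by intro a b; simp [fW])]
    rfl
  have hZ : Z1 (List.ofFn (xF N)) = φ (Z1 (List.ofFn (xA N))) := by
    rw [Z1_map, List.map_ofFn]
    rfl
  have hE : ∏ i, (1 + xF N i) = φ (∏ i, (1 + xA N i)) := by
    rw [map_prod]
    refine prod_congr rfl fun i _ => ?_
    rw [map_add, map_one]
    rfl
  have hdet : φ (C (Vm N).det) * φ (C (Vm N)⁻¹.det) = 1 := by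
    rw [← map_mul, ← map_mul, ← Matrix.det_mul,
      Matrix.mul_nonsing_inv _ (isUnit_iff_ne_zero.2 (Vm_det N)), Matrix.det_one, map_one, map_one]
  rw [hV, hW, hZ, hE] at h0
  have h1 : φ ((∏ a : Fin N, X ^ (a : ℕ)) * Z1 (List.ofFn (xA N)))
      = φ ((∏ a : Fin N, X ^ (a : ℕ)) * (PP fW N (xA N) * (∏ i, (1 + xA N i))
        * pf (N + 1) (bord (Matrix.of B) w))) := by
    simp only [map_mul] at h0 ⊢
    linear_combination (φ (C (Vm N)⁻¹.det)) * h0
      - (φ (Z1 (List.ofFn (xA N))) * φ (∏ a : Fin N, X ^ (a : ℕ))) * hdet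
      + (φ (PP fW N (xA N)) * φ (∏ i, (1 + xA N i))) * hgram
  have h2 := mul_left_cancel₀ (Finset.prod_ne_zero_iff.2 (fun a _ => pow_ne_zero _ X_ne_zero))
    (inj_FF h1)
  have h3 := congrArg (constantCoeff (R := ℚ)) h2
  rw [Z1_map, List.map_ofFn, map_mul, map_mul, PP_map (constantCoeff (R := ℚ)) fW fW (by
    intro a b; simp [fW]), map_prod, pf_map, bord_map] at h3
  simp only [cc_xA, PP_zero, map_add, map_one, add_zero, Finset.prod_const_one, one_mul,
    hw2] at h3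
  have h4 : List.ofFn ((constantCoeff (R := ℚ)) ∘ xA N) = List.replicate N 0 := by
    rw [← List.ofFn_const]
    congr 1
    funext i
    exact cc_xA N i
  have h5 : (Matrix.of B).map (constantCoeff (R := ℚ)) = Matrix.of fun i j : Fin N => c i j := by
    ext i j
    rw [Matrix.map_apply, Matrix.of_apply, hB2]
    rfl
  rw [h4, h5] at h3
  exact h3

end Pool.Agent.TH421.OS
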