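import Mathlib

/-!
# A basis of polynomials
-/

set_option autoImplicit false

namespace Pool.Agent.TH421.OS

open Polynomial Finset

/-- falling product `(2x)(2x-1)...(2x-i+1)` -/
def fal (x : ℚ) (i : ℕ) : ℚ := ∏ l ∈ range i, (2 * x - l)

/-- `∏_{i ≤ l < n} (x + 5/2 + l)` -/
def ris (x : ℚ) (i n : ℕ) : ℚ := ∏ l ∈ Ico i n, (x + 5 / 2 + l)

theorem fal_succ (x : ℚ) (i : ℕ) : fal x (i + 1) = fal x i * (2 * x - i) := by
  rw [fal, prod_range_succ]; rfl

theorem ris_succ (x : ℚ) (i n : ℕ) (h : i ≤ n) : ris x i (n + 1) = ris x i n * (x + 5 / 2 + n) := by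
  rw [ris, prod_Ico_succ_top h]; rfl

theorem ris_self (x : ℚ) (n : ℕ) : ris x n n = 1 := by simp [ris]

/-- the polynomial `2X(2X-1)...(2X-n+1)` -/
noncomputable def falP (n : ℕ) : ℚ[X] := ∏ l ∈ range n, (2 * X - C (l : ℚ))

theorem falP_eval (n : ℕ) (x : ℚ) : (falP n).eval x = fal x n := by
  simp [falP, fal, eval_prod]

theorem falP_deg (n : ℕ) : (falP n).natDegree ≤ n := by
  rw [falP]
  refine (natDegree_prod_le _ _).trans ?_
  have h1 : ∀ i ∈ range n, (2 * X - C ((i : ℕ) : ℚ) : ℚ[X]).natDegree ≤ 1 := by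
    intro i _
    compute_degree
  refine (Finset.sum_le_sum h1).trans ?_
  simp

theorem falP_coeff (n : ℕ) : (falP n).coeff n = 2 ^ n := by
  induction n with
  | zero => simp [falP]
  | succ n ih =>
    have h : falP (n + 1) = falP n * (2 * X - C (n : ℚ)) := by
      rw [falP, prod_range_succ]; rfl
    rw [h, mul_sub, coeff_sub, coeff_mul_C, coeff_eq_zero_of_natDegree_lt
      (lt_of_le_of_lt (falP_deg n) (Nat.lt_succ_self n)), zero_mul, sub_zero,
      show falP n * (2 * X) = (falP n * C 2) * X by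
        rw [mul_assoc]; congr 1, coeff_mul_X, coeff_mul_C, ih, pow_succ]

theorem exists_basis (n : ℕ) (T : ℚ[X]) (hT : T.natDegree ≤ n) : ∃ a : ℕ → ℚ,
    (∀ x : ℚ, T.eval x = ∑ i ∈ range (n + 1), a i * fal x i * ris x i n) ∧
    ∑ i ∈ range (n + 1), a i * 2 ^ i = T.coeff n := by
  induction n generalizing T with
  | zero =>
    rw [Nat.le_zero] at hT
    refine ⟨fun _ => T.coeff 0, ?_, ?_⟩
    · intro x
      rw [eq_C_of_natDegree_eq_zero hT]
      simp [fal, ris]
    · simp
  | succ n ih =>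
    set x0 : ℚ := -(5 / 2 + n) with hx0
    have hne : fal x0 (n + 1) ≠ 0 := by
      rw [fal, prod_ne_zero_iff]
      intro l _
      have : (0 : ℚ) ≤ l := by positivity
      have : (0 : ℚ) ≤ n := by positivity
      intro h
      rw [hx0] at h
      linarith
    set g : ℚ := T.eval x0 / fal x0 (n + 1) with hg
    have hroot : (T - C g * falP (n + 1)).eval x0 = 0 := by
      rw [eval_sub, eval_mul, eval_C, falP_eval, hg, div_mul_cancel₀ _ hne, sub_self]
    obtain ⟨T', hT'⟩ := dvd_iff_isRoot.2 hroot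
    have hdeg : (T - C g * falP (n + 1)).natDegree ≤ n + 1 := by
      refine (natDegree_sub_le _ _).trans ?_
      rw [max_le_iff]
      exact ⟨hT, (natDegree_C_mul_le _ _).trans (falP_deg _)⟩
    have hdeg' : T'.natDegree ≤ n := by
      by_cases h0 : T' = 0
      · rw [h0]; simp
      · rw [hT', natDegree_mul (X_sub_C_ne_zero _) h0, natDegree_X_sub_C] at hdeg
        omega
    obtain ⟨a, ha1, ha2⟩ := ih T' hdeg'
    refine ⟨fun i => if i = n + 1 then g else a i, ?_, ?_⟩
    · intro x
      rw [sum_range_succ]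
      beta_reduce
      rw [if_pos rfl, ris_self, mul_one]
      have h1 := congrArg (eval x) hT'
      rw [eval_sub, eval_mul, eval_C, falP_eval, eval_mul, eval_sub, eval_X, eval_C, ha1 x] at h1
      have h2 : ∑ i ∈ range (n + 1), (if i = n + 1 then g else a i) * fal x i * ris x i (n + 1)
          = (x - x0) * ∑ i ∈ range (n + 1), a i * fal x i * ris x i n := by
        rw [mul_sum]
        refine sum_congr rfl fun i hi => ?_
        have hi := mem_range.1 hi
        rw [if_neg (by omega), ris_succ x i n (by omega), hx0]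
        ring
      rw [h2]
      linarith
    · rw [sum_range_succ]
      beta_reduce
      rw [if_pos rfl]
      have h1 := congrArg (fun p => coeff p (n + 1)) hT'
      rw [coeff_sub, coeff_C_mul, falP_coeff, sub_mul, coeff_sub, coeff_X_mul, coeff_C_mul,
        coeff_eq_zero_of_natDegree_lt (lt_of_le_of_lt hdeg' (Nat.lt_succ_self n)), mul_zero,
        sub_zero, ← ha2] at h1
      have h2 : ∑ i ∈ range (n + 1), (if i = n + 1 then g else a i) * 2 ^ i
          = ∑ i ∈ range (n + 1), a i * 2 ^ i := by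
        refine sum_congr rfl fun i hi => ?_
        have hi := mem_range.1 hi
        rw [if_neg (by omega)]
      rw [h2]
      linarith

/-- the target polynomial `X(X-1)...(X-n+1)` -/
noncomputable def tar (n : ℕ) : ℚ[X] := ∏ l ∈ range n, (X - C (l : ℚ))

theorem tar_eval (n : ℕ) (x : ℚ) : (tar n).eval x = ∏ l ∈ range n, (x - l) := by
  simp [tar, eval_prod]

theorem tar_monic (n : ℕ) : (tar n).Monic :=
  monic_prod_of_monic _ _ fun _ _ => monic_X_sub_C _

theorem tar_deg (n : ℕ) : (tar n).natDegree = n := by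
  rw [tar, natDegree_prod_of_monic _ _ fun i _ => monic_X_sub_C _]
  simp only [natDegree_X_sub_C, sum_const, card_range, smul_eq_mul, mul_one]

theorem tar_coeff (n : ℕ) : (tar n).coeff n = 1 := by
  have := tar_monic n
  rw [Monic, leadingCoeff, tar_deg] at this
  exact this

theorem neg_prod (n : ℕ) (f : ℕ → ℚ) :
    ∏ l ∈ range n, (-(f l)) = (-1) ^ n * ∏ l ∈ range n, f l := by
  induction n with
  | zero => simp
  | succ n ih => rw [prod_range_succ, prod_range_succ, ih, pow_succ]; ring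

/-- existence of the coefficients -/
theorem exists_a (n : ℕ) : ∃ a : ℕ → ℚ,
    (∀ x : ℚ, ∏ l ∈ range n, (x - l) = ∑ i ∈ range (n + 1), a i * fal x i * ris x i n) ∧
    ∑ i ∈ range (n + 1), a i * 2 ^ i = 1 ∧
    a n * ∏ l ∈ range n, (2 * (n : ℚ) + 3 + l) = ∏ l ∈ range n, ((n : ℚ) + 3 / 2 + l) := by
  obtain ⟨a, h1, h2⟩ := exists_basis n (tar n) (tar_deg n).le
  refine ⟨a, ?_, ?_, ?_⟩
  · intro x
    rw [← h1, tar_eval]
  · rw [h2, tar_coeff]
  · have h3 := h1 (-((n : ℚ) + 3 / 2))
    rw [tar_eval, sum_range_succ, ris_self, mul_one] at h3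
    have h4 : ∑ i ∈ range n, a i * fal (-((n : ℚ) + 3 / 2)) i * ris (-((n : ℚ) + 3 / 2)) i n = 0 := by
      refine sum_eq_zero fun i hi => ?_
      have hi := mem_range.1 hi
      have : ris (-((n : ℚ) + 3 / 2)) i n = 0 := by
        rw [ris]
        apply prod_eq_zero (i := n - 1) (by simp; omega)
        rw [Nat.cast_sub (by omega)]
        push_cast
        ring
      rw [this, mul_zero]
    rw [h4, zero_add] at h3
    have h5 : fal (-((n : ℚ) + 3 / 2)) n = (-1) ^ n * ∏ l ∈ range n, (2 * (n : ℚ) + 3 + l) := by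
      rw [fal, ← neg_prod]
      refine prod_congr rfl fun l _ => ?_
      ring
    have h6 : ∏ l ∈ range n, (-((n : ℚ) + 3 / 2) - l)
        = (-1) ^ n * ∏ l ∈ range n, ((n : ℚ) + 3 / 2 + l) := by
      rw [← neg_prod]
      refine prod_congr rfl fun l _ => ?_
      ring
    rw [h5, h6] at h3
    have h7 : ((-1 : ℚ) ^ n) ≠ 0 := pow_ne_zero _ (by norm_num)
    apply mul_left_cancel₀ h7
    linarith

end Pool.Agent.TH421.OS
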