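import Pool.Agent.TH421.OS.A1

/-!
# The odd part of a polynomial in `x (1 - x)`
-/

set_option autoImplicit false

namespace Pool.Agent.TH421.OS

open PowerSeries Finset

/-- `∏_{l < i} (x + 5/2 + l)` -/
def rp (x : ℚ) (i : ℕ) : ℚ := ∏ l ∈ range i, (x + 5 / 2 + l)

theorem rp_succ (x : ℚ) (i : ℕ) : rp x (i + 1) = rp x i * (x + 5 / 2 + i) := by
  rw [rp, prod_range_succ]; rfl

theorem rp_pos (x : ℚ) (hx : 0 ≤ x) (i : ℕ) : 0 < rp x i := by
  rw [rp]
  apply prod_pos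
  intro l _
  positivity

theorem rp_shift (x : ℚ) (i : ℕ) : rp x (i + 1) = (x + 5 / 2) * rp (x + 1) i := by
  rw [rp, prod_range_succ', rp, mul_comm]
  congr 1
  · push_cast; ring
  · refine prod_congr rfl fun l _ => ?_
    push_cast; ring

theorem fal_shift (x : ℚ) (i : ℕ) : fal (x + 1) (i + 2) = (2 * x + 2) * (2 * x + 1) * fal x i := by
  rw [fal, prod_range_succ', prod_range_succ', fal]
  have : ∏ k ∈ range i, (2 * (x + 1) - ((k + 1 + 1 : ℕ) : ℚ)) = ∏ l ∈ range i, (2 * x - (l : ℚ)) := by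
    refine prod_congr rfl fun l _ => ?_
    push_cast; ring
  rw [this]
  push_cast
  ring

theorem fal_zero_succ (i : ℕ) : fal 0 (i + 1) = 0 := by
  rw [fal, prod_range_succ']
  simp

/-- first coefficients -/
def bet : ℕ → ℚ
  | 0 => 1
  | j + 1 => bet j * ((3 / 2) * (3 * j + 7 / 2) * (3 * j + 5 / 2) / ((2 * j + 2) * (j + 5 / 2)))

/-- the coefficients -/
def bb : ℕ → ℕ → ℚ
  | 0, _ => 0
  | i + 1, j => bet j * (-1) ^ i * (i + 1) * fal j i / rp j i

theorem bb_rec (i j : ℕ) : bb (i + 2) (j + 1)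
    = bb i j - 3 * bb (i + 1) j + 3 * bb (i + 2) j - bb (i + 3) j := by
  have hj : (0 : ℚ) ≤ j := by positivity
  have hi : (0 : ℚ) ≤ i := by positivity
  cases i with
  | zero =>
    simp only [bb, bet]
    have e1 : fal ((j + 1 : ℕ) : ℚ) 1 = 2 * j + 2 := by
      rw [fal_succ]; simp [fal]; ring
    have e2 : rp ((j + 1 : ℕ) : ℚ) 1 = j + 7 / 2 := by
      rw [rp_succ]; simp [rp]; ring
    have e3 : fal (j : ℚ) 1 = 2 * j := by rw [fal_succ]; simp [fal]
    have e4 : rp (j : ℚ) 1 = j + 5 / 2 := by rw [rp_succ]; simp [rp]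
    have e5 : fal (j : ℚ) 2 = 2 * j * (2 * j - 1) := by rw [fal_succ, e3]; simp
    have e6 : rp (j : ℚ) 2 = (j + 5 / 2) * (j + 7 / 2) := by rw [rp_succ, e4]; push_cast; ring
    have e7 : fal (j : ℚ) 0 = 1 := by simp [fal]
    have e8 : rp (j : ℚ) 0 = 1 := by simp [rp]
    rw [e1, e2, e3, e4, e5, e6, e7, e8]
    have h1 : (j : ℚ) + 5 / 2 ≠ 0 := by positivity
    have h2 : (j : ℚ) + 7 / 2 ≠ 0 := by positivity
    have h3 : (2 : ℚ) * j + 2 ≠ 0 := by positivity
    push_cast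
    field_simp
    ring
  | succ i =>
    simp only [bb, bet]
    have e1 : fal ((j + 1 : ℕ) : ℚ) (i + 1 + 1) = (2 * j + 2) * (2 * j + 1) * fal j i := by
      push_cast; exact fal_shift _ _
    have e2 : rp ((j + 1 : ℕ) : ℚ) (i + 1 + 1)
        = rp j i * (j + 5 / 2 + i) * (j + 7 / 2 + i) * (j + 9 / 2 + i) / (j + 5 / 2) := by
      have h := rp_shift (j : ℚ) (i + 1 + 1)
      rw [rp_succ, rp_succ, rp_succ] at h
      rw [eq_div_iff (by positivity)]
      push_cast at h ⊢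
      linear_combination -h
    have f1 : fal (j : ℚ) (i + 1) = fal j i * (2 * j - i) := fal_succ _ _
    have f2 : fal (j : ℚ) (i + 1 + 1) = fal j i * (2 * j - i) * (2 * j - i - 1) := by
      rw [fal_succ, f1]; push_cast; ring
    have f3 : fal (j : ℚ) (i + 1 + 2)
        = fal j i * (2 * j - i) * (2 * j - i - 1) * (2 * j - i - 2) := by
      rw [show i + 1 + 2 = i + 1 + 1 + 1 by ring, fal_succ, f2]; push_cast; ring
    have r1 : rp (j : ℚ) (i + 1) = rp j i * (j + 5 / 2 + i) := rp_succ _ _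
    have r2 : rp (j : ℚ) (i + 1 + 1) = rp j i * (j + 5 / 2 + i) * (j + 7 / 2 + i) := by
      rw [rp_succ, r1]; push_cast; ring
    have r3 : rp (j : ℚ) (i + 1 + 2)
        = rp j i * (j + 5 / 2 + i) * (j + 7 / 2 + i) * (j + 9 / 2 + i) := by
      rw [show i + 1 + 2 = i + 1 + 1 + 1 by ring, rp_succ, r2]; push_cast; ring
    rw [e1, e2, f1, f2, f3, r1, r2, r3]
    have h0 : rp (j : ℚ) i ≠ 0 := (rp_pos _ hj i).ne'
    have h1 : (j : ℚ) + 5 / 2 ≠ 0 := by positivity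
    have h2 : (j : ℚ) + 5 / 2 + i ≠ 0 := by positivity
    have h3 : (2 : ℚ) * j + 2 ≠ 0 := by positivity
    have h4 : (j : ℚ) + 7 / 2 + i ≠ 0 := by positivity
    have h5 : (j : ℚ) + 9 / 2 + i ≠ 0 := by positivity
    push_cast
    field_simp
    ring

end Pool.Agent.TH421.OS
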