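import Pool.Agent.TH421.OS.A2

/-!
# The odd part of a polynomial in `x (1 - x)`, continued
-/

set_option autoImplicit false

namespace Pool.Agent.TH421.OS

open PowerSeries Finset

/-- `1 / (1 - x)` -/
noncomputable def gg : ℚ⟦X⟧ := (1 - X)⁻¹

/-- `1 / (1 - x + x ^ 2)` -/
noncomputable def rr : ℚ⟦X⟧ := (1 - X + X ^ 2)⁻¹

theorem gg_mul : (1 - X) * gg = 1 := by
  rw [gg, PowerSeries.mul_inv_cancel]
  simp

theorem rr_mul : (1 - X + X ^ 2) * rr = 1 := by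
  rw [rr, PowerSeries.mul_inv_cancel]
  simp

/-- `u = x (1 - x)` -/
noncomputable def uu : ℚ⟦X⟧ := X - X ^ 2

/-- `v = - x / (1 - x) ^ 2` -/
noncomputable def vv : ℚ⟦X⟧ := - (X * gg ^ 2)

/-- `S = u ^ 2 / (1 - u) ^ 3` -/
noncomputable def SS : ℚ⟦X⟧ := uu ^ 2 * rr ^ 3

theorem u_rel : uu ^ 2 = SS * (1 - uu) ^ 3 := by
  have h : (1 - uu) * rr = 1 := by
    calc (1 - uu) * rr = (1 - X + X ^ 2) * rr := by rw [uu]; ring
      _ = 1 := rr_mul
  calc uu ^ 2 = uu ^ 2 * 1 ^ 3 := by ring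
    _ = uu ^ 2 * ((1 - uu) * rr) ^ 3 := by rw [h]
    _ = SS * (1 - uu) ^ 3 := by rw [SS]; ring

theorem v_rel : vv ^ 2 = SS * (1 - vv) ^ 3 := by
  have h : 1 - vv = gg ^ 2 * (1 - X + X ^ 2) := by
    rw [vv]
    linear_combination (-(1 - X) * gg - 1) * gg_mul
  have h2 : uu * gg ^ 3 = X * gg ^ 2 := by
    rw [uu]
    linear_combination (X * gg ^ 2) * gg_mul
  calc vv ^ 2 = (X * gg ^ 2) ^ 2 * 1 ^ 3 := by rw [vv]; ring
    _ = (uu * gg ^ 3) ^ 2 * ((1 - X + X ^ 2) * rr) ^ 3 := by rw [h2, rr_mul]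
    _ = SS * (1 - vv) ^ 3 := by rw [SS, h]; ring

/-- `v ^ i - u ^ i` -/
noncomputable def DD (i : ℕ) : ℚ⟦X⟧ := vv ^ i - uu ^ i

theorem DD_rec (i : ℕ) : DD (i + 2) = SS * (DD i - 3 * DD (i + 1) + 3 * DD (i + 2) - DD (i + 3)) := by
  have h1 : vv ^ (i + 2) = SS * (vv ^ i * (1 - vv) ^ 3) := by
    rw [pow_add, v_rel]; ring
  have h2 : uu ^ (i + 2) = SS * (uu ^ i * (1 - uu) ^ 3) := by
    rw [pow_add, u_rel]; ring
  calc DD (i + 2) = SS * (vv ^ i * (1 - vv) ^ 3) - SS * (uu ^ i * (1 - uu) ^ 3) := by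
        rw [DD, h1, h2]
    _ = _ := by
        simp only [DD]
        ring

/-- partial sums -/
noncomputable def AJ (i J : ℕ) : ℚ⟦X⟧ := ∑ j ∈ range J, C (bb i j) * SS ^ j

theorem AJ_rec (i J : ℕ) : AJ (i + 2) (J + 1)
    = SS * (AJ i J - 3 * AJ (i + 1) J + 3 * AJ (i + 2) J - AJ (i + 3) J) := by
  have h0 : bb (i + 2) 0 = 0 := by
    simp only [bb]
    rw [Nat.cast_zero, fal_zero_succ]
    ring
  rw [AJ, sum_range_succ', h0, map_zero, zero_mul, add_zero]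
  have h3 : (3 : ℚ⟦X⟧) = C (3 : ℚ) := by
    rw [map_ofNat]
  rw [AJ, AJ, AJ, AJ, h3, mul_sum, mul_sum, ← sum_sub_distrib, ← sum_add_distrib,
    ← sum_sub_distrib, mul_sum]
  refine sum_congr rfl fun j _ => ?_
  rw [bb_rec, map_sub, map_add, map_sub, map_mul, map_mul]
  ring

theorem AJ_zero (J : ℕ) : AJ 0 J = 0 := by
  rw [AJ]
  exact sum_eq_zero fun j _ => by simp [bb]

theorem X_dvd_uu : (X : ℚ⟦X⟧) ∣ uu := ⟨1 - X, by rw [uu]; ring⟩

theorem X_dvd_vv : (X : ℚ⟦X⟧) ∣ vv := ⟨-gg ^ 2, by rw [vv]; ring⟩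

theorem X_dvd_DD (i : ℕ) : (X : ℚ⟦X⟧) ∣ DD i := by
  cases i with
  | zero => simp [DD]
  | succ i =>
    rw [DD]
    exact dvd_sub (dvd_pow X_dvd_vv (by omega)) (dvd_pow X_dvd_uu (by omega))

theorem X2_dvd_SS : (X : ℚ⟦X⟧) ^ 2 ∣ SS := by
  rw [SS]
  exact Dvd.dvd.mul_right (pow_dvd_pow_of_dvd X_dvd_uu 2) _

theorem EE_dvd (J i : ℕ) : (X : ℚ⟦X⟧) ^ (2 * J + 1) ∣ DD i * AJ 1 J - DD 1 * AJ i J := by
  induction J generalizing i with
  | zero => simp [AJ]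
  | succ J ih =>
    match i with
    | 0 => simp [AJ_zero, DD]
    | 1 => simp
    | i + 2 =>
      have h1 : AJ 1 (J + 1) = AJ 1 J + C (bb 1 J) * SS ^ J := by
        rw [AJ, sum_range_succ]; rfl
      have h2 : DD (i + 2) * AJ 1 (J + 1) - DD 1 * AJ (i + 2) (J + 1)
          = SS * ((DD i * AJ 1 J - DD 1 * AJ i J) - 3 * (DD (i + 1) * AJ 1 J - DD 1 * AJ (i + 1) J)
            + 3 * (DD (i + 2) * AJ 1 J - DD 1 * AJ (i + 2) J)
            - (DD (i + 3) * AJ 1 J - DD 1 * AJ (i + 3) J))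
          + SS ^ (J + 1) * (DD i - 3 * DD (i + 1) + 3 * DD (i + 2) - DD (i + 3)) * C (bb 1 J) := by
        rw [AJ_rec, h1]
        conv_lhs => rw [DD_rec]
        ring
      rw [h2]
      apply dvd_add
      · rw [show 2 * (J + 1) + 1 = 2 + (2 * J + 1) by ring, pow_add]
        apply mul_dvd_mul X2_dvd_SS
        apply dvd_sub _ (ih _)
        apply dvd_add _ (Dvd.dvd.mul_left (ih _) _)
        exact dvd_sub (ih _) (Dvd.dvd.mul_left (ih _) _)
      · rw [show 2 * (J + 1) + 1 = 2 * (J + 1) + 1 by ring, pow_add, pow_mul, pow_one]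
        apply Dvd.dvd.mul_right
        apply mul_dvd_mul (pow_dvd_pow_of_dvd X2_dvd_SS _)
        apply dvd_sub _ (X_dvd_DD _)
        apply dvd_add _ (Dvd.dvd.mul_left (X_dvd_DD _) _)
        exact dvd_sub (X_dvd_DD _) (Dvd.dvd.mul_left (X_dvd_DD _) _)

theorem cc_gg : constantCoeff gg = 1 := by
  have h := congrArg (constantCoeff (R := ℚ)) gg_mul
  rw [map_mul] at h
  simpa using h

theorem cc_rr : constantCoeff rr = 1 := by
  have h := congrArg (constantCoeff (R := ℚ)) rr_mul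
  rw [map_mul] at h
  simpa using h

/-- leading behaviour of the odd part -/
theorem WW_lead (n : ℕ) (h : ℕ → ℚ) (val : ℚ)
    (h0 : ∀ j < n, ∑ i ∈ range (n + 1), h i * bb (i + 1) j = 0)
    (h1 : ∑ i ∈ range (n + 1), h i * bb (i + 1) n = val) :
    ∃ W : ℚ⟦X⟧, ∑ i ∈ range (n + 1), C (h i) * DD (i + 1) = X ^ (2 * n + 1) * W ∧
      constantCoeff W = -2 * val := by
  -- the sum of the partial sums
  have e1 : ∑ i ∈ range (n + 1), C (h i) * AJ (i + 1) (n + 1) = C val * SS ^ n := by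
    have : ∀ i ∈ range (n + 1), C (h i) * AJ (i + 1) (n + 1)
        = ∑ j ∈ range (n + 1), C (h i * bb (i + 1) j) * SS ^ j := by
      intro i _
      rw [AJ, mul_sum]
      refine sum_congr rfl fun j _ => ?_
      rw [map_mul]; ring
    rw [sum_congr rfl this, sum_comm, sum_range_succ]
    have h2 : ∑ j ∈ range n, ∑ i ∈ range (n + 1), C (h i * bb (i + 1) j) * SS ^ j = 0 := by
      refine sum_eq_zero fun j hj => ?_
      rw [← sum_mul, ← map_sum, h0 j (mem_range.1 hj), map_zero, zero_mul]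
    rw [h2, zero_add, ← sum_mul, ← map_sum, h1]
  have e2 : (X : ℚ⟦X⟧) ^ (2 * (n + 1) + 1) ∣ (∑ i ∈ range (n + 1), C (h i) * DD (i + 1))
      * AJ 1 (n + 1) - DD 1 * (C val * SS ^ n) := by
    rw [← e1, sum_mul, mul_sum, ← sum_sub_distrib]
    apply dvd_sum
    intro i _
    have := EE_dvd (n + 1) (i + 1)
    have h3 : C (h i) * DD (i + 1) * AJ 1 (n + 1) - DD 1 * (C (h i) * AJ (i + 1) (n + 1))
        = C (h i) * (DD (i + 1) * AJ 1 (n + 1) - DD 1 * AJ (i + 1) (n + 1)) := by ring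
    rw [h3]
    exact Dvd.dvd.mul_left this _
  obtain ⟨E, hE⟩ := e2
  have hA : constantCoeff (AJ 1 (n + 1)) = 1 := by
    rw [AJ, sum_range_succ', map_add]
    have h4 : constantCoeff SS = 0 := by
      rw [SS, map_mul, map_pow, uu]
      simp
    have h5 : constantCoeff (∑ k ∈ range n, C (bb 1 (k + 1)) * SS ^ (k + 1)) = 0 := by
      rw [map_sum]
      refine sum_eq_zero fun k _ => ?_
      rw [map_mul, map_pow, h4]
      simp
    rw [h5]
    simp [bb, bet, fal, rp]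
  have hA' : AJ 1 (n + 1) * (AJ 1 (n + 1))⁻¹ = 1 := by
    apply PowerSeries.mul_inv_cancel
    rw [hA]; exact one_ne_zero
  have hD : DD 1 = X * (-gg ^ 2 - 1 + X) := by
    rw [DD, pow_one, pow_one, uu, vv]; ring
  have hS : SS ^ n = X ^ (2 * n) * ((1 - X) ^ 2 * rr ^ 3) ^ n := by
    rw [pow_mul, ← mul_pow]
    congr 1
    rw [SS, uu]; ring
  refine ⟨((-gg ^ 2 - 1 + X) * C val * ((1 - X) ^ 2 * rr ^ 3) ^ n + X ^ 2 * E)
    * (AJ 1 (n + 1))⁻¹, ?_, ?_⟩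
  · rw [hD, hS] at hE
    have h6 : (∑ i ∈ range (n + 1), C (h i) * DD (i + 1)) * AJ 1 (n + 1)
        = X ^ (2 * n + 1) * ((-gg ^ 2 - 1 + X) * C val * ((1 - X) ^ 2 * rr ^ 3) ^ n
          + X ^ 2 * E) := by
      rw [show 2 * (n + 1) + 1 = 2 * n + 1 + 2 by ring, pow_add] at hE
      linear_combination hE
    calc ∑ i ∈ range (n + 1), C (h i) * DD (i + 1)
        = (∑ i ∈ range (n + 1), C (h i) * DD (i + 1)) * (AJ 1 (n + 1) * (AJ 1 (n + 1))⁻¹) := by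
          rw [hA', mul_one]
      _ = ((∑ i ∈ range (n + 1), C (h i) * DD (i + 1)) * AJ 1 (n + 1)) * (AJ 1 (n + 1))⁻¹ := by
          ring
      _ = _ := by rw [h6]; ring
  · have h7 : constantCoeff (AJ 1 (n + 1))⁻¹ = 1 := by
      have := congrArg (constantCoeff (R := ℚ)) hA'
      rw [map_mul, hA, one_mul, map_one] at this
      exact this
    rw [map_mul, h7, map_add, map_mul, map_mul, map_mul, map_pow, map_pow, map_mul, map_pow,
      map_pow, map_add, map_sub, map_neg, map_pow, cc_gg, cc_rr]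
    simp
    ring

end Pool.Agent.TH421.OS
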