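import Pool.Agent.TH421.OS.A3
import Pool.Agent.TH421.OS.Ser

/-!
# The kernel vector
-/

set_option autoImplicit false

namespace Pool.Agent.TH421.OS

open PowerSeries Finset

/-- generating function of a column of the array -/
noncomputable def Rb (b : ℕ) : ℚ⟦X⟧ := PowerSeries.mk fun a => c a b

theorem mk_sh1 (f : ℕ → ℕ → ℚ) (b : ℕ) :
    PowerSeries.mk (fun a => sh1 f a b) = X * PowerSeries.mk (fun a => f a b) := by
  ext a
  cases a with
  | zero => rw [coeff_zero_X_mul, coeff_mk]; rfl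
  | succ a => rw [coeff_succ_X_mul, coeff_mk, coeff_mk]; rfl

theorem mk_add (f g : ℕ → ℚ) :
    (PowerSeries.mk (fun a => f a + g a) : ℚ⟦X⟧) = PowerSeries.mk f + PowerSeries.mk g := by
  ext a; simp

theorem mk_sub (f g : ℕ → ℚ) :
    (PowerSeries.mk (fun a => f a - g a) : ℚ⟦X⟧) = PowerSeries.mk f - PowerSeries.mk g := by
  ext a; simp

theorem full_mk (b : ℕ) : Rb b - X * Rb b - PowerSeries.mk (fun a => sh2 c a b)
    - X * PowerSeries.mk (fun a => sh2 c a b) + X * (X * PowerSeries.mk (fun a => sh2 c a b))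
    + X * PowerSeries.mk (fun a => sh2 (sh2 c) a b)
    = PowerSeries.mk (fun a => sh2 dlt a b) - X * PowerSeries.mk (fun a => dlt a b) := by
  have h : (PowerSeries.mk (fun a => c a b - sh1 c a b - sh2 c a b - sh1 (sh2 c) a b
      + sh1 (sh1 (sh2 c)) a b + sh1 (sh2 (sh2 c)) a b) : ℚ⟦X⟧)
      = PowerSeries.mk (fun a => sh2 dlt a b - sh1 dlt a b) := by
    congr 1
    funext a
    exact full' a b
  rw [mk_add, mk_add, mk_sub, mk_sub, mk_sub, mk_sub, mk_sh1, mk_sh1, mk_sh1, mk_sh1, mk_sh1,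
    mk_sh1] at h
  exact h

theorem mk_dlt_zero : (PowerSeries.mk (fun a => dlt a 0) : ℚ⟦X⟧) = 1 := by
  ext a
  rw [coeff_mk, coeff_one]
  cases a with
  | zero => simp [dlt]
  | succ a => simp [dlt]

theorem mk_dlt_succ (b : ℕ) : (PowerSeries.mk (fun a => dlt a (b + 1)) : ℚ⟦X⟧) = 0 := by
  ext a
  rw [coeff_mk, map_zero]
  cases a with
  | zero => simp [dlt]
  | succ a => simp [dlt]

theorem mk_sh2_succ (f : ℕ → ℕ → ℚ) (b : ℕ) :
    (PowerSeries.mk (fun a => sh2 f a (b + 1)) : ℚ⟦X⟧) = PowerSeries.mk (fun a => f a b) := by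
  congr 1

theorem mk_sh2_zero (f : ℕ → ℕ → ℚ) :
    (PowerSeries.mk (fun a => sh2 f a 0) : ℚ⟦X⟧) = 0 := by
  ext a
  rw [coeff_mk, map_zero]
  rfl

theorem Rb_formula : ∀ b : ℕ, (1 - X + X ^ 2) * Rb b
    = (1 - 2 * X) * gg ^ (b + 1) - (1 - X ^ 2) * X ^ b := by
  have h0 : (1 - X + X ^ 2) * Rb 0 = (1 - 2 * X) * gg ^ (0 + 1) - (1 - X ^ 2) * X ^ 0 := by
    have h := full_mk 0
    rw [mk_sh2_zero, mk_sh2_zero, mk_sh2_zero, mk_dlt_zero] at h
    linear_combination (gg * (1 - X + X ^ 2)) * h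
      - (1 - X ^ 2 + (1 - X + X ^ 2) * Rb 0) * gg_mul
  have h1 : (1 - X + X ^ 2) * Rb 1 = (1 - 2 * X) * gg ^ (1 + 1) - (1 - X ^ 2) * X ^ 1 := by
    have h := full_mk 1
    rw [mk_sh2_succ, mk_sh2_succ, mk_sh2_succ, mk_dlt_zero, mk_dlt_succ, mk_sh2_zero] at h
    change Rb 1 - X * Rb 1 - Rb 0 - X * Rb 0 + X * (X * Rb 0) + X * 0 = 1 - X * 0 at h
    have h2 : (1 - X) * ((1 - X + X ^ 2) * Rb 1)
        = (1 - X) * ((1 - 2 * X) * gg ^ (1 + 1) - (1 - X ^ 2) * X ^ 1) := by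
      linear_combination (1 - X + X ^ 2) * h + (1 + X - X ^ 2) * h0
        + (-(1 - 2 * X) * gg + X * (1 - 2 * X)) * gg_mul
    have h3 := congrArg (fun z => gg * z) h2
    beta_reduce at h3
    linear_combination h3 + (((1 - 2 * X) * gg ^ (1 + 1) - (1 - X ^ 2) * X ^ 1)
      - (1 - X + X ^ 2) * Rb 1) * gg_mul
  intro b
  induction b using Nat.twoStepInduction with
  | zero => exact h0
  | one => exact h1
  | more b ih1 ih2 =>
    have h := full_mk (b + 2)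
    rw [mk_sh2_succ c (b + 1), mk_sh2_succ (sh2 c) (b + 1), mk_sh2_succ c b,
      mk_sh2_succ dlt (b + 1), mk_dlt_succ, mk_dlt_succ] at h
    change Rb (b + 2) - X * Rb (b + 2) - Rb (b + 1) - X * Rb (b + 1) + X * (X * Rb (b + 1))
      + X * Rb b = 0 - X * 0 at h
    have h2 : (1 - X) * ((1 - X + X ^ 2) * Rb (b + 2))
        = (1 - X) * ((1 - 2 * X) * gg ^ (b + 2 + 1) - (1 - X ^ 2) * X ^ (b + 2)) := by
      linear_combination (1 - X + X ^ 2) * h + (1 + X - X ^ 2) * ih2 - X * ih1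
        + (-(1 - 2 * X) * gg ^ (b + 2) + X * (1 - 2 * X) * gg ^ (b + 1)) * gg_mul
    have h3 := congrArg (fun z => gg * z) h2
    beta_reduce at h3
    linear_combination h3 + (((1 - 2 * X) * gg ^ (b + 2 + 1) - (1 - X ^ 2) * X ^ (b + 2))
      - (1 - X + X ^ 2) * Rb (b + 2)) * gg_mul

end Pool.Agent.TH421.OS
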