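import Pool.Agent.TH421.OS.A4

/-!
# The kernel vector, continued
-/

set_option autoImplicit false

namespace Pool.Agent.TH421.OS

open Finset

/-- the value at order `2 n + 1` -/
def valn (n : ℕ) : ℚ := bet n * (∏ l ∈ range n, ((n : ℚ) - l)) / rp n n

/-- the top coefficient -/
def elln (n : ℕ) : ℚ := (∏ l ∈ range n, ((n : ℚ) + 3 / 2 + l)) /
  ((n + 1) * ∏ l ∈ range n, (2 * (n : ℚ) + 3 + l))

/-- a polynomial evaluated at a power series -/
noncomputable def ev (w : PowerSeries ℚ) (p : Polynomial ℚ) : PowerSeries ℚ :=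
  Polynomial.eval₂ PowerSeries.C w p

theorem sum_Rb (n : ℕ) (K : Polynomial ℚ) (hK : K.natDegree < n) :
    (1 - PowerSeries.X + PowerSeries.X ^ 2) * ∑ b ∈ range n, PowerSeries.C (K.coeff b) * Rb b
      = (1 - 2 * PowerSeries.X) * gg * ev gg K - (1 - PowerSeries.X ^ 2) * ev PowerSeries.X K := by
  rw [ev, ev, Polynomial.eval₂_eq_sum_range' _ hK, Polynomial.eval₂_eq_sum_range' _ hK, mul_sum,
    mul_sum, mul_sum, ← sum_sub_distrib]
  refine sum_congr rfl fun b _ => ?_
  linear_combination (PowerSeries.C (K.coeff b)) * Rb_formula b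

theorem ev_gg (κ : Polynomial ℚ) :
    ev gg (κ.comp (Polynomial.X - Polynomial.X ^ 2)) = ev vv κ := by
  rw [ev, Polynomial.eval₂_comp, ev]
  congr 1
  rw [Polynomial.eval₂_sub, Polynomial.eval₂_X, Polynomial.eval₂_pow, Polynomial.eval₂_X, vv]
  linear_combination (-gg) * gg_mul

theorem ev_X (κ : Polynomial ℚ) :
    ev PowerSeries.X (κ.comp (Polynomial.X - Polynomial.X ^ 2)) = ev uu κ := by
  rw [ev, Polynomial.eval₂_comp, ev]
  congr 1
  rw [Polynomial.eval₂_sub, Polynomial.eval₂_X, Polynomial.eval₂_pow, Polynomial.eval₂_X, uu]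

theorem key_id (n : ℕ) (κ : Polynomial ℚ)
    (hK : (κ.comp (Polynomial.X - Polynomial.X ^ 2)).natDegree < n) :
    (2 - PowerSeries.X) * gg * ((1 - PowerSeries.X + PowerSeries.X ^ 2)
      * ∑ b ∈ range n, PowerSeries.C ((κ.comp (Polynomial.X - Polynomial.X ^ 2)).coeff b) * Rb b)
      = ev vv ((Polynomial.X - Polynomial.C (-2)) * κ)
        - ev uu ((Polynomial.X - Polynomial.C (-2)) * κ) := by
  rw [sum_Rb n _ hK, ev_gg, ev_X]
  have h1 : ∀ w, ev w ((Polynomial.X - Polynomial.C (-2)) * κ) = (w + 2) * ev w κ := by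
    intro w
    rw [ev, Polynomial.eval₂_mul, Polynomial.eval₂_sub, Polynomial.eval₂_X, Polynomial.eval₂_C, ev]
    congr 1
    rw [map_neg, map_ofNat, sub_neg_eq_add]
  rw [h1, h1]
  have h2 : vv + 2 = (2 - PowerSeries.X) * (1 - 2 * PowerSeries.X) * gg ^ 2 := by
    rw [vv]
    linear_combination (-2 * ((1 - PowerSeries.X) * gg + 1)) * gg_mul
  have h3 : uu + 2 = (2 - PowerSeries.X) * gg * (1 - PowerSeries.X ^ 2) := by
    rw [uu]
    linear_combination (-(2 - PowerSeries.X) * (1 + PowerSeries.X)) * gg_mul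
  rw [h2, h3]
  ring

theorem kernel (n : ℕ) : ∃ k : ℕ → ℚ,
    (∀ a ≤ 2 * n, ∑ b ∈ range (2 * n + 1), k b * c a b = 0) ∧
    (∑ b ∈ range (2 * n + 1), k b * c (2 * n + 1) b = - valn n) ∧
    (∑ b ∈ range (2 * n + 1), k b * (-1) ^ b = 1) ∧
    k (2 * n) = elln n := by
  obtain ⟨a, ha1, ha2, ha3⟩ := exists_a n
  -- the coefficients of `G`
  set h : ℕ → ℚ := fun i => (-1) ^ i * a i / (i + 1) with hh
  set G1 : Polynomial ℚ := ∑ i ∈ range (n + 1), Polynomial.C (h i) * Polynomial.X ^ (i + 1) with hG1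
  have hroot : (G1 - Polynomial.C (G1.eval (-2))).eval (-2) = 0 := by
    rw [Polynomial.eval_sub, Polynomial.eval_C, sub_self]
  obtain ⟨κ, hκ⟩ := Polynomial.dvd_iff_isRoot.2 hroot
  have hdegG1 : G1.natDegree ≤ n + 1 := by
    rw [hG1]
    refine Polynomial.natDegree_sum_le_of_forall_le _ _ fun i hi => ?_
    refine (Polynomial.natDegree_C_mul_X_pow_le _ _).trans ?_
    have := mem_range.1 hi
    omega
  have hdegκ : κ.natDegree ≤ n := by
    by_cases h0 : κ = 0
    · rw [h0]; simp
    · have h1 : (G1 - Polynomial.C (G1.eval (-2))).natDegree ≤ n + 1 := by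
        refine (Polynomial.natDegree_sub_le _ _).trans ?_
        rw [max_le_iff]
        exact ⟨hdegG1, by simp⟩
      rw [hκ, Polynomial.natDegree_mul (Polynomial.X_sub_C_ne_zero _) h0,
        Polynomial.natDegree_X_sub_C] at h1
      omega
  have hlead : κ.coeff n = h n := by
    have h1 := congrArg (fun p => Polynomial.coeff p (n + 1)) hκ
    beta_reduce at h1
    rw [sub_mul, Polynomial.coeff_sub, Polynomial.coeff_sub, Polynomial.coeff_X_mul,
      Polynomial.coeff_C_mul, Polynomial.coeff_C_succ,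
      Polynomial.coeff_eq_zero_of_natDegree_lt (lt_of_le_of_lt hdegκ (Nat.lt_succ_self n)),
      hG1, Polynomial.finsetSum_coeff] at h1
    rw [sum_eq_single n] at h1
    · rw [Polynomial.coeff_C_mul, Polynomial.coeff_X_pow, if_pos rfl] at h1
      linarith
    · intro i _ hi
      rw [Polynomial.coeff_C_mul, Polynomial.coeff_X_pow, if_neg (by omega), mul_zero]
    · intro h2; exact absurd (mem_range.2 (Nat.lt_succ_self n)) h2
  have hval : κ.eval (-2) = 1 := by
    have h1 := congrArg (fun p => (Polynomial.derivative p).eval (-2)) hκ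
    beta_reduce at h1
    rw [Polynomial.derivative_sub, Polynomial.derivative_C, sub_zero, Polynomial.derivative_mul,
      Polynomial.derivative_sub, Polynomial.derivative_X, Polynomial.derivative_C, sub_zero,
      one_mul, Polynomial.eval_add, Polynomial.eval_mul, Polynomial.eval_sub, Polynomial.eval_X,
      Polynomial.eval_C, sub_self, zero_mul, add_zero, hG1, Polynomial.derivative_sum,
      Polynomial.eval_finsetSum] at h1
    rw [← h1, ← ha2]
    refine sum_congr rfl fun i _ => ?_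
    rw [Polynomial.derivative_C_mul_X_pow, Polynomial.eval_mul, Polynomial.eval_C,
      Polynomial.eval_pow, Polynomial.eval_X, hh, Nat.add_sub_cancel]
    have hi : (i : ℚ) + 1 ≠ 0 := by positivity
    have h2 : ((-1 : ℚ)) ^ i * (-2) ^ i = 2 ^ i := by
      rw [← mul_pow]; norm_num
    push_cast
    field_simp
    rw [mul_assoc, mul_comm (a i), ← mul_assoc, h2]
    ring
  -- the polynomial `K`
  set p : Polynomial ℚ := Polynomial.X - Polynomial.X ^ 2 with hp
  have hpdeg : p.natDegree ≤ 2 := by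
    rw [hp]; compute_degree
  set K : Polynomial ℚ := κ.comp p with hKdef
  have hKsum : K = ∑ i ∈ range (n + 1), Polynomial.C (κ.coeff i) * p ^ i := by
    rw [hKdef, Polynomial.comp, Polynomial.eval₂_eq_sum_range' _ (Nat.lt_succ_of_le hdegκ)]
  have hKdeg : K.natDegree < 2 * n + 1 := by
    rw [hKsum]
    refine Nat.lt_succ_of_le (Polynomial.natDegree_sum_le_of_forall_le _ _ fun i hi => ?_)
    have := mem_range.1 hi
    refine (Polynomial.natDegree_C_mul_le _ _).trans ?_
    refine Polynomial.natDegree_pow_le.trans ?_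
    calc i * p.natDegree ≤ n * 2 := Nat.mul_le_mul (by omega) hpdeg
      _ = 2 * n := by ring
  have hKlead : K.coeff (2 * n) = (-1) ^ n * h n := by
    rw [hKsum, Polynomial.finsetSum_coeff, sum_eq_single n]
    · rw [Polynomial.coeff_C_mul, hlead, mul_comm 2 n,
        Polynomial.coeff_pow_of_natDegree_le hpdeg, hp, Polynomial.coeff_sub,
        Polynomial.coeff_X_pow, Polynomial.coeff_X]
      norm_num
      ring
    · intro i hi hne
      have := mem_range.1 hi
      rw [Polynomial.coeff_C_mul, Polynomial.coeff_eq_zero_of_natDegree_lt (p := p ^ i), mul_zero]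
      refine lt_of_le_of_lt Polynomial.natDegree_pow_le ?_
      calc i * p.natDegree ≤ i * 2 := Nat.mul_le_mul le_rfl hpdeg
        _ < 2 * n := by omega
    · intro h2; exact absurd (mem_range.2 (Nat.lt_succ_self n)) h2
  have hKeval : K.eval (-1) = 1 := by
    have h1 : p.eval (-1) = -2 := by
      rw [hp, Polynomial.eval_sub, Polynomial.eval_pow, Polynomial.eval_X]
      norm_num
    rw [hKdef, Polynomial.eval_comp, h1, hval]
  -- the sums
  have hsum : ∀ j : ℕ, ∑ i ∈ range (n + 1), h i * bb (i + 1) j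
      = bet j * (∏ l ∈ range n, ((j : ℚ) - l)) / rp j n := by
    intro j
    have hj : (0 : ℚ) ≤ j := by positivity
    rw [ha1 j, mul_sum, sum_div]
    refine sum_congr rfl fun i hi => ?_
    have hi' := mem_range.1 hi
    have h1 : rp (j : ℚ) n = rp j i * ris j i n := by
      rw [rp, rp, ris, Finset.prod_range_mul_prod_Ico _ (by omega)]
    have h2 : rp (j : ℚ) i ≠ 0 := (rp_pos _ hj i).ne'
    have h3 : ris (j : ℚ) i n ≠ 0 := by
      intro h4
      rw [h4, mul_zero] at h1
      exact (rp_pos _ hj n).ne' h1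
    rw [h1, hh]
    simp only [bb]
    have h5 : (i : ℚ) + 1 ≠ 0 := by positivity
    have h6 : ((-1 : ℚ)) ^ i * (-1) ^ i = 1 := by
      rw [← mul_pow]; norm_num
    field_simp
    linear_combination (a i * bet j * fal j i) * h6
  have hW := WW_lead n h (valn n) (by
    intro j hj
    rw [hsum]
    have : ∏ l ∈ range n, ((j : ℚ) - l) = 0 :=
      prod_eq_zero (mem_range.2 hj) (sub_self _)
    rw [this]
    ring) (by
    rw [hsum]; rfl)
  obtain ⟨W, hW1, hW2⟩ := hW
  have hkey := key_id (2 * n + 1) κ hKdeg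
  rw [← hκ] at hkey
  have hev : ∀ w, ev w (G1 - Polynomial.C (G1.eval (-2)))
      = ∑ i ∈ range (n + 1), PowerSeries.C (h i) * w ^ (i + 1) - PowerSeries.C (G1.eval (-2)) := by
    intro w
    rw [ev, Polynomial.eval₂_sub, Polynomial.eval₂_C, hG1, Polynomial.eval₂_finsetSum]
    congr 1
    refine sum_congr rfl fun i _ => ?_
    rw [Polynomial.eval₂_mul, Polynomial.eval₂_C, Polynomial.eval₂_X_pow]
  rw [hev, hev, sub_sub_sub_cancel_right, ← sum_sub_distrib] at hkey
  have hDD : ∑ i ∈ range (n + 1), (PowerSeries.C (h i) * vv ^ (i + 1)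
      - PowerSeries.C (h i) * uu ^ (i + 1))
      = ∑ i ∈ range (n + 1), PowerSeries.C (h i) * DD (i + 1) := by
    refine sum_congr rfl fun i _ => ?_
    rw [DD]; ring
  rw [hDD, hW1] at hkey
  set SS' := ∑ b ∈ range (2 * n + 1), PowerSeries.C (K.coeff b) * Rb b with hSS
  set U : PowerSeries ℚ := (2 - PowerSeries.X) * gg * (1 - PowerSeries.X + PowerSeries.X ^ 2)
    with hU
  have hU0 : PowerSeries.constantCoeff U = 2 := by
    rw [hU, map_mul, map_mul, cc_gg, map_sub, map_add, map_sub, map_one, map_pow,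
      PowerSeries.constantCoeff_X, map_ofNat]
    norm_num
  have hUU : U * U⁻¹ = 1 := by
    apply PowerSeries.mul_inv_cancel
    rw [hU0]; norm_num
  have hUi : PowerSeries.constantCoeff U⁻¹ = 1 / 2 := by
    have h1 := congrArg (PowerSeries.constantCoeff (R := ℚ)) hUU
    rw [map_mul, hU0, map_one] at h1
    linarith
  have hS : SS' = PowerSeries.X ^ (2 * n + 1) * (W * U⁻¹) := by
    calc SS' = SS' * (U * U⁻¹) := by rw [hUU, mul_one]
      _ = ((2 - PowerSeries.X) * gg * ((1 - PowerSeries.X + PowerSeries.X ^ 2) * SS')) * U⁻¹ := by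
        rw [hU]; ring
      _ = _ := by rw [hkey]; ring
  have hcoef : ∀ a, PowerSeries.coeff a SS' = ∑ b ∈ range (2 * n + 1), K.coeff b * c a b := by
    intro a
    rw [hSS, map_sum]
    refine sum_congr rfl fun b _ => ?_
    rw [PowerSeries.coeff_C_mul, Rb, PowerSeries.coeff_mk]
  refine ⟨fun b => K.coeff b, ?_, ?_, ?_, ?_⟩
  · intro a ha
    rw [← hcoef a, hS, PowerSeries.coeff_X_pow_mul', if_neg (by omega)]
  · rw [← hcoef, hS, PowerSeries.coeff_X_pow_mul', if_pos le_rfl, Nat.sub_self,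
      PowerSeries.coeff_zero_eq_constantCoeff_apply, map_mul, hW2, hUi]
    ring
  · rw [← Polynomial.eval_eq_sum_range' hKdeg, hKeval]
  · beta_reduce
    rw [hKlead, hh, elln]
    beta_reduce
    have h1 : ∏ l ∈ range n, (2 * (n : ℚ) + 3 + l) ≠ 0 := by
      rw [prod_ne_zero_iff]
      intro l _
      positivity
    have h2 : (n : ℚ) + 1 ≠ 0 := by positivity
    have h6 : ((-1 : ℚ)) ^ n * (-1) ^ n = 1 := by
      rw [← mul_pow]; norm_num
    rw [← ha3]
    field_simp
    linear_combination (a n) * h6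

end Pool.Agent.TH421.OS
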