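import Pool.Agent.TH421.OS.PfForm

/-!
# Bordered matrices
-/

set_option autoImplicit false

namespace Pool.Agent.TH421.OS

open Pool.Agent.Helper929 Matrix

variable {R : Type*} [CommRing R] {S : Type*} [CommRing S]

/-- bordered matrix -/
def bord {n : ℕ} (M : Matrix (Fin n) (Fin n) R) (v : Fin n → R) :
    Matrix (Fin (n + 1)) (Fin (n + 1)) R :=
  Matrix.of fun i j => Fin.lastCases (motive := fun _ => R)
    (Fin.lastCases (motive := fun _ => R) 0 (fun j => - v j) j)
    (fun i => Fin.lastCases (motive := fun _ => R) (v i) (fun j => M i j) j) i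

theorem bord_cc {n : ℕ} (M : Matrix (Fin n) (Fin n) R) (v : Fin n → R) (i j : Fin n) :
    bord M v i.castSucc j.castSucc = M i j := by simp [bord]

theorem bord_cl {n : ℕ} (M : Matrix (Fin n) (Fin n) R) (v : Fin n → R) (i : Fin n) :
    bord M v i.castSucc (Fin.last n) = v i := by simp [bord]

theorem bord_lc {n : ℕ} (M : Matrix (Fin n) (Fin n) R) (v : Fin n → R) (j : Fin n) :
    bord M v (Fin.last n) j.castSucc = - v j := by simp [bord]

theorem bord_ll {n : ℕ} (M : Matrix (Fin n) (Fin n) R) (v : Fin n → R) :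
    bord M v (Fin.last n) (Fin.last n) = 0 := by simp [bord]

theorem bord_skew {n : ℕ} (M : Matrix (Fin n) (Fin n) R) (v : Fin n → R)
    (hM : ∀ i j, M i j = - M j i) (i j : Fin (n + 1)) : bord M v i j = - bord M v j i := by
  refine Fin.lastCases ?_ (fun i => ?_) i
  · refine Fin.lastCases ?_ (fun j => ?_) j
    · rw [bord_ll]; ring
    · rw [bord_lc, bord_cl]
  · refine Fin.lastCases ?_ (fun j => ?_) j
    · rw [bord_lc, bord_cl]; ring
    · rw [bord_cc, bord_cc, hM]

theorem bord_map {n : ℕ} (φ : R →+* S) (M : Matrix (Fin n) (Fin n) R) (v : Fin n → R) :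
    (bord M v).map φ = bord (M.map φ) (fun i => φ (v i)) := by
  ext i j
  rw [Matrix.map_apply]
  refine Fin.lastCases ?_ (fun i => ?_) i
  · refine Fin.lastCases ?_ (fun j => ?_) j
    · rw [bord_ll, bord_ll, map_zero]
    · rw [bord_lc, bord_lc, map_neg]
  · refine Fin.lastCases ?_ (fun j => ?_) j
    · rw [bord_cl, bord_cl]
    · rw [bord_cc, bord_cc]; rfl

/-- padded matrix -/
def pad {n : ℕ} (P : Matrix (Fin n) (Fin n) R) : Matrix (Fin (n + 1)) (Fin (n + 1)) R :=
  Matrix.of fun i j => Fin.lastCases (motive := fun _ => R)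
    (Fin.lastCases (motive := fun _ => R) 1 (fun _ => 0) j)
    (fun i => Fin.lastCases (motive := fun _ => R) 0 (fun j => P i j) j) i

theorem pad_cc {n : ℕ} (P : Matrix (Fin n) (Fin n) R) (i j : Fin n) :
    pad P i.castSucc j.castSucc = P i j := by simp [pad]

theorem pad_cl {n : ℕ} (P : Matrix (Fin n) (Fin n) R) (i : Fin n) :
    pad P i.castSucc (Fin.last n) = 0 := by simp [pad]

theorem pad_lc {n : ℕ} (P : Matrix (Fin n) (Fin n) R) (j : Fin n) :
    pad P (Fin.last n) j.castSucc = 0 := by simp [pad]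

theorem pad_ll {n : ℕ} (P : Matrix (Fin n) (Fin n) R) :
    pad P (Fin.last n) (Fin.last n) = 1 := by simp [pad]

theorem pad_det {n : ℕ} (P : Matrix (Fin n) (Fin n) R) : (pad P).det = P.det := by
  rw [Matrix.det_succ_row _ (Fin.last n), Fin.sum_univ_castSucc]
  rw [Finset.sum_eq_zero, zero_add, pad_ll]
  · have h : (pad P).submatrix (Fin.last n).succAbove (Fin.last n).succAbove = P := by
      ext i j
      rw [Matrix.submatrix_apply, Fin.succAbove_last_apply, Fin.succAbove_last_apply, pad_cc]
    rw [h, ← two_mul, pow_mul]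
    simp
  · intro j _
    rw [pad_lc]
    ring

theorem pad_bord {n : ℕ} (P M : Matrix (Fin n) (Fin n) R) (v : Fin n → R) :
    pad P * bord M v * (pad P)ᵀ = bord (P * M * Pᵀ) (fun a => ∑ i, P a i * v i) := by
  have e1 : ∀ (i j : Fin (n + 1)), (pad P * bord M v * (pad P)ᵀ) i j
      = ∑ l, (∑ k, pad P i k * bord M v k l) * pad P j l := by
    intro i j
    rw [Matrix.mul_apply]
    simp_rw [Matrix.mul_apply, Matrix.transpose_apply]
  ext i j
  rw [e1]
  refine Fin.lastCases ?_ (fun i => ?_) i
  · refine Fin.lastCases ?_ (fun j => ?_) j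
    · simp [Fin.sum_univ_castSucc, bord_ll, pad_lc, pad_ll]
    · simp only [Fin.sum_univ_castSucc, bord_ll, pad_lc, pad_ll, pad_cc, pad_cl, bord_lc, bord_cc,
        bord_cl]
      simp only [zero_mul, Finset.sum_const_zero, one_mul, zero_add, mul_zero, add_zero]
      rw [← Finset.sum_neg_distrib]
      refine Finset.sum_congr rfl fun k _ => ?_
      ring
  · refine Fin.lastCases ?_ (fun j => ?_) j
    · simp only [Fin.sum_univ_castSucc, bord_ll, pad_lc, pad_ll, pad_cc, pad_cl, bord_lc, bord_cc,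
        bord_cl]
      simp
    · simp only [Fin.sum_univ_castSucc, pad_cc, pad_cl, bord_lc, bord_cc, bord_cl]
      simp only [zero_mul, mul_zero, add_zero]
      rw [Matrix.mul_apply]
      simp_rw [Matrix.mul_apply, Matrix.transpose_apply]

end Pool.Agent.TH421.OS
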