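import Pool.Agent.TH421.OS.A5
import Pool.Agent.TH421.OS.Bord

/-!
# Recursions for the Pfaffians
-/

set_option autoImplicit false

namespace Pool.Agent.TH421.OS

open Finset Matrix Pool.Agent.Helper929

/-- rotation by two steps -/
def sg (m : ℕ) : Equiv.Perm (Fin (m + 2)) := ((finRotate (m + 2)) * (finRotate (m + 2)))⁻¹

theorem sg_ss (m : ℕ) (k : Fin m) : sg m k.succ.succ = k.castSucc.castSucc := by
  rw [sg, Equiv.Perm.inv_eq_iff_eq, Equiv.Perm.mul_apply]
  have h1 : finRotate (m + 2) k.castSucc.castSucc = k.castSucc.succ := by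
    apply Fin.ext
    rw [coe_finRotate_of_ne_last]
    · simp
    · exact Fin.castSucc_ne_last _
  rw [h1]
  have h2 : k.castSucc.succ = k.succ.castSucc := Fin.succ_castSucc _
  rw [h2]
  apply Fin.ext
  rw [coe_finRotate_of_ne_last]
  · simp
  · exact Fin.castSucc_ne_last _

theorem sg_zero (m : ℕ) : sg m 0 = (Fin.last m).castSucc := by
  rw [sg, Equiv.Perm.inv_eq_iff_eq, Equiv.Perm.mul_apply]
  have h1 : finRotate (m + 2) (Fin.last m).castSucc = Fin.last (m + 1) := by
    apply Fin.ext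
    rw [coe_finRotate_of_ne_last]
    · simp
    · exact Fin.castSucc_ne_last _
  rw [h1, finRotate_last]

theorem sg_one (m : ℕ) : sg m 1 = Fin.last (m + 1) := by
  rw [sg, Equiv.Perm.inv_eq_iff_eq, Equiv.Perm.mul_apply, finRotate_last]
  apply Fin.ext
  rw [coe_finRotate_of_ne_last]
  · simp
  · intro h
    have := congrArg Fin.val h
    simp at this

theorem tail {m : ℕ} (A : Matrix (Fin (m + 2)) (Fin (m + 2)) ℚ) (hA : ∀ i j, A i j = - A j i)
    (h0 : ∀ j : Fin m, A (Fin.last m).castSucc j.castSucc.castSucc = 0) :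
    pf (m + 2) A = A (Fin.last m).castSucc (Fin.last (m + 1))
      * pf m (A.submatrix (fun i => i.castSucc.castSucc) (fun i => i.castSucc.castSucc)) := by
  have h := pf_gram A hA ((sg m).permMatrix ℚ)
  have h1 : (sg m).permMatrix ℚ * A * ((sg m).permMatrix ℚ)ᵀ = A.submatrix (sg m) (sg m) := by
    rw [Matrix.transpose_permMatrix, Equiv.Perm.permMatrix, Equiv.Perm.permMatrix,
      PEquiv.toMatrix_toPEquiv_mul, PEquiv.mul_toMatrix_toPEquiv]
    rfl
  have h2 : ((sg m).permMatrix ℚ).det = 1 := by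
    rw [Matrix.det_permutation, sg, Equiv.Perm.sign_inv, Equiv.Perm.sign_mul, Int.units_mul_self]
    simp
  rw [h1, h2, one_mul] at h
  rw [← h]
  have h3 : pf (m + 2) (A.submatrix (sg m) (sg m)) = ∑ j : Fin (m + 1), (-1) ^ (j : ℕ) *
      (A.submatrix (sg m) (sg m)) 0 j.succ *
      pf m ((A.submatrix (sg m) (sg m)).submatrix (fun k => (j.succAbove k).succ)
        (fun k => (j.succAbove k).succ)) := rfl
  rw [h3, Fin.sum_univ_succ, Finset.sum_eq_zero, add_zero]
  · rw [Matrix.submatrix_apply, sg_zero]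
    have e1 : sg m (0 : Fin (m + 1)).succ = Fin.last (m + 1) := sg_one m
    rw [e1]
    simp only [Fin.val_zero, pow_zero, one_mul]
    congr 1
    congr 1
    ext i j
    rw [Matrix.submatrix_apply, Matrix.submatrix_apply, Matrix.submatrix_apply]
    simp only [Fin.zero_succAbove]
    rw [sg_ss, sg_ss]
  · intro k _
    rw [Matrix.submatrix_apply, sg_zero, sg_ss, h0]
    ring

/-- the matrix of the array -/
noncomputable def Cm (N : ℕ) : Matrix (Fin N) (Fin N) ℚ := Matrix.of fun i j => c i j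

theorem Cm_skew (N : ℕ) (i j : Fin N) : Cm N i j = - Cm N j i := by
  simp only [Cm, Matrix.of_apply]
  exact c_skew _ _

/-- substitution of the kernel vector -/
noncomputable def Tm (n : ℕ) (k : ℕ → ℚ) : Matrix (Fin (n + 1)) (Fin (n + 1)) ℚ :=
  Matrix.of fun i j => Fin.lastCases (motive := fun _ => ℚ) (k j)
    (fun i => if i.castSucc = j then 1 else 0) i

theorem Tm_l (n : ℕ) (k : ℕ → ℚ) (j : Fin (n + 1)) : Tm n k (Fin.last n) j = k j := by
  simp [Tm]

theorem Tm_c (n : ℕ) (k : ℕ → ℚ) (i : Fin n) (j : Fin (n + 1)) :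
    Tm n k i.castSucc j = if i.castSucc = j then 1 else 0 := by
  simp [Tm]

theorem Tm_det (n : ℕ) (k : ℕ → ℚ) : (Tm n k).det = k n := by
  rw [Matrix.det_of_isLowerTriangular (Tm n k) (by
    intro i j hij
    refine Fin.lastCases ?_ (fun i => ?_) i (motive := fun i => i < j → Tm n k i j = 0) hij
    · intro h
      exact absurd h (not_lt.2 (Fin.le_last j))
    · intro h
      rw [Tm_c, if_neg (ne_of_lt h)]), Fin.prod_univ_castSucc]
  simp [Tm_c, Tm_l]

theorem pf_kernel (n : ℕ) (k : ℕ → ℚ)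
    (hk : ∀ a ≤ 2 * n, ∑ b ∈ range (2 * n + 1), k b * c a b = 0) (v : Fin (2 * n + 1) → ℚ) :
    k (2 * n) * pf (2 * n + 2) (bord (Cm (2 * n + 1)) v)
      = (∑ j : Fin (2 * n + 1), k j * v j) * pf (2 * n) (Cm (2 * n)) := by
  have h := pf_gram (bord (Cm (2 * n + 1)) v) (bord_skew _ _ (Cm_skew _)) (pad (Tm (2 * n) k))
  rw [pad_det, Tm_det, pad_bord] at h
  rw [← h]
  have hk' : ∀ b : Fin (2 * n + 1), ∑ a : Fin (2 * n + 1), k a * c a b = 0 := by
    intro b
    have h1 := hk b (by have := b.2; omega)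
    rw [Finset.sum_range] at h1
    rw [← neg_eq_zero, ← h1, ← Finset.sum_neg_distrib]
    refine sum_congr rfl fun a _ => ?_
    rw [c_skew a b]; ring
  have e1 : ∀ i j, (Tm (2 * n) k * Cm (2 * n + 1) * (Tm (2 * n) k)ᵀ) i j
      = ∑ b, (∑ a, Tm (2 * n) k i a * Cm (2 * n + 1) a b) * Tm (2 * n) k j b := by
    intro i j
    rw [Matrix.mul_apply]
    simp_rw [Matrix.mul_apply, Matrix.transpose_apply]
  rw [tail]
  · rw [bord_cl]
    congr 1
    · refine sum_congr rfl fun j _ => ?_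
      rw [Tm_l]
    · congr 1
      ext i j
      rw [Matrix.submatrix_apply, bord_cc, e1]
      simp only [Tm_c, ite_mul, one_mul, zero_mul, mul_ite, mul_one, mul_zero,
        Finset.sum_ite_eq, Finset.mem_univ, if_true]
      rfl
  · apply bord_skew
    intro i j
    have h3 : (Tm (2 * n) k * Cm (2 * n + 1) * (Tm (2 * n) k)ᵀ)ᵀ
        = - (Tm (2 * n) k * Cm (2 * n + 1) * (Tm (2 * n) k)ᵀ) := by
      rw [Matrix.transpose_mul, Matrix.transpose_mul, Matrix.transpose_transpose]
      have : (Cm (2 * n + 1))ᵀ = - Cm (2 * n + 1) := by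
        ext1 i j
        rw [Matrix.transpose_apply, Matrix.neg_apply, Cm_skew]
      rw [this, Matrix.neg_mul, Matrix.mul_neg, Matrix.mul_assoc]
    have h2 := congrFun (congrFun h3 j) i
    rw [Matrix.transpose_apply, Matrix.neg_apply] at h2
    exact h2
  · intro j
    rw [bord_cc, e1]
    refine sum_eq_zero fun b _ => ?_
    have : ∑ a, Tm (2 * n) k (Fin.last (2 * n)) a * Cm (2 * n + 1) a b = 0 := by
      simp only [Tm_l, Cm, Matrix.of_apply]
      exact hk' b
    rw [this, zero_mul]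

/-- even Pfaffians -/
noncomputable def Pn (n : ℕ) : ℚ := pf (2 * n) (Cm (2 * n))

/-- odd Pfaffians -/
noncomputable def Qn (n : ℕ) : ℚ := pf (2 * n + 2) (bord (Cm (2 * n + 1)) (fun i => (-1) ^ (i : ℕ)))

theorem Cm_bord (N : ℕ) : Cm (N + 1) = bord (Cm N) (fun i => c i N) := by
  ext i j
  refine Fin.lastCases ?_ (fun i => ?_) i
  · refine Fin.lastCases ?_ (fun j => ?_) j
    · rw [bord_ll, Cm, Matrix.of_apply]
      have := c_skew (Fin.last N : ℕ) (Fin.last N : ℕ)
      linarith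
    · rw [bord_lc, Cm, Matrix.of_apply, c_skew]
      simp
  · refine Fin.lastCases ?_ (fun j => ?_) j
    · rw [bord_cl, Cm, Matrix.of_apply]
      simp
    · rw [bord_cc]; rfl

theorem Qn_rec (n : ℕ) : elln n * Qn n = Pn n := by
  obtain ⟨k, h1, h2, h3, h4⟩ := kernel n
  have h := pf_kernel n k h1 (fun i => (-1) ^ (i : ℕ))
  rw [h4] at h
  rw [Finset.sum_range] at h3
  rw [h3, one_mul] at h
  exact h

theorem Pn_rec (n : ℕ) : elln n * Pn (n + 1) = valn n * Pn n := by
  obtain ⟨k, h1, h2, h3, h4⟩ := kernel n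
  have h := pf_kernel n k h1 (fun i => c i (2 * n + 1 : ℕ))
  rw [h4, ← Cm_bord] at h
  rw [Finset.sum_range] at h2
  have h5 : ∑ j : Fin (2 * n + 1), k j * c j (2 * n + 1 : ℕ) = valn n := by
    rw [← neg_inj, ← h2, ← Finset.sum_neg_distrib]
    refine sum_congr rfl fun j _ => ?_
    rw [c_skew (2 * n + 1)]; ring
  rw [h5] at h
  exact h

end Pool.Agent.TH421.OS
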