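import Mathlib

/-!
# Binomial transform and the anti-invariance of an array
-/

set_option autoImplicit false

namespace Pool.Agent.TH421.OS

open Finset

/-- alternating binomial transform -/
def bt : (ℕ → ℚ) → ℕ → ℚ
  | u, 0 => u 0
  | u, (n + 1) => bt u n - bt (fun k => u (k + 1)) n

theorem bt_add (u w : ℕ → ℚ) (n : ℕ) : bt (fun k => u k + w k) n = bt u n + bt w n := by
  induction n generalizing u w with
  | zero => simp [bt]
  | succ n ih =>
    simp only [bt]
    rw [ih, ih (fun k => u (k + 1)) (fun k => w (k + 1))]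
    ring

theorem bt_smul (r : ℚ) (u : ℕ → ℚ) (n : ℕ) : bt (fun k => r * u k) n = r * bt u n := by
  induction n generalizing u with
  | zero => simp [bt]
  | succ n ih =>
    simp only [bt]
    rw [ih, ih (fun k => u (k + 1))]
    ring

theorem bt_sub (u w : ℕ → ℚ) (n : ℕ) : bt (fun k => u k - w k) n = bt u n - bt w n := by
  have h := bt_add u (fun k => (-1) * w k) n
  rw [bt_smul] at h
  have h2 : (fun k => u k - w k) = (fun k => u k + (-1) * w k) := by
    funext k; ring
  rw [h2, h]; ring

theorem bt_succ (u : ℕ → ℚ) (n : ℕ) :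
    bt (fun k => u (k + 1)) n = bt u n - bt u (n + 1) := by
  simp only [bt]; ring

theorem bt_zero_fun (n : ℕ) : bt (fun _ => 0) n = 0 := by
  induction n with
  | zero => simp [bt]
  | succ n ih => simp only [bt]; rw [ih]; ring

theorem bt_eq_sum (u : ℕ → ℚ) (n N : ℕ) (h : n < N) :
    bt u n = ∑ k ∈ range N, (-1) ^ k * (n.choose k : ℚ) * u k := by
  induction n generalizing u N with
  | zero =>
    obtain ⟨M, rfl⟩ : ∃ M, N = M + 1 := ⟨N - 1, by omega⟩
    rw [sum_range_succ']
    simp [bt]
  | succ n ih =>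
    obtain ⟨M, rfl⟩ : ∃ M, N = M + 1 := ⟨N - 1, by omega⟩
    simp only [bt]
    rw [ih u (M + 1) (by omega), ih (fun k => u (k + 1)) M (by omega), sum_range_succ',
      sum_range_succ' _ M]
    simp only [Nat.choose_zero_right, Nat.choose_succ_succ, Nat.succ_eq_add_one, Nat.cast_add]
    have : ∀ k ∈ range M, (-1 : ℚ) ^ (k + 1) * ((n.choose k : ℚ) + (n.choose (k + 1) : ℚ)) * u (k + 1)
        = (-1) ^ (k + 1) * (n.choose (k + 1) : ℚ) * u (k + 1)
          - (-1) ^ k * (n.choose k : ℚ) * u (k + 1) := by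
      intro k _; ring
    rw [sum_congr rfl this, sum_sub_distrib]
    ring

theorem bt_pow (r : ℚ) (n : ℕ) : bt (fun k => r ^ k) n = (1 - r) ^ n := by
  induction n with
  | zero => simp [bt]
  | succ n ih =>
    simp only [bt]
    have : (fun k => r ^ (k + 1)) = (fun k => r * r ^ k) := by
      funext k; ring
    rw [this, bt_smul, ih]
    ring

/-- data of the array: the recurrence and the boundary values -/
structure Arr (c : ℕ → ℕ → ℚ) : Prop where
  rec' : ∀ a b, c (a + 2) (b + 2) - c (a + 1) (b + 2) - c (a + 2) (b + 1) - c (a + 1) (b + 1)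
    + c a (b + 1) + c (a + 1) b = 0
  row0 : ∀ b, c 0 (b + 1) = 1
  row0' : c 0 0 = 0
  row1 : ∀ b, c 1 (b + 2) = b + 2
  row1' : c 1 1 = 0
  skew : ∀ a b, c a b = - c b a

theorem Arr.unique {c d : ℕ → ℕ → ℚ} (hc : Arr c) (hd : Arr d) : ∀ a b, c a b = d a b := by
  have key : ∀ s a b, a + b = s → c a b = d a b := by
    intro s
    induction s using Nat.strong_induction_on with
    | _ s ih =>
      intro a b hab
      match a, b with
      | 0, 0 => rw [hc.row0', hd.row0']
      | 0, (b + 1) => rw [hc.row0, hd.row0]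
      | (a + 1), 0 => rw [hc.skew, hd.skew, hc.row0, hd.row0]
      | 1, 1 => rw [hc.row1', hd.row1']
      | 1, (b + 2) => rw [hc.row1, hd.row1]
      | (a + 2), 1 => rw [hc.skew, hd.skew, hc.row1, hd.row1]
      | (a + 2), (b + 2) =>
        have h1 := hc.rec' a b
        have h2 := hd.rec' a b
        have e1 := ih (a + 1 + (b + 2)) (by omega) (a + 1) (b + 2) rfl
        have e2 := ih (a + 2 + (b + 1)) (by omega) (a + 2) (b + 1) rfl
        have e3 := ih (a + 1 + (b + 1)) (by omega) (a + 1) (b + 1) rfl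
        have e4 := ih (a + (b + 1)) (by omega) a (b + 1) rfl
        have e5 := ih (a + 1 + b) (by omega) (a + 1) b rfl
        linear_combination h1 - h2 + e1 + e2 + e3 - e4 - e5
  intro a b
  exact key _ a b rfl

/-- the transformed array -/
def tr (c : ℕ → ℕ → ℚ) (m n : ℕ) : ℚ := bt (fun a => bt (fun b => c a b) n) m

theorem tr_shift1 (c : ℕ → ℕ → ℚ) (m n : ℕ) :
    tr (fun a b => c (a + 1) b) m n = tr c m n - tr c (m + 1) n := by
  unfold tr
  exact bt_succ (fun a => bt (fun b => c a b) n) m

theorem tr_shift2 (c : ℕ → ℕ → ℚ) (m n : ℕ) :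
    tr (fun a b => c a (b + 1)) m n = tr c m n - tr c m (n + 1) := by
  unfold tr
  have : (fun a => bt (fun b => c a (b + 1)) n)
      = (fun a => bt (fun b => c a b) n - bt (fun b => c a b) (n + 1)) := by
    funext a
    exact bt_succ (fun b => c a b) n
  rw [this, bt_sub]

theorem tr_add (c d : ℕ → ℕ → ℚ) (m n : ℕ) :
    tr (fun a b => c a b + d a b) m n = tr c m n + tr d m n := by
  unfold tr
  have : (fun a => bt (fun b => c a b + d a b) n)
      = (fun a => bt (fun b => c a b) n + bt (fun b => d a b) n) := by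
    funext a; exact bt_add _ _ _
  rw [this, bt_add]

theorem tr_sub (c d : ℕ → ℕ → ℚ) (m n : ℕ) :
    tr (fun a b => c a b - d a b) m n = tr c m n - tr d m n := by
  unfold tr
  have : (fun a => bt (fun b => c a b - d a b) n)
      = (fun a => bt (fun b => c a b) n - bt (fun b => d a b) n) := by
    funext a; exact bt_sub _ _ _
  rw [this, bt_sub]

theorem tr_zero (m n : ℕ) : tr (fun _ _ => 0) m n = 0 := by
  unfold tr
  simp only [bt_zero_fun]

theorem bt_swap (c : ℕ → ℕ → ℚ) (m n : ℕ) :
    bt (fun a => bt (fun b => c a b) n) m = bt (fun b => bt (fun a => c a b) m) n := by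
  rw [bt_eq_sum _ m (m + 1) (by omega), bt_eq_sum _ n (n + 1) (by omega)]
  simp_rw [bt_eq_sum _ m (m + 1) (by omega), bt_eq_sum _ n (n + 1) (by omega), mul_sum]
  rw [sum_comm]
  refine sum_congr rfl fun b _ => sum_congr rfl fun a _ => ?_
  ring

theorem Arr.tr_skew {c : ℕ → ℕ → ℚ} (hc : Arr c) (m n : ℕ) : tr c m n = - tr c n m := by
  unfold tr
  rw [bt_swap]
  have : (fun b => bt (fun a => c a b) m) = (fun b => (-1) * bt (fun a => c b a) m) := by
    funext b
    rw [← bt_smul]
    congr 1
    funext a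
    rw [hc.skew]; ring
  rw [this, bt_smul]
  ring

theorem bt_const_one (n : ℕ) : bt (fun _ => 1) (n + 1) = 0 := by
  have := bt_pow 1 (n + 1)
  simpa using this

theorem bt_row0 {c : ℕ → ℕ → ℚ} (hc : Arr c) (n : ℕ) : bt (fun b => c 0 b) n = - c 0 n := by
  cases n with
  | zero => simp [bt, hc.row0']
  | succ n =>
    rw [hc.row0]
    induction n with
    | zero => simp [bt, hc.row0, hc.row0']
    | succ n ih =>
      rw [bt, ih]
      have : (fun k => c 0 (k + 1)) = (fun _ => 1) := by
        funext k; exact hc.row0 k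
      rw [this, bt_const_one]; ring

theorem bt_id (n : ℕ) : bt (fun k => (k : ℚ)) (n + 2) = 0 := by
  induction n with
  | zero => simp [bt]; norm_num
  | succ n ih =>
    rw [bt, ih]
    have : (fun k : ℕ => ((k + 1 : ℕ) : ℚ)) = (fun k : ℕ => (k : ℚ) + (1 : ℚ)) := by
      funext k; push_cast; ring
    rw [this, bt_add, ih, bt_const_one]; ring

theorem bt_row1 {c : ℕ → ℕ → ℚ} (hc : Arr c) (n : ℕ) :
    bt (fun b => c 1 b) (n + 2) = n + 1 := by
  have h10 : c 1 0 = -1 := by rw [hc.skew, hc.row0]
  -- shifted sequence: c 1 (k+2) = k + 2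
  have s2 : (fun k => c 1 (k + 1 + 1)) = (fun k : ℕ => (k : ℚ) + 2 * 1) := by
    funext k
    have := hc.row1 k
    rw [show k + 1 + 1 = k + 2 from rfl, this]; ring
  have b1 : ∀ n, bt (fun k => c 1 (k + 1)) (n + 1) = -2 + (if n = 0 then 0 else 1) := by
    intro n
    induction n with
    | zero =>
      have := hc.row1 0
      simp [bt, hc.row1', this]
    | succ n ih =>
      rw [bt, ih]
      rw [show (fun k => c 1 (k + 1 + 1)) = _ from s2, bt_add, bt_smul, bt_const_one]
      cases n with
      | zero => simp [bt]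
      | succ n => rw [bt_id]; simp
  induction n with
  | zero =>
    have := hc.row1 0
    simp [bt, hc.row1', this, h10]
    norm_num
  | succ n ih =>
    rw [bt, ih, b1]
    simp
    ring

theorem Arr.tr_arr {c : ℕ → ℕ → ℚ} (hc : Arr c) : Arr (fun m n => - tr c m n) where
  rec' := by
    intro m n
    have h : tr (fun a b => c (a + 2) (b + 2) - c (a + 1) (b + 2) - c (a + 2) (b + 1)
        - c (a + 1) (b + 1) + c a (b + 1) + c (a + 1) b) m n = 0 := by
      have : (fun a b => c (a + 2) (b + 2) - c (a + 1) (b + 2) - c (a + 2) (b + 1)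
        - c (a + 1) (b + 1) + c a (b + 1) + c (a + 1) b) = (fun _ _ => (0 : ℚ)) := by
        funext a b; exact hc.rec' a b
      rw [this]; exact tr_zero m n
    rw [tr_add, tr_add, tr_sub, tr_sub, tr_sub] at h
    have s10 : ∀ d : ℕ → ℕ → ℚ, ∀ m n, tr (fun a b => d (a + 1) b) m n = tr d m n - tr d (m + 1) n :=
      tr_shift1
    have s01 : ∀ d : ℕ → ℕ → ℚ, ∀ m n, tr (fun a b => d a (b + 1)) m n = tr d m n - tr d m (n + 1) :=
      tr_shift2
    have e01 : ∀ m n, tr (fun a b => c a (b + 1)) m n = tr c m n - tr c m (n + 1) := s01 c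
    have e10 : ∀ m n, tr (fun a b => c (a + 1) b) m n = tr c m n - tr c (m + 1) n := s10 c
    have e11 : ∀ m n, tr (fun a b => c (a + 1) (b + 1)) m n =
        (tr c m n - tr c (m + 1) n) - (tr c m (n + 1) - tr c (m + 1) (n + 1)) := by
      intro m n
      rw [s01 (fun a b => c (a + 1) b), e10, e10]
    have e12 : ∀ m n, tr (fun a b => c (a + 1) (b + 2)) m n =
        (tr (fun a b => c (a + 1) (b + 1)) m n - tr (fun a b => c (a + 1) (b + 1)) m (n + 1)) := by
      intro m n
      exact s01 (fun a b => c (a + 1) (b + 1)) m n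
    have e21 : ∀ m n, tr (fun a b => c (a + 2) (b + 1)) m n =
        (tr (fun a b => c (a + 1) (b + 1)) m n - tr (fun a b => c (a + 1) (b + 1)) (m + 1) n) := by
      intro m n
      exact s10 (fun a b => c (a + 1) (b + 1)) m n
    have e22 : ∀ m n, tr (fun a b => c (a + 2) (b + 2)) m n =
        (tr (fun a b => c (a + 1) (b + 2)) m n - tr (fun a b => c (a + 1) (b + 2)) (m + 1) n) := by
      intro m n
      exact s10 (fun a b => c (a + 1) (b + 2)) m n
    rw [e22, e12, e12, e21, e11, e11, e11, e11, e01, e10] at h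
    simp only [add_assoc] at h ⊢
    norm_num at h ⊢
    linear_combination -h
  row0 := by
    intro b
    show - bt (fun a => bt (fun b => c a b) (b + 1)) 0 = 1
    simp only [bt]
    have := bt_row0 hc (b + 1)
    simp only [bt] at this
    rw [this, hc.row0]; ring
  row0' := by
    show - bt (fun a => bt (fun b => c a b) 0) 0 = 0
    simp [bt, hc.row0']
  row1 := by
    intro b
    show - bt (fun a => bt (fun b => c a b) (b + 2)) 1 = b + 2
    rw [bt]
    show - (bt (fun b => c 0 b) (b + 2) - bt (fun b => c (0 + 1) b) (b + 2)) = b + 2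
    rw [bt_row0 hc, zero_add, bt_row1 hc, hc.row0]
    ring
  row1' := by
    show - bt (fun a => bt (fun b => c a b) 1) 1 = 0
    have h10 : c 1 0 = -1 := by rw [hc.skew, hc.row0]
    have h01 : c 0 1 = 1 := hc.row0 0
    simp [bt, hc.row0', hc.row1', h10, h01]
  skew := by
    intro a b
    rw [hc.tr_skew]

/-- the array changes sign under the binomial transform -/
theorem Arr.tr_eq {c : ℕ → ℕ → ℚ} (hc : Arr c) (m n : ℕ) : tr c m n = - c m n := by
  have := hc.tr_arr.unique hc m n
  linarith

end Pool.Agent.TH421.OS
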