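import Pool.Agent.TH421.OS.BT

/-!
# The generating function of the array
-/

set_option autoImplicit false

namespace Pool.Agent.TH421.OS

open Finset MvPowerSeries

/-- the power series `(y - x) / ((1 - x y) (1 - x - y))`, with `x = X 0` and `y = X 1` -/
noncomputable def genC : MvPowerSeries (Fin 2) ℚ :=
  (X 1 - X 0) * ((1 - X 0 * X 1) * (1 - X 0 - X 1))⁻¹

/-- the coefficient of `x ^ a * y ^ b` -/
noncomputable def c (a b : ℕ) : ℚ :=
  coeff (Finsupp.single 0 a + Finsupp.single 1 b) genC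

theorem genC_mul : genC * ((1 - X 0 * X 1) * (1 - X 0 - X 1)) = X 1 - X 0 := by
  unfold genC
  rw [mul_assoc, MvPowerSeries.inv_mul_cancel, mul_one]
  simp

/-- exponent vector -/
noncomputable def ex (a b : ℕ) : Fin 2 →₀ ℕ := Finsupp.single 0 a + Finsupp.single 1 b

theorem ex_zero (a b : ℕ) : ex a b 0 = a := by simp [ex]

theorem ex_one (a b : ℕ) : ex a b 1 = b := by simp [ex]

theorem ex_le (i j a b : ℕ) : ex i j ≤ ex a b ↔ i ≤ a ∧ j ≤ b := by
  constructor
  · intro h
    have h0 := h 0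
    have h1 := h 1
    rw [ex_zero, ex_zero] at h0
    rw [ex_one, ex_one] at h1
    exact ⟨h0, h1⟩
  · rintro ⟨h0, h1⟩ t
    fin_cases t
    · change ex i j 0 ≤ ex a b 0
      rw [ex_zero, ex_zero]; exact h0
    · change ex i j 1 ≤ ex a b 1
      rw [ex_one, ex_one]; exact h1

theorem ex_sub (i j a b : ℕ) : ex a b - ex i j = ex (a - i) (b - j) := by
  ext t
  fin_cases t
  · change (ex a b - ex i j) 0 = ex (a - i) (b - j) 0
    rw [Finsupp.tsub_apply, ex_zero, ex_zero, ex_zero]
  · change (ex a b - ex i j) 1 = ex (a - i) (b - j) 1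
    rw [Finsupp.tsub_apply, ex_one, ex_one, ex_one]

theorem ex_inj (i j a b : ℕ) : ex i j = ex a b ↔ i = a ∧ j = b := by
  constructor
  · intro h
    constructor
    · rw [← ex_zero i j, h, ex_zero]
    · rw [← ex_one i j, h, ex_one]
  · rintro ⟨rfl, rfl⟩; rfl

/-- shifted array -/
noncomputable def s (i j a b : ℕ) : ℚ := if i ≤ a ∧ j ≤ b then c (a - i) (b - j) else 0

theorem coeff_shift (i j a b : ℕ) :
    coeff (ex a b) (genC * monomial (ex i j) 1) = s i j a b := by
  rw [coeff_mul_monomial, s, ex_sub]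
  simp only [ex_le, mul_one]
  rfl

theorem X0_eq : (X 0 : MvPowerSeries (Fin 2) ℚ) = monomial (ex 1 0) 1 := by
  rw [X_def]; congr 1; simp [ex]

theorem X1_eq : (X 1 : MvPowerSeries (Fin 2) ℚ) = monomial (ex 0 1) 1 := by
  rw [X_def]; congr 1; simp [ex]

theorem ex_add (i j a b : ℕ) : ex i j + ex a b = ex (i + a) (j + b) := by
  ext t
  fin_cases t
  · change (ex i j + ex a b) 0 = ex (i + a) (j + b) 0
    rw [Finsupp.add_apply, ex_zero, ex_zero, ex_zero]
  · change (ex i j + ex a b) 1 = ex (i + a) (j + b) 1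
    rw [Finsupp.add_apply, ex_one, ex_one, ex_one]

theorem full (a b : ℕ) : s 0 0 a b - s 1 0 a b - s 0 1 a b - s 1 1 a b + s 2 1 a b + s 1 2 a b
    = (if a = 0 ∧ b = 1 then 1 else 0) - (if a = 1 ∧ b = 0 then 1 else 0) := by
  have h := congrArg (coeff (ex a b)) genC_mul
  have e : (1 - X 0 * X 1) * (1 - X 0 - X 1) =
      (monomial (ex 0 0) 1 - monomial (ex 1 0) 1 - monomial (ex 0 1) 1 - monomial (ex 1 1) 1
        + monomial (ex 2 1) 1 + monomial (ex 1 2) 1 : MvPowerSeries (Fin 2) ℚ) := by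
    have h00 : (monomial (ex 0 0) 1 : MvPowerSeries (Fin 2) ℚ) = 1 := by
      simp [ex]
    have h11 : (monomial (ex 1 1) 1 : MvPowerSeries (Fin 2) ℚ) = X 0 * X 1 := by
      rw [X0_eq, X1_eq, monomial_mul_monomial, ex_add, mul_one]
    have h21 : (monomial (ex 2 1) 1 : MvPowerSeries (Fin 2) ℚ) = X 0 * X 0 * X 1 := by
      rw [X0_eq, X1_eq, monomial_mul_monomial, monomial_mul_monomial, ex_add, ex_add, mul_one,
        mul_one]
    have h12 : (monomial (ex 1 2) 1 : MvPowerSeries (Fin 2) ℚ) = X 0 * X 1 * X 1 := by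
      rw [X0_eq, X1_eq, monomial_mul_monomial, monomial_mul_monomial, ex_add, ex_add, mul_one,
        mul_one]
    rw [h00, h11, h21, h12, ← X0_eq, ← X1_eq]
    ring
  rw [e] at h
  simp only [mul_add, mul_sub, map_add, map_sub, coeff_shift] at h
  rw [h, X0_eq, X1_eq, coeff_monomial, coeff_monomial]
  simp only [ex_inj]

theorem c_skew_aux : ∀ t a b, a + b = t → c a b = - c b a := by
  intro t
  induction t using Nat.strong_induction_on with
  | _ t ih =>
    intro a b hab
    have h1 := full a b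
    have h2 := full b a
    have hs : ∀ i j, 0 < i + j → s i j a b = - s j i b a := by
      intro i j hij
      unfold s
      by_cases hc : i ≤ a ∧ j ≤ b
      · rw [if_pos hc, if_pos ⟨hc.2, hc.1⟩]
        exact ih ((a - i) + (b - j)) (by omega) _ _ rfl
      · rw [if_neg hc, if_neg (fun h => hc ⟨h.2, h.1⟩)]; ring
    have h00 : s 0 0 a b = c a b := by simp [s]
    have h00' : s 0 0 b a = c b a := by simp [s]
    rw [h00, hs 1 0 (by omega), hs 0 1 (by omega), hs 1 1 (by omega), hs 2 1 (by omega),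
      hs 1 2 (by omega)] at h1
    rw [h00'] at h2
    have hd : ((if a = 0 ∧ b = 1 then 1 else 0) - (if a = 1 ∧ b = 0 then 1 else 0) : ℚ)
        = - ((if b = 0 ∧ a = 1 then 1 else 0) - (if b = 1 ∧ a = 0 then 1 else 0)) := by
      by_cases p : a = 0 ∧ b = 1
      · have q : ¬ (a = 1 ∧ b = 0) := by omega
        rw [if_pos p, if_neg q, if_neg (by omega), if_pos ⟨p.2, p.1⟩]; ring
      · by_cases q : a = 1 ∧ b = 0
        · rw [if_neg p, if_pos q, if_pos ⟨q.2, q.1⟩, if_neg (by omega)]; ring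
        · rw [if_neg p, if_neg q, if_neg (by omega), if_neg (by omega)]; ring
    rw [hd, ← h2] at h1
    linarith

theorem c_skew (a b : ℕ) : c a b = - c b a := c_skew_aux _ a b rfl

theorem c_00 : c 0 0 = 0 := by
  have := c_skew 0 0
  linarith

theorem c_01 : c 0 1 = 1 := by
  have h := full 0 1
  simp [s] at h
  rw [c_00] at h
  linarith

theorem c_0 (b : ℕ) : c 0 (b + 1) = 1 := by
  induction b with
  | zero => exact c_01
  | succ b ih =>
    have h := full 0 (b + 1 + 1)
    simp [s] at h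
    linarith

theorem c_10 : c 1 0 = -1 := by rw [c_skew, c_01]

theorem c_11 : c 1 1 = 0 := by
  have := c_skew 1 1
  linarith

theorem c_1 (b : ℕ) : c 1 (b + 2) = b + 2 := by
  induction b with
  | zero =>
    have h := full 1 2
    simp [s] at h
    rw [c_11, c_00, c_01, c_0 1] at h
    norm_num
    linarith
  | succ b ih =>
    have h := full 1 (b + 1 + 2)
    have e1 : b + 1 + 2 - 1 = b + 2 := by omega
    have e2 : b + 1 + 2 - 2 = b + 1 := by omega
    simp [s, e1, e2] at h
    rw [ih, c_0 b, show b + 1 + 2 = (b + 2) + 1 from rfl, c_0 (b + 2), c_0 (b + 1)] at h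
    push_cast
    rw [show b + 1 + 2 = (b + 2) + 1 from rfl]
    linarith

theorem c_arr : Arr c where
  rec' := by
    intro a b
    have h := full (a + 2) (b + 2)
    simp [s] at h
    linear_combination h
  row0 := c_0
  row0' := c_00
  row1 := c_1
  row1' := c_11
  skew := c_skew

end Pool.Agent.TH421.OS
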