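import Pool.Agent.TH421.OS.Odd
import Pool.Agent.Helper929.Pfaffian

/-!
# Interpolation
-/

set_option autoImplicit false

namespace Pool.Agent.TH421.OS

open Polynomial

variable {R : Type*} [CommRing R] {S : Type*} [CommRing S] {F : Type*} [Field F]

/-- product over pairs -/
def PP (f : R → R → R) : (n : ℕ) → (Fin n → R) → R
  | 0, _ => 1
  | n + 1, x => (∏ k : Fin n, f (x 0) (x k.succ)) * PP f n (fun k => x k.succ)

theorem PP_map (φ : R →+* S) (f : R → R → R) (g : S → S → S)
    (h : ∀ a b, φ (f a b) = g (φ a) (φ b)) (n : ℕ) (x : Fin n → R) :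
    φ (PP f n x) = PP g n (fun i => φ (x i)) := by
  induction n with
  | zero => simp [PP]
  | succ n ih => simp only [PP, map_mul, map_prod, h, ih]

theorem PP_remove (f : R → R → R) (ε : R) (hf : ∀ a b, f a b = ε * f b a) :
    ∀ (n : ℕ) (x : Fin (n + 1) → R) (j : Fin (n + 1)),
    PP f (n + 1) x = ε ^ (j : ℕ) * (∏ k, f (x j) (x (j.succAbove k)))
      * PP f n (fun k => x (j.succAbove k)) := by
  intro n
  induction n with
  | zero =>
    intro x j
    fin_cases j
    simp [PP]
  | succ n ih =>
    intro x j
    refine Fin.cases ?_ (fun j => ?_) j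
    · simp [PP]
    · rw [PP, ih (fun k => x k.succ) j]
      conv_rhs => rw [PP]
      rw [Fin.prod_univ_succAbove _ j, Fin.prod_univ_succ]
      simp only [Fin.succ_succAbove_zero, Fin.succ_succAbove_succ, Fin.val_succ]
      rw [hf (x 0) (x j.succ), pow_succ]
      ring

/-- the two-point function -/
def Cx (a b : F) : F := (b - a) / ((1 - a * b) * (1 - a - b))

/-- `b - a` -/
def fV (a b : R) : R := b - a

/-- `(1 - a b) (1 - a - b)` -/
def fW (a b : R) : R := (1 - a * b) * (1 - a - b)

theorem fV_symm (a b : R) : fV a b = (-1) * fV b a := by simp [fV]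

theorem fW_symm (a b : R) : fW a b = 1 * fW b a := by simp only [fW]; ring

/-- genericity -/
structure Gen {n : ℕ} (x : Fin n → F) : Prop where
  inj : Function.Injective x
  h1 : ∀ i j, 1 - x i * x j ≠ 0
  h2 : ∀ i j, 1 - x i - x j ≠ 0
  h3 : ∀ i, 1 + x i ≠ 0
  h4 : ∀ i, 2 - x i ≠ 0

theorem Gen.comp {n m : ℕ} {x : Fin n → F} (h : Gen x) (g : Fin m → Fin n)
    (hg : Function.Injective g) : Gen (fun i => x (g i)) where
  inj := h.inj.comp hg
  h1 := fun _ _ => h.h1 _ _
  h2 := fun _ _ => h.h2 _ _
  h3 := fun _ => h.h3 _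
  h4 := fun _ => h.h4 _

theorem interp_step {n : ℕ} (y : Fin (n + 1) → F) (hy : Gen y) (P : F[X])
    (hP : P.natDegree ≤ n + 1) (q z : Fin (n + 1) → F) (qs zs : F)
    (hq : ∀ k, z k * PP fV n (fun l => y (k.succAbove l)) = PP fW n (fun l => y (k.succAbove l))
      * (∏ l, (1 + y (k.succAbove l))) * q k)
    (hqs : zs * PP fV (n + 1) y = PP fW (n + 1) y * (∏ l, (1 + y l)) * qs)
    (hP1 : ∀ k, P.eval (1 - y k) = (1 + (1 - y k)) * (1 + y k)
      * (∏ l, (1 - (1 - y k) * y (k.succAbove l)))
      * (∏ l, (1 - y (k.succAbove l) * y k)) * z k)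
    (hP2 : P.eval (-1) = (∏ l, (2 - y l)) * zs)
    (hS : ∀ l, (∑ k : Fin (n + 1), (-1) ^ (k : ℕ) * Cx (y l) (y k) * q k) + qs / (1 + y l) = 0)
    (a : F) (ha1 : ∀ k, 1 - a * y k ≠ 0) (ha2 : ∀ k, 1 - a - y k ≠ 0) (ha3 : 1 + a ≠ 0) :
    P.eval a * ((∏ k, (y k - a)) * PP fV (n + 1) y)
      = ((∏ k, fW a (y k)) * PP fW (n + 1) y) * ((1 + a) * ∏ k, (1 + y k))
        * ((∑ k : Fin (n + 1), (-1) ^ (k : ℕ) * Cx a (y k) * q k) + qs / (1 + a)) := by
  set LP : F[X] := P * (∏ k, (C (y k) - X)) * C (PP fV (n + 1) y) with hLP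
  set RP : F[X] := C (PP fW (n + 1) y * ∏ k, (1 + y k)) *
    ((1 + X) * (∑ k : Fin (n + 1), C ((-1) ^ (k : ℕ) * q k) * ((C (y k) - X)
      * ∏ l : Fin n, ((1 - X * C (y (k.succAbove l))) * (1 - X - C (y (k.succAbove l))))))
      + C qs * ∏ k : Fin (n + 1), ((1 - X * C (y k)) * (1 - X - C (y k)))) with hRP
  -- evaluation of `RP` at good points
  have hRPe : ∀ a : F, (∀ k, 1 - a * y k ≠ 0) → (∀ k, 1 - a - y k ≠ 0) → 1 + a ≠ 0 →
      RP.eval a = ((∏ k, fW a (y k)) * PP fW (n + 1) y) * ((1 + a) * ∏ k, (1 + y k))
        * ((∑ k : Fin (n + 1), (-1) ^ (k : ℕ) * Cx a (y k) * q k) + qs / (1 + a)) := by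
    intro a ha1 ha2 ha3
    rw [hRP]
    simp only [eval_mul, eval_add, eval_sub, eval_finsetSum, eval_prod, eval_C, eval_X, eval_one]
    have e1 : ∀ k : Fin (n + 1), ((-1) ^ (k : ℕ) * q k * ((y k - a) * ∏ l : Fin n,
        ((1 - a * y (k.succAbove l)) * (1 - a - y (k.succAbove l)))))
        = (∏ k, fW a (y k)) * ((-1) ^ (k : ℕ) * Cx a (y k) * q k) := by
      intro k
      rw [Fin.prod_univ_succAbove (fun k => fW a (y k)) k]
      have h1 := ha1 k
      have h2 := ha2 k
      have h5 : fW a (y k) * Cx a (y k) = y k - a := by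
        simp only [fW, Cx]
        field_simp
      have h6 : ∏ l : Fin n, ((1 - a * y (k.succAbove l)) * (1 - a - y (k.succAbove l)))
        = ∏ l : Fin n, fW a (y (k.succAbove l)) := rfl
      rw [h6, ← h5]
      ring
    simp only [e1]
    rw [← Finset.mul_sum]
    have e2 : ∏ k : Fin (n + 1), ((1 - a * y k) * (1 - a - y k)) = ∏ k, fW a (y k) := rfl
    rw [e2]
    field_simp
  -- degrees
  have hLd : LP.natDegree ≤ 2 * (n + 1) := by
    rw [hLP]
    refine (natDegree_mul_C_le _ _).trans ?_
    refine natDegree_mul_le.trans ?_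
    have : (∏ k : Fin (n + 1), (C (y k) - X)).natDegree ≤ n + 1 := by
      refine (natDegree_prod_le _ _).trans ?_
      refine (Finset.sum_le_sum (fun i _ => (show (C (y i) - X : F[X]).natDegree ≤ 1 by
        compute_degree))).trans ?_
      simp
    omega
  have hRd : RP.natDegree ≤ 2 * (n + 1) := by
    rw [hRP]
    refine (natDegree_C_mul_le _ _).trans ?_
    refine (natDegree_add_le _ _).trans ?_
    have hd : ∀ b : F, ((1 - X * C b) * (1 - X - C b) : F[X]).natDegree ≤ 2 := by
      intro b
      compute_degree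
    rw [max_le_iff]
    constructor
    · refine natDegree_mul_le.trans ?_
      have h1 : (1 + X : F[X]).natDegree ≤ 1 := by compute_degree
      have h2 : (∑ k : Fin (n + 1), C ((-1) ^ (k : ℕ) * q k) * ((C (y k) - X)
          * ∏ l : Fin n, ((1 - X * C (y (k.succAbove l))) * (1 - X - C (y (k.succAbove l)))))
          : F[X]).natDegree ≤ 2 * n + 1 := by
        refine natDegree_sum_le_of_forall_le _ _ (fun k _ => ?_)
        refine (natDegree_C_mul_le _ _).trans ?_
        refine natDegree_mul_le.trans ?_
        have h3 : (C (y k) - X : F[X]).natDegree ≤ 1 := by compute_degree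
        have h4 : (∏ l : Fin n, ((1 - X * C (y (k.succAbove l)))
            * (1 - X - C (y (k.succAbove l)))) : F[X]).natDegree ≤ 2 * n := by
          refine (natDegree_prod_le _ _).trans ?_
          refine (Finset.sum_le_sum (fun i _ => hd _)).trans ?_
          simp [mul_comm]
        omega
      omega
    · refine (natDegree_C_mul_le _ _).trans ?_
      refine (natDegree_prod_le _ _).trans ?_
      refine (Finset.sum_le_sum (fun i _ => hd _)).trans ?_
      simp [mul_comm]
  -- nodes
  let v : Option (Fin (n + 1) ⊕ Fin (n + 1)) → F := fun i =>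
    match i with
    | none => -1
    | some (Sum.inl k) => y k
    | some (Sum.inr k) => 1 - y k
  have hv : Set.InjOn v (Finset.univ : Finset (Option (Fin (n + 1) ⊕ Fin (n + 1)))) := by
    intro i _ j _ hij
    match i, j with
    | none, none => rfl
    | none, some (Sum.inl k) =>
      exact absurd (show 1 + y k = 0 by simp only [v] at hij; rw [← hij]; ring) (hy.h3 k)
    | none, some (Sum.inr k) =>
      exact absurd (show 2 - y k = 0 by simp only [v] at hij; linear_combination -hij) (hy.h4 k)
    | some (Sum.inl k), none =>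
      exact absurd (show 1 + y k = 0 by simp only [v] at hij; rw [hij]; ring) (hy.h3 k)
    | some (Sum.inr k), none =>
      exact absurd (show 2 - y k = 0 by simp only [v] at hij; linear_combination hij) (hy.h4 k)
    | some (Sum.inl k), some (Sum.inl l) =>
      simp only [v] at hij
      rw [hy.inj hij]
    | some (Sum.inl k), some (Sum.inr l) =>
      exact absurd (show 1 - y k - y l = 0 by simp only [v] at hij; linear_combination -hij)
        (hy.h2 k l)
    | some (Sum.inr k), some (Sum.inl l) =>
      exact absurd (show 1 - y k - y l = 0 by simp only [v] at hij; linear_combination hij)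
        (hy.h2 k l)
    | some (Sum.inr k), some (Sum.inr l) =>
      simp only [v] at hij
      rw [hy.inj (show y k = y l by linear_combination -hij)]
  have hcard : (Finset.univ : Finset (Option (Fin (n + 1) ⊕ Fin (n + 1)))).card
      = 2 * (n + 1) + 1 := by
    simp
    ring
  have hLR : LP = RP := by
    refine Polynomial.eq_of_degrees_lt_of_eval_index_eq _ hv ?_ ?_ ?_
    · rw [hcard]
      refine lt_of_le_of_lt degree_le_natDegree ?_
      exact_mod_cast Nat.lt_succ_of_le hLd
    · rw [hcard]
      refine lt_of_le_of_lt degree_le_natDegree ?_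
      exact_mod_cast Nat.lt_succ_of_le hRd
    · intro i _
      match i with
      | none =>
        simp only [v, hLP, hRP]
        simp only [eval_mul, eval_add, eval_sub, eval_prod, eval_C, eval_X, eval_one]
        rw [hP2]
        have e1 : ∏ k : Fin (n + 1), (y k - (-1)) = ∏ k : Fin (n + 1), (1 + y k) := by
          refine Finset.prod_congr rfl fun k _ => ?_
          ring
        have e2 : ∏ k : Fin (n + 1), ((1 - (-1) * y k) * (1 - (-1) - y k))
            = (∏ k : Fin (n + 1), (1 + y k)) * ∏ k : Fin (n + 1), (2 - y k) := by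
          rw [← Finset.prod_mul_distrib]
          refine Finset.prod_congr rfl fun k _ => ?_
          ring
        rw [e1, e2]
        linear_combination (∏ k : Fin (n + 1), (1 + y k)) * (∏ k : Fin (n + 1), (2 - y k)) * hqs
      | some (Sum.inl k) =>
        have h0 : RP.eval (y k) = 0 := by
          rw [hRPe (y k) (fun l => hy.h1 k l) (fun l => hy.h2 k l) (hy.h3 k), hS k, mul_zero]
        have h1 : LP.eval (y k) = 0 := by
          rw [hLP]
          simp only [eval_mul, eval_prod, eval_sub, eval_C, eval_X]
          rw [Finset.prod_eq_zero (Finset.mem_univ k) (sub_self _)]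
          ring
        change LP.eval (y k) = RP.eval (y k)
        rw [h0, h1]
      | some (Sum.inr k) =>
        change LP.eval (1 - y k) = RP.eval (1 - y k)
        have h0 : RP.eval (1 - y k) = (PP fW (n + 1) y * ∏ k, (1 + y k)) *
            ((1 + (1 - y k)) * ((-1) ^ (k : ℕ) * q k * ((y k - (1 - y k))
            * ∏ l : Fin n, ((1 - (1 - y k) * y (k.succAbove l))
              * (1 - (1 - y k) - y (k.succAbove l)))))) := by
          rw [hRP]
          simp only [eval_mul, eval_add, eval_sub, eval_finsetSum, eval_prod, eval_C, eval_X,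
            eval_one]
          have hz : (1 - (1 - y k) * y k) * (1 - (1 - y k) - y k) = 0 := by ring
          have hz2 : ∏ l : Fin (n + 1), ((1 - (1 - y k) * y l) * (1 - (1 - y k) - y l)) = 0 :=
            Finset.prod_eq_zero (Finset.mem_univ k) hz
          rw [hz2, mul_zero, add_zero]
          rw [Finset.sum_eq_single k]
          · intro j _ hjk
            obtain ⟨l, hl⟩ := Fin.exists_succAbove_eq (Ne.symm hjk)
            have hz : (1 - (1 - y k) * y (j.succAbove l)) * (1 - (1 - y k) - y (j.succAbove l))
              = 0 := by rw [hl]; ring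
            have hz2 : ∏ l : Fin n, ((1 - (1 - y k) * y (j.succAbove l))
              * (1 - (1 - y k) - y (j.succAbove l))) = 0 :=
              Finset.prod_eq_zero (Finset.mem_univ l) hz
            rw [hz2]
            ring
          · intro h; exact absurd (Finset.mem_univ k) h
        rw [h0, hLP]
        simp only [eval_mul, eval_prod, eval_sub, eval_C, eval_X]
        rw [hP1 k, Fin.prod_univ_succAbove (fun l => y l - (1 - y k)) k,
          Fin.prod_univ_succAbove (fun l => 1 + y l) k,
          PP_remove fV (-1) fV_symm n y k, PP_remove fW 1 fW_symm n y k, one_pow, one_mul]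
        have e1 : (∏ l : Fin n, (y (k.succAbove l) - (1 - y k)))
            * (∏ l : Fin n, fV (y k) (y (k.succAbove l)))
            = (∏ l : Fin n, (1 - y k - y (k.succAbove l)))
            * ∏ l : Fin n, (1 - (1 - y k) - y (k.succAbove l)) := by
          rw [← Finset.prod_mul_distrib, ← Finset.prod_mul_distrib]
          refine Finset.prod_congr rfl fun l _ => ?_
          simp only [fV]
          ring
        have e2 : ∏ l : Fin n, fW (y k) (y (k.succAbove l))
            = (∏ l : Fin n, (1 - y (k.succAbove l) * y k))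
            * ∏ l : Fin n, (1 - y k - y (k.succAbove l)) := by
          rw [← Finset.prod_mul_distrib]
          refine Finset.prod_congr rfl fun l _ => ?_
          simp only [fW]
          ring
        rw [e2, Finset.prod_mul_distrib]
        have h3 := hq k
        linear_combination
          ((1 + (1 - y k)) * (1 + y k)
          * (∏ l, (1 - (1 - y k) * y (k.succAbove l)))
          * (∏ l, (1 - y (k.succAbove l) * y k)) * (y k - (1 - y k)) * (-1) ^ (k : ℕ)
          * ((∏ l : Fin n, (y (k.succAbove l) - (1 - y k)))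
            * (∏ l : Fin n, fV (y k) (y (k.succAbove l))))) * h3
          + ((1 + (1 - y k)) * (1 + y k)
          * (∏ l, (1 - (1 - y k) * y (k.succAbove l)))
          * (∏ l, (1 - y (k.succAbove l) * y k)) * (y k - (1 - y k)) * (-1) ^ (k : ℕ)
          * (PP fW n (fun l => y (k.succAbove l))
            * (∏ l, (1 + y (k.succAbove l))) * q k)) * e1
  rw [← hRPe a ha1 ha2 ha3, ← hLR, hLP]
  simp only [eval_mul, eval_prod, eval_sub, eval_C, eval_X]
  ring

end Pool.Agent.TH421.OS
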