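import Pool.Agent.TH421.OS.Rec

/-!
# The part linear in the diagonal parameter, and polynomiality in the first parameter
-/

set_option autoImplicit false

namespace Pool.Agent.TH421.OS

open Polynomial

variable {R : Type*} [CommRing R] {S : Type*} [CommRing S]

/-- the coefficient of `ζ` -/
noncomputable def Z1 (l : List R) : R := (Z0 (X : R[X]) (l.map C)).coeff 1

theorem Z1_perm {l l' : List R} (h : l.Perm l') : Z1 l = Z1 l' := by
  rw [Z1, Z1, Z0_perm _ (h.map C)]

theorem map_C_prod (l : List R) (f : R → R) (g : R[X] → R[X]) (h : ∀ z, g (C z) = C (f z)) :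
    ((l.map C).map g).prod = C (l.map f).prod := by
  rw [List.map_map]
  induction l with
  | nil => simp
  | cons z l ih =>
    simp only [List.map_cons, List.prod_cons, Function.comp, h] at *
    rw [ih, C_mul]

theorem coeff_zero_Z0 (l : List R) : (Z0 (X : R[X]) (l.map C)).coeff 0 = Z0 0 l := by
  have h := Z0_map (Polynomial.constantCoeff (R := R)) (X : R[X]) (l.map C)
  rw [Polynomial.constantCoeff_apply] at h
  rw [h, List.map_map]
  simp only [Polynomial.constantCoeff_apply, coeff_X_zero]
  congr 1
  conv_rhs => rw [← List.map_id l]
  apply List.map_congr_left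
  intro a _
  simp

theorem Z1_rec (x y : R) (h : 1 - x - y = 0) (l : List R) :
    Z1 (x :: (l ++ [y])) = (1 + x) * (1 + y) * (l.map (fun z => 1 - x * z)).prod
      * (l.map (fun z => 1 - z * y)).prod * Z1 l := by
  rw [Z1, List.map_cons, List.map_append, List.map_cons, List.map_nil, Z0_rec _ (C x) (C y) (by
    rw [← C_1, ← C_sub, ← C_sub, h, C_0])]
  rw [map_C_prod l (fun z => 1 - x * z) _ (by intro z; simp),
    map_C_prod l (fun z => 1 - z * y) _ (by intro z; simp),
    ← C_1, ← C_add, ← C_add, ← C_mul, ← C_mul, ← C_mul, coeff_C_mul, Z1]

theorem Z1_neg (l : List R) :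
    Z1 (-1 :: l) = (l.map (fun z => 2 - z)).prod * Z0 0 l := by
  have e : (C (-1) : R[X]) = -1 := by simp
  rw [Z1, List.map_cons, e, Z0_neg, map_C_prod l (fun z => 2 - z) _ (by
    intro z
    rw [C_sub]
    congr 1), mul_assoc, coeff_X_mul, coeff_C_mul, coeff_zero_Z0]

theorem row_coeff (n : ℕ) (x : R) (l : List R) (r : Bool) (cs : List Bool)
    (F : List Bool → R[X]) :
    (row (C x) (l.map C) r cs F).coeff n = row x l r cs (fun t => (F t).coeff n) := by
  induction l generalizing r cs F with
  | nil => cases r <;> cases cs <;> simp [row]
  | cons y l ih =>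
    match cs with
    | [] => simp [row_cons_nil]
    | c :: cs =>
      have e1 : (1 - C x * C y : R[X]) = C (1 - x * y) := by simp
      have e2 : (1 - C x - C y : R[X]) = C (1 - x - y) := by simp
      have e3 : (rho (C x) * rho (C y) : R[X]) = C (rho x * rho y) := by
        simp [rho]
      cases r <;> cases c <;>
        simp only [List.map_cons, row, e1, e2, e3, coeff_add, coeff_C_mul, ih]

theorem row_poly_true (l : List R) (f : List Bool → R) :
    (row X (l.map C) true (List.replicate l.length false) (fun t => C (f t))).natDegree
      ≤ l.length := by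
  have h := row_true_zeros (X : R[X]) (l.map C) (fun t => C (f t))
  rw [List.length_map] at h
  rw [h]
  refine (natDegree_mul_C_le _ _).trans ?_
  induction l with
  | nil => simp
  | cons y l ih =>
    rw [List.map_cons, List.map_cons, List.prod_cons, List.length_cons]
    refine (natDegree_mul_le).trans ?_
    have h1 : (1 - X - C y : R[X]).natDegree ≤ 1 := by
      compute_degree
    have := ih (by
      have h := row_true_zeros (X : R[X]) (l.map C) (fun t => C (f t))
      rw [List.length_map] at h
      exact h)
    omega

theorem row_poly_false (l : List R) (f : List Bool → R) :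
    (row X (l.map C) false (List.replicate l.length false) (fun t => C (f t))).natDegree
      ≤ l.length - 1 := by
  induction l generalizing f with
  | nil => simp [row]
  | cons y l ih =>
    rw [List.map_cons, List.length_cons, List.replicate_succ]
    simp only [row]
    refine (natDegree_add_le _ _).trans ?_
    rw [max_le_iff]
    constructor
    · cases l with
      | nil => simp [row]
      | cons z l =>
        refine (natDegree_mul_le).trans ?_
        have h1 : (1 - X * C y : R[X]).natDegree ≤ 1 := by
          compute_degree
        have := ih (fun t => f (false :: t))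
        simp only [List.length_cons] at this ⊢
        omega
    · have := row_poly_true l (fun t => f (true :: t))
      omega

theorem interp (l : List R) (f : List Bool → R) (c : R) : ∃ P : R[X], P.natDegree ≤ l.length ∧
    ∀ a, P.eval a = (1 + a) * row a l false (List.replicate l.length false) f
      + (l.map (fun y => 1 - a - y)).prod * c := by
  refine ⟨(1 + X) * row X (l.map C) false (List.replicate l.length false) (fun t => C (f t))
    + row X (l.map C) true (List.replicate l.length false) (fun _ => C c), ?_, ?_⟩
  · refine (natDegree_add_le _ _).trans ?_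
    rw [max_le_iff]
    constructor
    · cases l with
      | nil => simp [row]
      | cons z l =>
        refine (natDegree_mul_le).trans ?_
        have h1 : (1 + X : R[X]).natDegree ≤ 1 := by
          compute_degree
        have := row_poly_false (z :: l) f
        simp only [List.length_cons] at this ⊢
        omega
    · exact row_poly_true l (fun _ => c)
  · intro a
    have e : (l.map C).map (evalRingHom a) = l := by
      rw [List.map_map]
      conv_rhs => rw [← List.map_id l]
      apply List.map_congr_left
      intro b _
      simp
    rw [eval_add, eval_mul]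
    have h1 : ∀ r g, eval a (row X (l.map C) r (List.replicate l.length false)
        (fun t => C (g t))) = row a l r (List.replicate l.length false) g := by
      intro r g
      have := row_map (evalRingHom a) X (l.map C) r (List.replicate l.length false)
        (fun t => C (g t))
      rw [e] at this
      simpa using this
    rw [h1, h1, row_true_zeros]
    simp

theorem interp0 (l : List R) : ∃ P : R[X], P.natDegree ≤ l.length ∧
    ∀ a, P.eval a = Z0 0 (a :: l) := by
  obtain ⟨P, h1, h2⟩ := interp l (Z 0 l) 0
  refine ⟨P, h1, fun a => ?_⟩
  rw [h2, Z0_cons]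
  ring

theorem interp1 (l : List R) : ∃ P : R[X], P.natDegree ≤ l.length ∧
    ∀ a, P.eval a = Z1 (a :: l) := by
  obtain ⟨P, h1, h2⟩ := interp l (fun t => (Z X (l.map C) t).coeff 1) (Z0 0 l)
  refine ⟨P, h1, fun a => ?_⟩
  rw [h2, Z1, List.map_cons, Z0_cons, coeff_add, List.length_map]
  congr 1
  · rw [← C_1, ← C_add, coeff_C_mul, row_coeff]
  · rw [map_C_prod l (fun y => 1 - a - y) _ (by intro z; simp), mul_assoc, coeff_X_mul,
      coeff_C_mul, coeff_zero_Z0]

end Pool.Agent.TH421.OS
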