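import Pool.Agent.TH421.OS.Inter

/-!
# Pfaffian formulas for the partition functions
-/

set_option autoImplicit false

namespace Pool.Agent.TH421.OS

open Polynomial Pool.Agent.Helper929

variable {F : Type*} [Field F]

theorem Cx_skew (a b : F) : Cx a b = - Cx b a := by
  simp only [Cx]
  rw [show (1 - b * a) * (1 - b - a) = (1 - a * b) * (1 - a - b) by ring,
    show b - a = -(a - b) by ring, neg_div]

theorem ofFn_perm {α : Type*} {n : ℕ} (y : Fin (n + 1) → α) (k : Fin (n + 1)) :
    (List.ofFn y).Perm (List.ofFn (fun l => y (k.succAbove l)) ++ [y k]) := by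
  have key : ∀ (n : ℕ) (y : Fin (n + 1) → α) (k : Fin (n + 1)),
      (List.ofFn y).Perm (y k :: List.ofFn (fun l => y (k.succAbove l))) := by
    intro n
    induction n with
    | zero =>
      intro y k
      fin_cases k
      simp
    | succ n ih =>
      intro y k
      refine Fin.cases ?_ (fun k => ?_) k
      · rw [List.ofFn_succ]
        simp
      · rw [List.ofFn_succ]
        have h := ih (fun i => y i.succ) k
        refine (h.cons (y 0)).trans ?_
        rw [List.ofFn_succ (f := fun l => y (k.succ.succAbove l))]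
        simp only [Fin.succ_succAbove_zero, Fin.succ_succAbove_succ]
        exact List.Perm.swap _ _ _
  exact (key n y k).trans (List.perm_append_singleton _ _).symm

theorem pf_repeat [CharZero F] {N : ℕ} (A : Matrix (Fin N) (Fin N) F) (hA : ∀ i j, A i j = - A j i)
    (g : Fin N → Fin N) (i j : Fin N) (hij : i ≠ j) (hg : g i = g j) :
    pf N (Matrix.of fun a b => A (g a) (g b)) = 0 := by
  set P : Matrix (Fin N) (Fin N) F := Matrix.of fun a b => if g a = b then 1 else 0 with hP
  have h := pf_gram A hA P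
  have h1 : P * A * P.transpose = Matrix.of fun a b => A (g a) (g b) := by
    ext a b
    rw [Matrix.mul_apply]
    simp only [Matrix.mul_apply, Matrix.transpose_apply, hP, Matrix.of_apply, ite_mul, one_mul,
      zero_mul, mul_ite, mul_one, mul_zero, Finset.sum_ite_eq, Finset.mem_univ, if_true]
  have h2 : P.det = 0 := by
    apply Matrix.det_zero_of_row_eq hij
    funext b
    simp only [hP, Matrix.of_apply, hg]
  rw [h1, h2, zero_mul] at h
  exact h

theorem list_prod_ofFn {n : ℕ} (y : Fin n → F) (g : F → F) :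
    ((List.ofFn y).map g).prod = ∏ i, g (y i) := by
  rw [List.map_ofFn, List.prod_ofFn]
  rfl

/-- matrix of the two-point function -/
def MC {n : ℕ} (x : Fin n → F) : Matrix (Fin n) (Fin n) F :=
  Matrix.of fun i j => Cx (x i) (x j)

theorem MC_skew {n : ℕ} (x : Fin n → F) (i j : Fin n) : MC x i j = - MC x j i := by
  simp only [MC, Matrix.of_apply]
  exact Cx_skew _ _

theorem pf_MC {n : ℕ} (x : Fin (n + 2) → F) :
    pf (n + 2) (MC x) = ∑ k : Fin (n + 1), (-1) ^ (k : ℕ) * Cx (x 0) (x k.succ)
      * pf n (MC (fun l => x (k.succAbove l).succ)) := rfl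

theorem pf_MC_zero [CharZero F] {n : ℕ} (y : Fin (n + 1) → F) (l : Fin (n + 1)) :
    ∑ k : Fin (n + 1), (-1) ^ (k : ℕ) * Cx (y l) (y k)
      * pf n (MC (fun i => y (k.succAbove i))) = 0 := by
  have h := pf_MC (Fin.cons (y l) y : Fin (n + 2) → F)
  simp only [Fin.cons_zero, Fin.cons_succ] at h
  rw [← h]
  have h2 := pf_repeat (MC (Fin.cons (y l) y : Fin (n + 2) → F)) (MC_skew _)
    (fun i => if i = 0 then l.succ else i) 0 l.succ (Fin.succ_ne_zero l).symm (by
      simp)
  rw [← h2]
  congr 1
  ext i j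
  simp only [MC, Matrix.of_apply]
  have e : ∀ i : Fin (n + 2), (Fin.cons (y l) y : Fin (n + 2) → F)
      (if i = 0 then l.succ else i) = (Fin.cons (y l) y : Fin (n + 2) → F) i := by
    intro i
    by_cases hi : i = 0
    · rw [if_pos hi, hi, Fin.cons_succ, Fin.cons_zero]
    · rw [if_neg hi]
  rw [e, e]

theorem even_formula [CharZero F] : ∀ (m : ℕ) (x : Fin (2 * m) → F), Gen x →
    Z0 0 (List.ofFn x) * PP fV (2 * m) x
      = PP fW (2 * m) x * (∏ i, (1 + x i)) * pf (2 * m) (MC x) := by
  intro m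
  induction m with
  | zero =>
    intro x _
    have : List.ofFn x = [] := by simp
    rw [this]
    simp [Z0, Z, PP, pf]
  | succ m ih =>
    intro x hx
    change Fin (2 * m + 2) → F at x
    have hy : Gen (fun k : Fin (2 * m + 1) => x k.succ) := hx.comp Fin.succ (Fin.succ_injective _)
    obtain ⟨P, hP0, hP⟩ := interp0 (List.ofFn (fun k : Fin (2 * m + 1) => x k.succ))
    have h := interp_step (n := 2 * m) (fun k => x k.succ) hy P (by simpa using hP0)
      (fun k => pf (2 * m) (MC (fun l => x (k.succAbove l).succ)))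
      (fun k => Z0 0 (List.ofFn (fun l => x (k.succAbove l).succ))) 0 0
      (by
        intro k
        exact ih (fun l => x (k.succAbove l).succ)
          (hx.comp (fun l => (k.succAbove l).succ)
            ((Fin.succ_injective _).comp Fin.succAbove_right_injective)))
      (by ring)
      (by
        intro k
        rw [hP, Z0_perm 0 ((ofFn_perm (fun k : Fin (2 * m + 1) => x k.succ) k).cons _),
          Z0_rec 0 (1 - x k.succ) (x k.succ) (by ring)]
        simp only [list_prod_ofFn])
      (by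
        rw [hP, Z0_neg]
        ring)
      (by
        intro l
        rw [zero_div, add_zero]
        exact pf_MC_zero (fun k => x k.succ) l)
      (x 0) (fun k => hx.h1 _ _) (fun k => hx.h2 _ _) (hx.h3 0)
    rw [hP, zero_div, add_zero] at h
    have e2 : ∏ i : Fin (2 * m + 2), (1 + x i) = (1 + x 0) * ∏ k : Fin (2 * m + 1), (1 + x k.succ) :=
      Fin.prod_univ_succ _
    change Z0 0 (List.ofFn (n := 2 * m + 1 + 1) x) * PP fV (2 * m + 1 + 1) x = _
    rw [List.ofFn_succ]
    exact h.trans (by
      change _ = PP fW (2 * m + 1 + 1) x * (∏ i : Fin (2 * m + 2), (1 + x i)) * pf (2 * m + 2) (MC x)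
      rw [e2, pf_MC]
      rfl)

/-- bordered matrix -/
def MB {n : ℕ} (x : Fin n → F) : Matrix (Fin (n + 1)) (Fin (n + 1)) F :=
  Matrix.of fun i j => Fin.lastCases (motive := fun _ => F)
    (Fin.lastCases (motive := fun _ => F) 0 (fun j => - (1 / (1 + x j))) j)
    (fun i => Fin.lastCases (motive := fun _ => F) (1 / (1 + x i)) (fun j => Cx (x i) (x j)) j) i

theorem MB_cc {n : ℕ} (x : Fin n → F) (i j : Fin n) :
    MB x i.castSucc j.castSucc = Cx (x i) (x j) := by
  simp [MB]

theorem MB_cl {n : ℕ} (x : Fin n → F) (i : Fin n) :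
    MB x i.castSucc (Fin.last n) = 1 / (1 + x i) := by
  simp [MB]

theorem MB_lc {n : ℕ} (x : Fin n → F) (j : Fin n) :
    MB x (Fin.last n) j.castSucc = - (1 / (1 + x j)) := by
  simp [MB]

theorem MB_ll {n : ℕ} (x : Fin n → F) :
    MB x (Fin.last n) (Fin.last n) = 0 := by
  simp [MB]

theorem MB_skew {n : ℕ} (x : Fin n → F) (i j : Fin (n + 1)) : MB x i j = - MB x j i := by
  refine Fin.lastCases ?_ (fun i => ?_) i
  · refine Fin.lastCases ?_ (fun j => ?_) j
    · rw [MB_ll]; ring
    · rw [MB_lc, MB_cl]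
  · refine Fin.lastCases ?_ (fun j => ?_) j
    · rw [MB_lc, MB_cl]; ring
    · rw [MB_cc, MB_cc]; exact Cx_skew _ _

theorem pf_MB {n : ℕ} (hn : Even (n + 1)) (x : Fin (n + 2) → F) :
    pf (n + 3) (MB x) = (∑ k : Fin (n + 1), (-1) ^ (k : ℕ) * Cx (x 0) (x k.succ)
      * pf (n + 1) (MB (fun l => x (k.succAbove l).succ)))
      + 1 / (1 + x 0) * pf (n + 1) (MC (fun l => x l.succ)) := by
  have h : pf (n + 3) (MB x) = ∑ j : Fin (n + 2), (-1) ^ (j : ℕ) * MB x 0 j.succ *
      pf (n + 1) ((MB x).submatrix (fun k => (j.succAbove k).succ)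
        (fun k => (j.succAbove k).succ)) := rfl
  have e0 : (0 : Fin (n + 3)) = Fin.castSucc (0 : Fin (n + 2)) := rfl
  rw [h, Fin.sum_univ_castSucc]
  congr 1
  · refine Finset.sum_congr rfl fun k _ => ?_
    rw [e0, ← Fin.castSucc_succ, MB_cc]
    congr 2
    have s1 : ∀ l : Fin n, (k.castSucc.succAbove l.castSucc).succ
        = ((k.succAbove l).succ).castSucc := by
      intro l
      rw [Fin.castSucc_succAbove_castSucc, Fin.castSucc_succ]
    have s2 : (k.castSucc.succAbove (Fin.last n)).succ = Fin.last (n + 2) := by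
      rw [Fin.succAbove_of_le_castSucc _ _ (by
        rw [Fin.castSucc_le_castSucc_iff]; exact Fin.le_last k), Fin.succ_last, Fin.succ_last]
    ext i j
    rw [Matrix.submatrix_apply]
    refine Fin.lastCases ?_ (fun i => ?_) i
    · refine Fin.lastCases ?_ (fun j => ?_) j
      · rw [s2, MB_ll, MB_ll]
      · rw [s2, s1, MB_lc, MB_lc]
    · refine Fin.lastCases ?_ (fun j => ?_) j
      · rw [s2, s1, MB_cl, MB_cl]
      · rw [s1, s1, MB_cc, MB_cc]
  · rw [Fin.succ_last, e0, MB_cl, Fin.val_last, hn.neg_one_pow, one_mul]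
    congr 2
    ext i j
    have s1 : ∀ l : Fin (n + 1), ((Fin.last (n + 1)).succAbove l).succ = l.succ.castSucc := by
      intro l
      rw [Fin.succAbove_last_apply, Fin.castSucc_succ]
    rw [Matrix.submatrix_apply, s1, s1, MB_cc]
    rfl

theorem pf_MB_zero [CharZero F] {n : ℕ} (hn : Even (n + 1)) (y : Fin (n + 1) → F)
    (l : Fin (n + 1)) :
    (∑ k : Fin (n + 1), (-1) ^ (k : ℕ) * Cx (y l) (y k)
      * pf (n + 1) (MB (fun i => y (k.succAbove i)))) + pf (n + 1) (MC y) / (1 + y l) = 0 := by
  have h := pf_MB hn (Fin.cons (y l) y : Fin (n + 2) → F)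
  simp only [Fin.cons_zero, Fin.cons_succ] at h
  have h3 : pf (n + 1) (MC y) / (1 + y l) = 1 / (1 + y l) * pf (n + 1) (MC (fun l => y l)) := by
    rw [div_mul_eq_mul_div, one_mul]
  rw [h3, ← h]
  have h2 := pf_repeat (MB (Fin.cons (y l) y : Fin (n + 2) → F)) (MB_skew _)
    (fun i => if i = 0 then l.succ.castSucc else i) 0 l.succ.castSucc (by
      rw [Fin.castSucc_succ]
      exact (Fin.succ_ne_zero _).symm) (by
      simp)
  rw [← h2]
  congr 1
  have e : ∀ i j, MB (Fin.cons (y l) y : Fin (n + 2) → F)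
      (if i = 0 then l.succ.castSucc else i) j = MB (Fin.cons (y l) y : Fin (n + 2) → F) i j := by
    intro i j
    by_cases hi : i = 0
    · rw [if_pos hi, hi]
      have e0 : (0 : Fin (n + 3)) = Fin.castSucc (0 : Fin (n + 2)) := rfl
      rw [e0]
      refine Fin.lastCases ?_ (fun j => ?_) j
      · rw [MB_cl, MB_cl, Fin.cons_succ, Fin.cons_zero]
      · rw [MB_cc, MB_cc, Fin.cons_succ, Fin.cons_zero]
    · rw [if_neg hi]
  have e' : ∀ i j, MB (Fin.cons (y l) y : Fin (n + 2) → F) i
      (if j = 0 then l.succ.castSucc else j) = MB (Fin.cons (y l) y : Fin (n + 2) → F) i j := by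
    intro i j
    rw [MB_skew, e, ← MB_skew]
  ext i j
  rw [Matrix.of_apply, e, e']

theorem Z1_single (a : F) : Z1 [a] = 1 := by
  rw [Z1, List.map_cons, List.map_nil, Z0_cons]
  simp [row, Z0, Z]

theorem odd_formula [CharZero F] : ∀ (m : ℕ) (x : Fin (2 * m + 1) → F), Gen x →
    Z1 (List.ofFn x) * PP fV (2 * m + 1) x
      = PP fW (2 * m + 1) x * (∏ i, (1 + x i)) * pf (2 * m + 2) (MB x) := by
  intro m
  induction m with
  | zero =>
    intro x hx
    have : List.ofFn x = [x 0] := by simp
    rw [this, Z1_single]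
    have h : pf (2 * 0 + 2) (MB x) = 1 / (1 + x 0) := by
      change (∑ j : Fin 1, (-1) ^ (j : ℕ) * MB x 0 j.succ * pf 0 _) = _
      rw [Fin.sum_univ_one]
      have := MB_cl x 0
      have e : MB x 0 (Fin.succ 0) = 1 / (1 + x 0) := this
      rw [e]
      simp [pf]
    rw [h]
    have h3 := hx.h3 0
    simp [PP, h3]
  | succ m ih =>
    intro x hx
    change Fin (2 * m + 1 + 2) → F at x
    have hn : Even (2 * m + 1 + 1) := ⟨m + 1, by ring⟩
    have hy : Gen (fun k : Fin (2 * m + 1 + 1) => x k.succ) :=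
      hx.comp Fin.succ (Fin.succ_injective _)
    obtain ⟨P, hP0, hP⟩ := interp1 (List.ofFn (fun k : Fin (2 * m + 1 + 1) => x k.succ))
    have h := interp_step (n := 2 * m + 1) (fun k => x k.succ) hy P (by simpa using hP0)
      (fun k => pf (2 * m + 1 + 1) (MB (fun l => x (k.succAbove l).succ)))
      (fun k => Z1 (List.ofFn (fun l => x (k.succAbove l).succ)))
      (pf (2 * m + 1 + 1) (MC (fun l => x l.succ)))
      (Z0 0 (List.ofFn (fun k : Fin (2 * m + 1 + 1) => x k.succ)))
      (by
        intro k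
        exact ih (fun l => x (k.succAbove l).succ)
          (hx.comp (fun l => (k.succAbove l).succ)
            ((Fin.succ_injective _).comp Fin.succAbove_right_injective)))
      (even_formula (m + 1) (fun k => x k.succ) hy)
      (by
        intro k
        rw [hP, Z1_perm ((ofFn_perm (fun k : Fin (2 * m + 1 + 1) => x k.succ) k).cons _),
          Z1_rec (1 - x k.succ) (x k.succ) (by ring)]
        simp only [list_prod_ofFn])
      (by
        rw [hP, Z1_neg]
        simp only [list_prod_ofFn])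
      (by
        intro l
        exact pf_MB_zero hn (fun k => x k.succ) l)
      (x 0) (fun k => hx.h1 _ _) (fun k => hx.h2 _ _) (hx.h3 0)
    rw [hP] at h
    have e2 : ∏ i : Fin (2 * m + 1 + 2), (1 + x i)
        = (1 + x 0) * ∏ k : Fin (2 * m + 1 + 1), (1 + x k.succ) :=
      Fin.prod_univ_succ _
    change Z1 (List.ofFn (n := 2 * m + 1 + 1 + 1) x) * PP fV (2 * m + 1 + 1 + 1) x = _
    rw [List.ofFn_succ]
    exact h.trans (by
      change _ = PP fW (2 * m + 1 + 1 + 1) x * (∏ i : Fin (2 * m + 1 + 2), (1 + x i))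
        * pf (2 * m + 1 + 3) (MB x)
      rw [e2, pf_MB hn, one_div_mul_eq_div]
      rfl)

end Pool.Agent.TH421.OS
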