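import Pool.Agent.TH421.OS.Gen
import Pool.Agent.Helper929.Pfaffian

/-!
# The Pfaffian identity
-/

set_option autoImplicit false

namespace Pool.Agent.TH421.OS

open Finset Matrix Pool.Agent.Helper929

/-- bordered array -/
noncomputable def M (N : ℕ) (v : ℕ → ℚ) : Matrix (Fin (N + 1)) (Fin (N + 1)) ℚ :=
  Matrix.of fun i j =>
    if (i : ℕ) < N then (if (j : ℕ) < N then c i j else v i)
    else (if (j : ℕ) < N then - v j else 0)

theorem M_cc (N : ℕ) (v : ℕ → ℚ) (i j : Fin N) : M N v i.castSucc j.castSucc = c i j := by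
  simp [M]

theorem M_cl (N : ℕ) (v : ℕ → ℚ) (i : Fin N) : M N v i.castSucc (Fin.last N) = v i := by
  simp [M]

theorem M_lc (N : ℕ) (v : ℕ → ℚ) (j : Fin N) : M N v (Fin.last N) j.castSucc = - v j := by
  simp [M]

theorem M_ll (N : ℕ) (v : ℕ → ℚ) : M N v (Fin.last N) (Fin.last N) = 0 := by
  simp [M]

theorem M_skew (N : ℕ) (v : ℕ → ℚ) (i j : Fin (N + 1)) : M N v i j = - M N v j i := by
  refine Fin.lastCases ?_ (fun i => ?_) i
  · refine Fin.lastCases ?_ (fun j => ?_) j
    · rw [M_ll]; ring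
    · rw [M_lc, M_cl]
  · refine Fin.lastCases ?_ (fun j => ?_) j
    · rw [M_lc, M_cl]; ring
    · rw [M_cc, M_cc, c_skew]

/-- the substitution matrix -/
noncomputable def P (N : ℕ) : Matrix (Fin (N + 1)) (Fin (N + 1)) ℚ :=
  Matrix.of fun i j =>
    if (i : ℕ) < N then (if (j : ℕ) < N then (-1) ^ (j : ℕ) * ((i : ℕ).choose j : ℚ) else 0)
    else (if (j : ℕ) < N then 0 else 1)

theorem P_cc (N : ℕ) (i j : Fin N) : P N i.castSucc j.castSucc
    = (-1) ^ (j : ℕ) * ((i : ℕ).choose j : ℚ) := by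
  simp [P]

theorem P_cl (N : ℕ) (i : Fin N) : P N i.castSucc (Fin.last N) = 0 := by
  simp [P]

theorem P_lc (N : ℕ) (j : Fin N) : P N (Fin.last N) j.castSucc = 0 := by
  simp [P]

theorem P_ll (N : ℕ) : P N (Fin.last N) (Fin.last N) = 1 := by
  simp [P]

theorem sum_bt (N : ℕ) (i : Fin N) (u : ℕ → ℚ) :
    ∑ j : Fin N, (-1) ^ (j : ℕ) * ((i : ℕ).choose j : ℚ) * u j = bt u i := by
  rw [bt_eq_sum u i N i.2, Finset.sum_range]

theorem P_mul (N : ℕ) (v w : ℕ → ℚ) (h : ∀ k, bt v k = - w k) :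
    P N * M N v * (P N)ᵀ = - M N w := by
  have e1 : ∀ (i j : Fin (N + 1)), (P N * M N v * (P N)ᵀ) i j
      = ∑ l, (∑ k, P N i k * M N v k l) * P N j l := by
    intro i j
    rw [Matrix.mul_apply]
    simp_rw [Matrix.mul_apply, Matrix.transpose_apply]
  ext i j
  rw [e1, Matrix.neg_apply]
  refine Fin.lastCases ?_ (fun i => ?_) i
  · refine Fin.lastCases ?_ (fun j => ?_) j
    · simp [Fin.sum_univ_castSucc, M_ll, P_lc, P_ll]
    · simp only [Fin.sum_univ_castSucc, M_ll, P_lc, P_ll, P_cc, P_cl, M_lc, M_cc, M_cl]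
      simp only [zero_mul, sum_const_zero, one_mul, zero_add, mul_zero, add_zero, neg_neg]
      have := sum_bt N j v
      rw [h] at this
      rw [← neg_inj, ← this, ← sum_neg_distrib]
      refine sum_congr rfl fun k _ => ?_
      ring
  · refine Fin.lastCases ?_ (fun j => ?_) j
    · simp only [Fin.sum_univ_castSucc, M_ll, P_lc, P_ll, P_cc, P_cl, M_lc, M_cc, M_cl]
      simp only [zero_mul, mul_one, mul_zero, add_zero, sum_const_zero, zero_add]
      have := sum_bt N i v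
      rw [h] at this
      exact this
    · simp only [Fin.sum_univ_castSucc, P_cc, P_cl, M_lc, M_cc, M_cl]
      simp only [zero_mul, mul_zero, add_zero]
      have h1 : ∀ l : Fin N, ∑ k : Fin N, (-1) ^ (k : ℕ) * ((i : ℕ).choose k : ℚ) * c k l
          = bt (fun a => c a l) i := fun l => sum_bt N i (fun a => c a l)
      have h2 : ∑ l : Fin N, (∑ k : Fin N, (-1) ^ (k : ℕ) * ((i : ℕ).choose k : ℚ) * c k l)
          * ((-1) ^ (l : ℕ) * ((j : ℕ).choose l : ℚ))
          = ∑ l : Fin N, (-1) ^ (l : ℕ) * ((j : ℕ).choose l : ℚ) * bt (fun a => c a l) i := by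
        refine sum_congr rfl fun l _ => ?_
        rw [h1]; ring
      rw [h2, sum_bt N j (fun l => bt (fun a => c a l) i), ← bt_swap]
      exact c_arr.tr_eq i j

theorem P_lower (N : ℕ) (i j : Fin (N + 1)) (hij : i < j) : P N i j = 0 := by
  have hi : (i : ℕ) < N := by have := j.2; have : (i : ℕ) < j := hij; omega
  unfold P
  rw [Matrix.of_apply, if_pos hi]
  by_cases hj : (j : ℕ) < N
  · rw [if_pos hj, Nat.choose_eq_zero_of_lt hij]; simp
  · rw [if_neg hj]

theorem P_det (N : ℕ) : (P N).det = ∏ i ∈ range N, (-1 : ℚ) ^ i := by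
  rw [Matrix.det_of_isLowerTriangular (P N) (by
    intro i j hij
    exact P_lower N i j hij), Fin.prod_univ_castSucc]
  simp [P_cc, P_ll, Finset.prod_range]

theorem prod_sign (n : ℕ) : ∏ i ∈ range (2 * n + 1), (-1 : ℚ) ^ i = (-1) ^ n := by
  induction n with
  | zero => simp
  | succ n ih =>
    rw [show 2 * (n + 1) + 1 = 2 * n + 1 + 1 + 1 by ring, prod_range_succ, prod_range_succ, ih]
    have h1 : (-1 : ℚ) ^ (2 * n + 1) = -1 := by rw [pow_succ, pow_mul]; norm_num
    have h2 : (-1 : ℚ) ^ (2 * n + 1 + 1) = 1 := by rw [pow_succ, h1]; norm_num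
    rw [h1, h2]; ring

theorem pf_neg : ∀ (n : ℕ) (A : Matrix (Fin (2 * n)) (Fin (2 * n)) ℚ),
    pf (2 * n) (-A) = (-1) ^ n * pf (2 * n) A
  | 0, A => by simp [pf]
  | (n + 1), A => by
    show pf (2 * n + 2) (-A) = (-1) ^ (n + 1) * pf (2 * n + 2) A
    rw [pf, pf, mul_sum]
    refine sum_congr rfl fun j _ => ?_
    have h := pf_neg n (A.submatrix (fun k => (j.succAbove k).succ) (fun k => (j.succAbove k).succ))
    have h2 : (-A).submatrix (fun k => (j.succAbove k).succ) (fun k => (j.succAbove k).succ)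
        = - (A.submatrix (fun k => (j.succAbove k).succ) (fun k => (j.succAbove k).succ)) := by
      ext i j; rfl
    rw [h2, h, Matrix.neg_apply]
    ring

/-- the change of border under the substitution -/
theorem pf_border (n : ℕ) (v w : ℕ → ℚ) (h : ∀ k, bt v k = w k) :
    pf (2 * n + 2) (M (2 * n + 1) v) = pf (2 * n + 2) (M (2 * n + 1) w) := by
  have h1 := pf_gram (M (2 * n + 1) v) (M_skew _ _) (P (2 * n + 1))
  rw [P_mul (2 * n + 1) v (fun k => - w k) (by intro k; rw [h]; ring), P_det, prod_sign] at h1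
  have h2 : pf (2 * n + 1 + 1) (-M (2 * n + 1) (fun k => - w k)) =
      (-1) ^ (n + 1) * pf (2 * n + 1 + 1) (M (2 * n + 1) (fun k => - w k)) :=
    pf_neg (n + 1) (M (2 * n + 1) (fun k => - w k))
  show pf (2 * n + 1 + 1) (M (2 * n + 1) v) = pf (2 * n + 1 + 1) (M (2 * n + 1) w)
  rw [h2] at h1
  -- the sign of the border
  have h3 := pf_gram (M (2 * n + 1) w) (M_skew _ _)
    (Matrix.diagonal (fun i : Fin (2 * n + 1 + 1) => if (i : ℕ) < 2 * n + 1 then (1 : ℚ) else -1))
  have h4 : Matrix.diagonal (fun i : Fin (2 * n + 1 + 1) =>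
      if (i : ℕ) < 2 * n + 1 then (1 : ℚ) else -1) * M (2 * n + 1) w *
      (Matrix.diagonal (fun i : Fin (2 * n + 1 + 1) =>
        if (i : ℕ) < 2 * n + 1 then (1 : ℚ) else -1))ᵀ = M (2 * n + 1) (fun k => - w k) := by
    rw [Matrix.diagonal_transpose]
    ext i j
    rw [Matrix.mul_diagonal, Matrix.diagonal_mul]
    simp only [M, Matrix.of_apply]
    by_cases hi : (i : ℕ) < 2 * n + 1 <;> by_cases hj : (j : ℕ) < 2 * n + 1 <;> simp [hi, hj]
  have hprod : (∏ i : Fin (2 * n + 1 + 1), (if (i : ℕ) < 2 * n + 1 then (1 : ℚ) else -1)) = -1 := by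
    rw [Fin.prod_univ_castSucc, Finset.prod_eq_one]
    · simp
    · intro i _
      rw [if_pos]
      exact i.2
  rw [h4, Matrix.det_diagonal, hprod] at h3
  rw [h3] at h1
  have h5 : ((-1 : ℚ) ^ n) * (-1) ^ n = 1 := by
    rw [← mul_pow]; norm_num
  have h6 : (-1 : ℚ) ^ n * pf (2 * n + 1 + 1) (M (2 * n + 1) w)
      = (-1) ^ n * pf (2 * n + 1 + 1) (M (2 * n + 1) v) := by
    rw [← h1, pow_succ]; ring
  have h7 : ((-1 : ℚ) ^ n) ≠ 0 := by
    intro h0; rw [h0] at h5; simp at h5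
  exact (mul_left_cancel₀ h7 h6).symm

/-- the form used for the linearity in the border -/
noncomputable def BF (N : ℕ) : Matrix (Fin N ⊕ Fin N) (Fin N ⊕ Fin N) ℚ :=
  Matrix.fromBlocks (Matrix.of fun i j => c i j) 1 (-1) 0

theorem BF_skew (N : ℕ) (i j : Fin N ⊕ Fin N) : BF N i j = - BF N j i := by
  rcases i with i | i <;> rcases j with j | j
  · simp only [BF, Matrix.fromBlocks_apply₁₁, Matrix.of_apply]
    exact c_skew i j
  · simp only [BF, Matrix.fromBlocks_apply₁₂, Matrix.fromBlocks_apply₂₁, Matrix.neg_apply,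
      Matrix.one_apply, neg_neg]
    by_cases h : i = j
    · rw [if_pos h, if_pos h.symm]
    · rw [if_neg h, if_neg (Ne.symm h)]
  · simp only [BF, Matrix.fromBlocks_apply₁₂, Matrix.fromBlocks_apply₂₁, Matrix.neg_apply,
      Matrix.one_apply]
    by_cases h : i = j
    · rw [if_pos h, if_pos h.symm]
    · rw [if_neg h, if_neg (Ne.symm h)]
  · simp [BF]

theorem BF_self (N : ℕ) (x : Fin N ⊕ Fin N → ℚ) : Matrix.toBilin' (BF N) x x = 0 := by
  have h : Matrix.toBilin' (BF N) x x = - Matrix.toBilin' (BF N) x x := by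
    conv_lhs => rw [Matrix.toBilin'_apply, Finset.sum_comm]
    rw [Matrix.toBilin'_apply, ← Finset.sum_neg_distrib]
    apply Finset.sum_congr rfl
    intro i _
    rw [← Finset.sum_neg_distrib]
    apply Finset.sum_congr rfl
    intro j _
    rw [BF_skew N j i]
    ring
  linarith

/-- the vectors with Gram matrix the bordered array -/
noncomputable def vec (N : ℕ) (x : Fin N ⊕ Fin N → ℚ) : Fin (N + 1) → (Fin N ⊕ Fin N → ℚ) :=
  Fin.lastCases x (fun i => Pi.single (Sum.inl i) 1)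

theorem vec_update (N : ℕ) (x : Fin N ⊕ Fin N → ℚ) :
    vec N x = Function.update (vec N 0) (Fin.last N) x := by
  funext i
  refine Fin.lastCases ?_ (fun i => ?_) i
  · simp [vec]
  · rw [Function.update_of_ne (Fin.castSucc_ne_last i)]
    simp [vec]

theorem gram (N : ℕ) (v : ℕ → ℚ) :
    (Matrix.of fun i j => Matrix.toBilin' (BF N) (vec N (Sum.elim 0 (fun i => v i)) i)
      (vec N (Sum.elim 0 (fun i => v i)) j)) = M N v := by
  ext i j
  rw [Matrix.of_apply]
  refine Fin.lastCases ?_ (fun i => ?_) i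
  · refine Fin.lastCases ?_ (fun j => ?_) j
    · rw [M_ll]; exact BF_self N _
    · rw [M_lc]
      simp [vec, Matrix.toBilin'_apply, BF, Pi.single_apply, Matrix.one_apply]
  · refine Fin.lastCases ?_ (fun j => ?_) j
    · rw [M_cl]
      simp [vec, Matrix.toBilin'_apply, BF, Pi.single_apply, Matrix.one_apply]
    · rw [M_cc]
      simp [vec, BF, Matrix.toBilin'_single]

/-- Linearity in the border. -/
theorem pf_linear (N : ℕ) (r t : ℚ) (v w : ℕ → ℚ) :
    pf (N + 1) (M N (fun k => r * v k + t * w k)) =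
      r * pf (N + 1) (M N v) + t * pf (N + 1) (M N w) := by
  rw [← gram, ← gram, ← gram, ← pfE_eq _ (BF_self N), ← pfE_eq _ (BF_self N),
    ← pfE_eq _ (BF_self N), vec_update, vec_update N (Sum.elim 0 fun i => v i),
    vec_update N (Sum.elim 0 fun i => w i)]
  have h : (Sum.elim 0 (fun i : Fin N => r * v i + t * w i) : Fin N ⊕ Fin N → ℚ) =
      r • (Sum.elim 0 (fun i : Fin N => v i) : Fin N ⊕ Fin N → ℚ) +
        t • (Sum.elim 0 (fun i : Fin N => w i) : Fin N ⊕ Fin N → ℚ) := by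
    funext i
    rcases i with i | i <;> simp
  rw [h, AlternatingMap.map_update_add, AlternatingMap.map_update_smul,
    AlternatingMap.map_update_smul]
  simp only [smul_eq_mul]

/-- **The Pfaffian identity.** -/
theorem pf_identity (n : ℕ) :
    pf (2 * n + 2) (M (2 * n + 1) (fun a => (-1) ^ a)) =
      pf (2 * n + 2) (M (2 * n + 1) (fun a => ((-1) ^ a + 2 ^ a) / 2)) := by
  have h1 := pf_border n (fun a => (-1) ^ a) (fun a => 2 ^ a) (by
    intro k; rw [bt_pow]; norm_num)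
  have h2 := pf_linear (2 * n + 1) (1 / 2) (1 / 2) (fun a => (-1) ^ a) (fun a => 2 ^ a)
  have h3 : (fun k : ℕ => (1 / 2 : ℚ) * (-1) ^ k + 1 / 2 * 2 ^ k) =
      (fun a : ℕ => ((-1 : ℚ) ^ a + 2 ^ a) / 2) := by
    funext k; ring
  rw [h3] at h2
  show pf (2 * n + 1 + 1) (M (2 * n + 1) (fun a => (-1) ^ a)) =
      pf (2 * n + 1 + 1) (M (2 * n + 1) (fun a => ((-1) ^ a + 2 ^ a) / 2))
  rw [h2]
  have h4 : pf (2 * n + 1 + 1) (M (2 * n + 1) fun a => (-1) ^ a) =
    pf (2 * n + 1 + 1) (M (2 * n + 1) fun a => 2 ^ a) := h1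
  rw [← h4]
  ring

end Pool.Agent.TH421.OS
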