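import Pool.Agent.TH421.OS.Sym

/-!
# Recursions for the partition function
-/

set_option autoImplicit false

namespace Pool.Agent.TH421.OS

variable {R : Type*} [CommRing R] {S : Type*} [CommRing S]

theorem row_true_zeros (x : R) (l : List R) (F : List Bool → R) :
    row x l true (List.replicate l.length false) F
      = (l.map (fun y => 1 - x - y)).prod * F (List.replicate l.length false) := by
  induction l generalizing F with
  | nil => simp [row]
  | cons y l ih =>
    rw [List.length_cons, List.replicate_succ]
    simp only [row]
    rw [ih, List.map_cons, List.prod_cons]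
    ring

theorem row_true_zeros_last (x y : R) (h : 1 - x - y = 0) (l : List R) (F : List Bool → R) :
    row x (l ++ [y]) true (List.replicate (l ++ [y]).length false) F = 0 := by
  rw [row_true_zeros]
  simp [h]

theorem row_false_zeros_last (x y : R) (h : 1 - x - y = 0) (l : List R) (F : List Bool → R) :
    row x (l ++ [y]) false (List.replicate (l ++ [y]).length false) F
      = (l.map (fun z => 1 - x * z)).prod * F (List.replicate l.length false ++ [true]) := by
  induction l generalizing F with
  | nil => simp [row]
  | cons z l ih =>
    rw [List.cons_append, List.length_cons, List.replicate_succ]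
    simp only [row]
    rw [ih, row_true_zeros_last x y h, List.map_cons, List.prod_cons, List.length_cons,
      List.replicate_succ, List.cons_append]
    ring

theorem row_last (x y : R) (l : List R) (r : Bool) (cs : List Bool) (hl : cs.length = l.length)
    (F : List Bool → R) :
    row x (l ++ [y]) r (cs ++ [true]) F = (1 - x * y) * row x l r cs (fun t => F (t ++ [true])) := by
  induction l generalizing r cs F with
  | nil =>
    obtain rfl : cs = [] := List.length_eq_zero_iff.1 hl
    cases r <;> simp [row]
  | cons z l ih =>
    match cs with
    | [] => simp at hl
    | c :: cs =>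
      have hl' : cs.length = l.length := by simpa using hl
      cases r <;> cases c <;> simp only [List.cons_append, row, ih _ cs hl'] <;> ring

theorem row_congr (x : R) (l : List R) (r : Bool) (cs : List Bool) (F G : List Bool → R)
    (h1 : cs.length = l.length) (h2 : ∀ t : List Bool, t.length = l.length → F t = G t) :
    row x l r cs F = row x l r cs G := by
  induction l generalizing r cs F G with
  | nil =>
    obtain rfl : cs = [] := List.length_eq_zero_iff.1 h1
    cases r
    · simp [row]
    · simp [row, h2 [] rfl]
  | cons w l ih =>
    match cs with
    | [] => simp at h1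
    | c :: cs =>
      have h1' : cs.length = l.length := by simpa using h1
      have h3 : ∀ r c, row x l r cs (fun t => F (c :: t))
          = row x l r cs (fun t => G (c :: t)) := by
        intro r c
        apply ih r cs _ _ h1'
        intro t ht
        apply h2
        simp [ht]
      cases r <;> cases c <;> simp only [row, h3]

theorem Z_last (ζ y : R) (l : List R) (cs : List Bool) (hl : cs.length = l.length) :
    Z ζ (l ++ [y]) (cs ++ [true])
      = (l.map (fun z => 1 - z * y)).prod * (1 + y) * Z ζ l cs := by
  induction l generalizing cs with
  | nil =>
    obtain rfl : cs = [] := List.length_eq_zero_iff.1 hl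
    simp [Z, row]
  | cons z l ih =>
    match cs with
    | [] => simp at hl
    | c :: cs =>
      have hl' : cs.length = l.length := by simpa using hl
      have e : ∀ r, row z (l ++ [y]) r (cs ++ [true]) (Z ζ (l ++ [y]))
          = (1 - z * y) * ((l.map (fun z => 1 - z * y)).prod * (1 + y)) *
            row z l r cs (Z ζ l) := by
        intro r
        rw [row_last z y l r cs hl', row_congr z l r cs
          (fun t => Z ζ (l ++ [y]) (t ++ [true]))
          (fun t => (l.map (fun z => 1 - z * y)).prod * (1 + y) * Z ζ l t) hl'
          (fun t ht => ih t ht), row_smul]
        ring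
      cases c <;> simp only [List.cons_append, Z, e, List.map_cons, List.prod_cons] <;> ring

theorem Z0_rec (ζ x y : R) (h : 1 - x - y = 0) (l : List R) :
    Z0 ζ (x :: (l ++ [y])) = (1 + x) * (1 + y) * (l.map (fun z => 1 - x * z)).prod
      * (l.map (fun z => 1 - z * y)).prod * Z0 ζ l := by
  rw [Z0, List.length_cons, List.replicate_succ]
  simp only [Z]
  rw [row_false_zeros_last x y h, row_true_zeros_last x y h, Z_last ζ y l _ (by simp), Z0]
  ring

theorem Z0_neg (ζ : R) (l : List R) :
    Z0 ζ (-1 :: l) = ζ * (l.map (fun z => 2 - z)).prod * Z0 ζ l := by
  rw [Z0, List.length_cons, List.replicate_succ]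
  simp only [Z]
  rw [row_true_zeros, Z0]
  have : (fun y : R => 1 - (-1) - y) = (fun z => 2 - z) := by
    funext y; ring
  rw [this]
  ring

theorem Z0_cons (ζ x : R) (l : List R) :
    Z0 ζ (x :: l) = (1 + x) * row x l false (List.replicate l.length false) (Z ζ l)
      + ζ * (l.map (fun y => 1 - x - y)).prod * Z0 ζ l := by
  rw [Z0, List.length_cons, List.replicate_succ]
  simp only [Z]
  rw [row_true_zeros, Z0]
  ring

end Pool.Agent.TH421.OS
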