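import Mathlib

/-!
# A polynomial six-vertex model on a triangle

The lines carry parameters in a commutative ring; the states are Booleans.
-/

set_option autoImplicit false

namespace Pool.Agent.TH421.OS

variable {R : Type*} [CommRing R]

/-- `1 - x + x ^ 2` -/
def rho (x : R) : R := 1 - x + x * x

/-- A line with parameter `x` and state `r` crosses the lines of the list (with parameters `ys` and
states `cs`) and has to leave in the state `true`; `F` is applied to the new states. -/
def row (x : R) : List R → Bool → List Bool → (List Bool → R) → R
  | [], true, [], F => F []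
  | y :: ys, false, false :: cs, F =>
      (1 - x * y) * row x ys false cs (fun t => F (false :: t))
        + row x ys true cs (fun t => F (true :: t))
  | y :: ys, true, true :: cs, F =>
      (1 - x * y) * row x ys true cs (fun t => F (true :: t))
        + rho x * rho y * row x ys false cs (fun t => F (false :: t))
  | y :: ys, false, true :: cs, F =>
      (1 - x - y) * row x ys false cs (fun t => F (true :: t))
  | y :: ys, true, false :: cs, F =>
      (1 - x - y) * row x ys true cs (fun t => F (false :: t))
  | _, _, _, _ => 0

/-- the partition function, as a function of the initial states -/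
def Z (ζ : R) : List R → List Bool → R
  | [], [] => 1
  | x :: xs, false :: cs => (1 + x) * row x xs false cs (Z ζ xs) + ζ * row x xs true cs (Z ζ xs)
  | x :: xs, true :: cs =>
      (1 + x) * row x xs true cs (Z ζ xs) + ζ * rho x * row x xs false cs (Z ζ xs)
  | _, _ => 0

theorem row_nil_cons (x : R) (r c : Bool) (cs : List Bool) (F : List Bool → R) :
    row x [] r (c :: cs) F = 0 := by
  cases r <;> simp [row]

theorem row_cons_nil (x y : R) (ys : List R) (r : Bool) (F : List Bool → R) :
    row x (y :: ys) r [] F = 0 := by
  cases r <;> simp [row]

theorem row_nil_false (x : R) (cs : List Bool) (F : List Bool → R) :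
    row x [] false cs F = 0 := by
  cases cs <;> simp [row]

theorem row_add (x : R) (ys : List R) (r : Bool) (cs : List Bool) (F G : List Bool → R) :
    row x ys r cs (fun t => F t + G t) = row x ys r cs F + row x ys r cs G := by
  induction ys generalizing r cs F G with
  | nil => cases r <;> cases cs <;> simp [row]
  | cons y ys ih =>
    cases cs with
    | nil => simp [row_cons_nil]
    | cons c cs =>
      have h : ∀ r c, row x ys r cs (fun t => F (c :: t) + G (c :: t))
          = row x ys r cs (fun t => F (c :: t)) + row x ys r cs (fun t => G (c :: t)) :=
        fun r c => ih r cs _ _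
      cases r <;> cases c <;> simp only [row, h] <;> ring

theorem row_smul (x : R) (ys : List R) (r : Bool) (cs : List Bool) (a : R) (F : List Bool → R) :
    row x ys r cs (fun t => a * F t) = a * row x ys r cs F := by
  induction ys generalizing r cs F with
  | nil => cases r <;> cases cs <;> simp [row]
  | cons y ys ih =>
    cases cs with
    | nil => simp [row_cons_nil]
    | cons c cs =>
      have h : ∀ r c, row x ys r cs (fun t => a * F (c :: t))
          = a * row x ys r cs (fun t => F (c :: t)) :=
        fun r c => ih r cs _
      cases r <;> cases c <;> simp only [row, h] <;> ring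

theorem row_zero (x : R) (ys : List R) (r : Bool) (cs : List Bool) :
    row x ys r cs (fun _ => 0) = 0 := by
  have := row_smul x ys r cs 0 (fun _ => 0)
  simpa using this

theorem row_lin (x : R) (ys : List R) (r : Bool) (cs : List Bool) (a b : R)
    (F G : List Bool → R) :
    row x ys r cs (fun t => a * F t + b * G t) = a * row x ys r cs F + b * row x ys r cs G := by
  rw [row_add x ys r cs (fun t => a * F t) (fun t => b * G t), row_smul, row_smul]

/-- equal-spin weight of the intertwiner -/
def wa (x y : R) : R := 1 - x + x * y

/-- the intertwiner on the states at positions `n` and `n + 1` -/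
def ri (x y : R) : ℕ → (List Bool → R) → List Bool → R
  | 0, F, false :: false :: t => wa x y * F (false :: false :: t)
  | 0, F, true :: true :: t => wa x y * F (true :: true :: t)
  | 0, F, false :: true :: t => rho y * F (false :: true :: t) + (y - x) * F (true :: false :: t)
  | 0, F, true :: false :: t => rho x * F (true :: false :: t) + (y - x) * F (false :: true :: t)
  | n + 1, F, c :: t => ri x y n (fun s => F (c :: s)) t
  | _, _, _ => 0

theorem ri_zero_nil (x y : R) (F : List Bool → R) : ri x y 0 F [] = 0 := by simp [ri]

theorem ri_zero_one (x y : R) (F : List Bool → R) (c : Bool) : ri x y 0 F [c] = 0 := by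
  cases c <;> simp [ri]

theorem ri_add (x y : R) (n : ℕ) (F G : List Bool → R) (cs : List Bool) :
    ri x y n (fun t => F t + G t) cs = ri x y n F cs + ri x y n G cs := by
  induction n generalizing F G cs with
  | zero =>
    match cs with
    | [] => simp [ri]
    | [c] => simp [ri_zero_one]
    | p :: q :: cs => cases p <;> cases q <;> simp only [ri] <;> ring
  | succ n ih =>
    cases cs with
    | nil => simp [ri]
    | cons c cs => simp only [ri, ih]

theorem ri_smul (x y : R) (n : ℕ) (a : R) (F : List Bool → R) (cs : List Bool) :
    ri x y n (fun t => a * F t) cs = a * ri x y n F cs := by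
  induction n generalizing F cs with
  | zero =>
    match cs with
    | [] => simp [ri]
    | [c] => simp [ri_zero_one]
    | p :: q :: cs => cases p <;> cases q <;> simp only [ri] <;> ring
  | succ n ih =>
    cases cs with
    | nil => simp [ri]
    | cons c cs => simp only [ri, ih]

theorem ri_zero_fun (x y : R) (n : ℕ) (cs : List Bool) :
    ri x y n (fun _ => 0) cs = 0 := by
  have := ri_smul x y n 0 (fun _ => 0) cs
  simpa using this

/-- a row crossing two adjacent lines -/
theorem row_swap (w x y : R) (l1 l2 : List R) (r : Bool) (cs : List Bool) (F : List Bool → R) :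
    row w (l1 ++ x :: y :: l2) r cs (ri x y l1.length F)
      = ri x y l1.length (fun t => row w (l1 ++ y :: x :: l2) r t F) cs := by
  induction l1 generalizing r cs F with
  | nil =>
    match cs with
    | [] => simp [row_cons_nil, ri_zero_nil]
    | [c] =>
      simp only [List.nil_append, List.length_nil]
      rw [ri_zero_one]
      cases r <;> cases c <;> simp [row]
    | p :: q :: cs =>
      cases r <;> cases p <;> cases q <;>
        simp only [List.nil_append, List.length_nil, row, ri, row_lin, row_smul, rho, wa] <;> ring
  | cons z l1 ih =>
    match cs with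
    | [] => simp [row_cons_nil, ri]
    | c :: cs =>
      have h : ∀ r c, row w (l1 ++ x :: y :: l2) r cs
          (fun t => ri x y l1.length (fun s => F (c :: s)) t)
          = ri x y l1.length (fun t => row w (l1 ++ y :: x :: l2) r t (fun s => F (c :: s))) cs :=
        fun r c => ih r cs _
      cases r <;> cases c <;>
        simp only [List.cons_append, List.length_cons, row, ri, h, ri_add, ri_smul]

/-- two rows processed simultaneously -/
def dbl (x y : R) : List R → Bool → Bool → List Bool → (List Bool → R) → R
  | zs, p, q, cs, F => row x zs p cs (fun t => row y zs q t F)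

theorem dbl_swap (x y : R) (zs : List R) (cs : List Bool) (F : List Bool → R) :
    (wa x y * dbl x y zs false false cs F = wa x y * dbl y x zs false false cs F) ∧
    (wa x y * dbl x y zs true true cs F = wa x y * dbl y x zs true true cs F) ∧
    (wa x y * dbl x y zs false true cs F
      = rho y * dbl y x zs false true cs F + (y - x) * dbl y x zs true false cs F) ∧
    (wa x y * dbl x y zs true false cs F
      = rho x * dbl y x zs true false cs F + (y - x) * dbl y x zs false true cs F) := by
  induction zs generalizing cs F with
  | nil =>
    cases cs <;> simp [dbl, row]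
  | cons z zs ih =>
    cases cs with
    | nil => simp [dbl, row_cons_nil]
    | cons c cs =>
      have h0 := ih cs (fun t => F (false :: t))
      have h1 := ih cs (fun t => F (true :: t))
      obtain ⟨a1, a2, a3, a4⟩ := h0
      obtain ⟨b1, b2, b3, b4⟩ := h1
      simp only [dbl] at a1 a2 a3 a4 b1 b2 b3 b4
      refine ⟨?_, ?_, ?_, ?_⟩
      · cases c
        · simp only [dbl, row, row_add, row_smul]
          linear_combination (norm := (simp only [rho, wa]; ring1)) ((1 - x * z) * (1 - y * z)) * a1 + (1 - x * z) * b3
            + (1 - y - z) * b4
        · simp only [dbl, row, row_add, row_smul]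
          linear_combination (norm := (simp only [rho, wa]; ring1)) ((1 - x - z) * (1 - y - z)) * b1
      · cases c
        · simp only [dbl, row, row_add, row_smul]
          linear_combination (norm := (simp only [rho, wa]; ring1)) ((1 - x - z) * (1 - y - z)) * a2
        · simp only [dbl, row, row_add, row_smul]
          linear_combination (norm := (simp only [rho, wa]; ring1)) ((1 - x * z) * (1 - y * z)) * b2
            + (1 - x * z) * (rho y * rho z) * a4 + (rho x * rho z) * (1 - y - z) * a3
      · cases c
        · simp only [dbl, row, row_add, row_smul]
          linear_combination (norm := (simp only [rho, wa]; ring1)) ((1 - x * z) * (1 - y - z)) * a3 + (1 - y * z) * b2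
            + (rho y * rho z) * a4
        · simp only [dbl, row, row_add, row_smul]
          linear_combination (norm := (simp only [rho, wa]; ring1)) ((1 - x - z) * (1 - y * z)) * b3
            + (1 - x - z) * (rho y * rho z) * a1
      · cases c
        · simp only [dbl, row, row_add, row_smul]
          linear_combination (norm := (simp only [rho, wa]; ring1)) ((1 - x - z) * (1 - y * z)) * a4 + (1 - x - z) * b2
        · simp only [dbl, row, row_add, row_smul]
          linear_combination (norm := (simp only [rho, wa]; ring1)) ((1 - x * z) * (1 - y - z)) * b4
            + (rho x * rho z) * (1 - y * z) * a1 + (rho x * rho z) * b3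

theorem Z_nil_cons (ζ : R) (c : Bool) (cs : List Bool) : Z ζ [] (c :: cs) = 0 := by
  simp [Z]

theorem Z_cons_nil (ζ x : R) (xs : List R) : Z ζ (x :: xs) [] = 0 := by
  simp [Z]

theorem Z_swap (ζ x y : R) (l1 l2 : List R) (cs : List Bool) :
    wa x y * Z ζ (l1 ++ x :: y :: l2) cs = ri x y l1.length (Z ζ (l1 ++ y :: x :: l2)) cs := by
  induction l1 generalizing cs with
  | nil =>
    match cs with
    | [] => simp [Z, ri]
    | [c] => cases c <;> simp [Z, ri_zero_one, row_cons_nil]
    | p :: q :: cs =>
      obtain ⟨a1, a2, a3, a4⟩ := dbl_swap x y l2 cs (Z ζ l2)
      simp only [dbl] at a1 a2 a3 a4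
      cases p <;> cases q <;>
        simp only [List.nil_append, List.length_nil, Z, row, ri, row_add, row_smul]
      · linear_combination (norm := (simp only [rho, wa]; ring1))
          ((1 + x) * (1 - x * y) * (1 + y)) * a1 + ((1 + x) * (1 + y) + ζ * ζ * (1 - x - y)) * a2
          + ((1 + x) * (1 - x * y) * ζ) * a3
          + ((1 + x) * ζ * rho y + ζ * (1 - x - y) * (1 + y)) * a4
      · linear_combination (norm := (simp only [rho, wa]; ring1))
          ((1 + x) * (1 - x - y) * ζ * rho y + ζ * (rho x * rho y) * (1 + y)) * a1
          + (ζ * (1 - x * y) * (1 + y)) * a2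
          + ((1 + x) * (1 - x - y) * (1 + y) + ζ * (rho x * rho y) * ζ) * a3
          + (ζ * (1 - x * y) * ζ * rho y) * a4
      · linear_combination (norm := (simp only [rho, wa]; ring1))
          (ζ * rho x * (1 - x * y) * (1 + y)) * a1
          + ((1 + x) * (1 - x - y) * ζ + ζ * rho x * (1 + y)) * a2
          + (ζ * rho x * (1 - x * y) * ζ) * a3
          + ((1 + x) * (1 - x - y) * (1 + y) + ζ * rho x * ζ * rho y) * a4
      · linear_combination (norm := (simp only [rho, wa]; ring1))
          ((1 + x) * (rho x * rho y) * (1 + y) + ζ * rho x * (1 - x - y) * ζ * rho y) * a1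
          + ((1 + x) * (1 - x * y) * (1 + y)) * a2
          + ((1 + x) * (rho x * rho y) * ζ + ζ * rho x * (1 - x - y) * (1 + y)) * a3
          + ((1 + x) * (1 - x * y) * ζ * rho y) * a4
  | cons w l1 ih =>
    match cs with
    | [] => simp [Z, ri]
    | c :: cs =>
      have e : ∀ r, wa x y * row w (l1 ++ x :: y :: l2) r cs (Z ζ (l1 ++ x :: y :: l2))
          = ri x y l1.length (fun t => row w (l1 ++ y :: x :: l2) r t
              (Z ζ (l1 ++ y :: x :: l2))) cs := by
        intro r
        rw [← row_swap, ← row_smul]
        congr 1
        funext t
        exact ih t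
      cases c <;> simp only [List.cons_append, List.length_cons, Z, ri, ri_add, ri_smul, ← e] <;>
        ring

end Pool.Agent.TH421.OS
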