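import Pool.Agent.TH421.OS.Six

/-!
# Symmetry of the partition function
-/

set_option autoImplicit false

namespace Pool.Agent.TH421.OS

variable {R : Type*} [CommRing R] {S : Type*} [CommRing S]

theorem rho_map (φ : R →+* S) (x : R) : φ (rho x) = rho (φ x) := by
  simp [rho]

theorem row_map (φ : R →+* S) (x : R) (ys : List R) (r : Bool) (cs : List Bool)
    (F : List Bool → R) :
    φ (row x ys r cs F) = row (φ x) (ys.map φ) r cs (fun t => φ (F t)) := by
  induction ys generalizing r cs F with
  | nil => cases r <;> cases cs <;> simp [row]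
  | cons y ys ih =>
    cases cs with
    | nil => simp [row_cons_nil]
    | cons c cs =>
      cases r <;> cases c <;> simp only [row, List.map_cons, map_add, map_mul, ih, map_sub,
        map_one, rho_map]

theorem Z_map (φ : R →+* S) (ζ : R) (xs : List R) (cs : List Bool) :
    φ (Z ζ xs cs) = Z (φ ζ) (xs.map φ) cs := by
  induction xs generalizing cs with
  | nil => cases cs <;> simp [Z]
  | cons x xs ih =>
    cases cs with
    | nil => simp [Z_cons_nil]
    | cons c cs =>
      have e : (fun t => φ (Z ζ xs t)) = Z (φ ζ) (xs.map φ) := by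
        funext t; exact ih t
      cases c <;> simp only [Z, List.map_cons, map_add, map_mul, row_map, e, map_one, rho_map]

/-- the partition function with zero initial states -/
def Z0 (ζ : R) (l : List R) : R := Z ζ l (List.replicate l.length false)

theorem Z0_map (φ : R →+* S) (ζ : R) (xs : List R) :
    φ (Z0 ζ xs) = Z0 (φ ζ) (xs.map φ) := by
  rw [Z0, Z0, Z_map, List.length_map]

theorem ri_zeros (x y : R) (n m : ℕ) (F : List Bool → R) :
    ri x y n F (List.replicate (n + (m + 2)) false)
      = wa x y * F (List.replicate (n + (m + 2)) false) := by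
  induction n generalizing F with
  | zero =>
    rw [Nat.zero_add, List.replicate_succ, List.replicate_succ]
    rfl
  | succ n ih =>
    rw [show n + 1 + (m + 2) = (n + (m + 2)) + 1 by omega, List.replicate_succ]
    simp only [ri]
    rw [ih]

theorem Z0_swap_aux (ζ x y : R) (l1 l2 : List R) :
    wa x y * Z0 ζ (l1 ++ x :: y :: l2) = wa x y * Z0 ζ (l1 ++ y :: x :: l2) := by
  rw [Z0, Z0, Z_swap]
  have h1 : (l1 ++ x :: y :: l2).length = l1.length + (l2.length + 2) := by simp
  have h2 : (l1 ++ y :: x :: l2).length = l1.length + (l2.length + 2) := by simp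
  rw [h1, h2, ri_zeros]

theorem Z0_swap (ζ x y : R) (l1 l2 : List R) :
    Z0 ζ (l1 ++ x :: y :: l2) = Z0 ζ (l1 ++ y :: x :: l2) := by
  have key : Z0 (MvPolynomial.X ζ : MvPolynomial R ℤ)
      ((l1 ++ x :: y :: l2).map MvPolynomial.X)
      = Z0 (MvPolynomial.X ζ : MvPolynomial R ℤ)
      ((l1 ++ y :: x :: l2).map MvPolynomial.X) := by
    have h := Z0_swap_aux (MvPolynomial.X ζ : MvPolynomial R ℤ) (MvPolynomial.X x)
      (MvPolynomial.X y) (l1.map MvPolynomial.X) (l2.map MvPolynomial.X)
    have hne : wa (MvPolynomial.X x : MvPolynomial R ℤ) (MvPolynomial.X y) ≠ 0 := by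
      intro h0
      have := congrArg (MvPolynomial.eval (fun _ => (0 : ℤ))) h0
      simp [wa] at this
    have h' := mul_left_cancel₀ hne h
    simpa using h'
  have := congrArg (MvPolynomial.eval₂Hom (Int.castRingHom R) id) key
  rw [Z0_map, Z0_map] at this
  have e : ∀ l : List R, (l.map (MvPolynomial.X : R → MvPolynomial R ℤ)).map
      (MvPolynomial.eval₂Hom (Int.castRingHom R) id) = l := by
    intro l
    rw [List.map_map]
    conv_rhs => rw [← List.map_id l]
    apply List.map_congr_left
    intro a _
    simp
  rw [e, e] at this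
  simpa using this

theorem Z0_perm (ζ : R) {l l' : List R} (h : l.Perm l') : Z0 ζ l = Z0 ζ l' := by
  have key : ∀ l1 : List R, Z0 ζ (l1 ++ l) = Z0 ζ (l1 ++ l') := by
    induction h with
    | nil => intro l1; rfl
    | cons x h ih =>
      intro l1
      have := ih (l1 ++ [x])
      simpa using this
    | swap x y l => intro l1; exact Z0_swap ζ y x l1 l
    | trans h1 h2 ih1 ih2 => intro l1; rw [ih1, ih2]
  simpa using key []

end Pool.Agent.TH421.OS
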